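import Pool.Agent.W657.TG.WH

/-!
# An abstract argument: characters of a singly generated commutative C*-algebra under a flow
-/

set_option autoImplicit false

open Topology Filter WeakDual

namespace Pool.Agent.W657.TG

open WH

/-- the argument of `-z` determines the number `z` of absolute value one -/
theorem arg_neg_inj {z w : ℂ} (hz : ‖z‖ = 1) (hw : ‖w‖ = 1)
    (h : Complex.arg (-z) = Complex.arg (-w)) : z = w := by
  have h1 : -z = -w := Complex.ext_norm_arg (by rw [norm_neg, norm_neg, hz, hw]) h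
  exact neg_injective h1

theorem neg_mem_slitPlane {z : ℂ} (hz : ‖z‖ = 1) (h : z ≠ 1) : -z ∈ Complex.slitPlane := by
  rw [Complex.mem_slitPlane_iff]
  by_contra hcon
  push Not at hcon
  obtain ⟨h1, h2⟩ := hcon
  rw [Complex.neg_re] at h1
  rw [Complex.neg_im, neg_eq_zero] at h2
  apply h
  have h3 : z = (z.re : ℂ) := by
    apply Complex.ext
    · rw [Complex.ofReal_re]
    · rw [Complex.ofReal_im, h2]
  rw [h3, Complex.norm_real, Real.norm_eq_abs, abs_of_nonneg (by linarith)] at hz
  rw [h3, hz, Complex.ofReal_one]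

/-- a continuous injective function cannot have an interior minimum -/
theorem no_interior_min {q : ℝ → ℝ} (hq : Continuous q) (hmin : ∀ t, q 0 ≤ q t)
    (hinj : Set.InjOn q (Set.Icc (-(1 / 4)) (1 / 4))) : False := by
  rcases hq.continuousOn.strictMonoOn_of_injOn_Icc' (by norm_num) hinj with h | h
  · have := h (a := -(1 / 4)) (b := 0) ⟨le_refl _, by norm_num⟩ ⟨by norm_num, by norm_num⟩
      (by norm_num)
    exact absurd (hmin _) (not_le.2 this)
  · have := h (a := 0) (b := 1 / 4) ⟨by norm_num, by norm_num⟩ ⟨by norm_num, le_refl _⟩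
      (by norm_num)
    exact absurd (hmin _) (not_le.2 this)

section comm

variable {B : Type*} [CommCStarAlgebra B] [Nontrivial B]

omit [Nontrivial B] in
theorem norm_char {v : B} (hv : star v * v = 1) (χ : characterSpace ℂ B) : ‖χ v‖ = 1 := by
  have h2 := congrArg χ hv
  rw [map_mul, map_star, map_one] at h2
  have h3 := congrArg norm h2
  rw [norm_mul, norm_star, norm_one] at h3
  nlinarith [norm_nonneg (χ v)]

theorem comm_contra (v : B) (hv : star v * v = 1) (α : ℝ → B →⋆ₐ[ℂ] B)
    (hα0 : ∀ T, α 0 T = T) (hcont : Continuous fun t => α t v) (u : B) (c : ℝ) (hc : c ≠ 0)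
    (hu : star u * u = (c : ℂ) • 1)
    (hαu : ∀ t, α t u = ((Circle.exp (2 * Real.pi * t) : Circle) : ℂ) • u)
    (hgen : ∀ χ χ' : characterSpace ℂ B, χ v = χ' v → χ = χ')
    (hne : ∀ χ : characterSpace ℂ B, χ v ≠ 1) : False := by
  -- the function to be minimised
  let ψ : characterSpace ℂ B → ℝ := fun χ => Complex.arg (-(χ v))
  have hψ : Continuous ψ := by
    rw [continuous_iff_continuousAt]
    intro χ
    have h1 : ContinuousAt Complex.arg (-(χ v)) :=
      Complex.continuousAt_arg (neg_mem_slitPlane (norm_char hv χ) (hne χ))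
    have h2 : Continuous fun χ : characterSpace ℂ B => -(χ v) := by
      have h3 : Continuous fun χ : characterSpace ℂ B => χ v :=
        map_continuous (gelfandTransform ℂ B v)
      exact h3.neg
    exact ContinuousAt.comp (f := fun χ : characterSpace ℂ B => -(χ v)) h1 h2.continuousAt
  obtain ⟨χ₀, -, hmin⟩ := isCompact_univ.exists_isMinOn
    (Set.univ_nonempty (α := characterSpace ℂ B)) hψ.continuousOn
  have hmin' : ∀ χ, ψ χ₀ ≤ ψ χ := fun χ => hmin (Set.mem_univ χ)
  -- the orbit of the minimal character under the flow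
  let χt : ℝ → characterSpace ℂ B := fun t => CharacterSpace.compContinuousMap (α t) χ₀
  have hχt : ∀ t T, χt t T = χ₀ (α t T) := fun t T => rfl
  have hc0 : Continuous fun t => χ₀ (α t v) := (map_continuous χ₀).comp hcont
  have hq : Continuous fun t => ψ (χt t) := by
    rw [continuous_iff_continuousAt]
    intro t
    have h1 : ContinuousAt Complex.arg (-(χt t v)) :=
      Complex.continuousAt_arg (neg_mem_slitPlane (norm_char hv (χt t)) (hne (χt t)))
    exact ContinuousAt.comp (f := fun t => -(χt t v)) h1 hc0.neg.continuousAt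
  have hχ0 : χt 0 = χ₀ := by
    apply CharacterSpace.ext
    intro T
    rw [hχt, hα0]
  refine no_interior_min hq (fun t => ?_) ?_
  · show ψ (χt 0) ≤ ψ (χt t)
    rw [hχ0]
    exact hmin' _
  · intro t ht s hs hts
    have h1 : χt t v = χt s v := arg_neg_inj (norm_char hv _) (norm_char hv _) hts
    have h2 : χt t = χt s := hgen _ _ h1
    have h3 : ∀ t, χt t u = ((Circle.exp (2 * Real.pi * t) : Circle) : ℂ) * χ₀ u := by
      intro t
      rw [hχt, hαu, map_smul]
      rfl
    have h4 : χ₀ u ≠ 0 := by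
      intro h0
      have h6 := congrArg χ₀ hu
      rw [map_mul, h0, mul_zero, map_smul, map_one] at h6
      apply Complex.ofReal_ne_zero.2 hc
      rw [smul_eq_mul, mul_one] at h6
      exact h6.symm
    have h5 := h3 t
    rw [h2, h3 s] at h5
    have h6 : Circle.exp (2 * Real.pi * s) = Circle.exp (2 * Real.pi * t) :=
      Circle.ext (mul_right_cancel₀ h4 h5)
    rw [Circle.exp_eq_exp] at h6
    obtain ⟨m, hm⟩ := h6
    have hpi := Real.pi_pos
    have h7 : s = t + m := by
      have h8 : 2 * Real.pi * s = 2 * Real.pi * (t + m) := by linarith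
      exact mul_left_cancel₀ (by positivity) h8
    have h8 : (m : ℝ) < 1 := by linarith [hs.2, ht.1]
    have h9 : (-1 : ℝ) < m := by linarith [hs.1, ht.2]
    have h10 : m < 1 := by exact_mod_cast h8
    have h11 : -1 < m := by exact_mod_cast h9
    have h12 : m = 0 := by omega
    rw [h7, h12]
    simp

omit [Nontrivial B] in
/-- no character of `B` maps `v` to `1` -/
theorem comm_ne_one (v : B) (ρ : A → B) (hadd : ∀ a b, ρ (a + b) = ρ a + ρ b)
    (hsmul : ∀ (c : ℂ) a, ρ (c • a) = c • ρ a) (hmul : ∀ a b, ρ (a * b) = ρ a * ρ b)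
    (hstar : ∀ a, ρ (star a) = star (ρ a)) (hcont : Continuous ρ)
    (hN : ρ ⟨N, N_mem⟩ = v - 1) (a₁ : A) (ha₁ : ρ a₁ = 1) (χ : characterSpace ℂ B) :
    χ v ≠ 1 := by
  intro h
  have hρ : χ (ρ a₁) = 0 := by
    refine induction_A (p := fun a => χ (ρ a) = 0) ?_ ?_ ?_ ?_ ?_ ?_ a₁
    · rw [hN, map_sub, map_one, h, sub_self]
    · intro a b ha hb
      rw [hadd, map_add, ha, hb, add_zero]
    · intro c a ha
      rw [hsmul, map_smul, ha, smul_zero]
    · intro a b ha hb
      rw [hmul, map_mul, ha, zero_mul]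
    · intro a ha
      rw [hstar, map_star, ha, star_zero]
    · refine isClosed_singleton.preimage ?_
      have h1 : Continuous χ := map_continuous χ
      exact h1.comp hcont
  rw [ha₁, map_one] at hρ
  exact one_ne_zero hρ

end comm

section noncomm

variable {E : Type*} [CStarAlgebra E] [Nontrivial E]

theorem elemental_gen (v : E) [IsStarNormal v]
    (χ χ' : characterSpace ℂ (StarAlgebra.elemental ℂ v))
    (h : χ ⟨v, StarAlgebra.elemental.self_mem ℂ v⟩ = χ' ⟨v, StarAlgebra.elemental.self_mem ℂ v⟩) :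
    χ = χ' :=
  StarAlgebra.elemental.starAlgHomClass_ext ℂ (map_continuous χ) (map_continuous χ') h

/-- the restriction of an endomorphism to the C*-algebra generated by `v` -/
noncomputable def restrictEnd (v : E) (α : E →⋆ₐ[ℂ] E) (hα : Continuous α)
    (hαv : α v ∈ StarAlgebra.elemental ℂ v) :
    StarAlgebra.elemental ℂ v →⋆ₐ[ℂ] StarAlgebra.elemental ℂ v :=
  StarAlgHom.codRestrict (α.comp (StarAlgebra.elemental ℂ v).subtype) (StarAlgebra.elemental ℂ v)
    (fun T => by
      have h1 : StarAlgebra.elemental ℂ v ≤ (StarAlgebra.elemental ℂ v).comap α := by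
        apply StarAlgebra.elemental.le_of_mem
        · exact (StarAlgebra.elemental.isClosed ℂ v).preimage hα
        · exact hαv
      exact h1 T.2)

theorem noncomm_contra (v : E) (hv1 : star v * v = 1) (hv2 : v * star v = 1)
    (α : ℝ → E →⋆ₐ[ℂ] E) (hα0 : ∀ T, α 0 T = T) (hαc : ∀ t, Continuous (α t))
    (hαv : ∀ t, α t v ∈ StarAlgebra.elemental ℂ v) (hcont : Continuous fun t => α t v)
    (u : E) (hu : u ∈ StarAlgebra.elemental ℂ v) (c : ℝ) (hc : c ≠ 0)
    (huu : star u * u = (c : ℂ) • 1)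
    (hαu : ∀ t, α t u = ((Circle.exp (2 * Real.pi * t) : Circle) : ℂ) • u)
    (ρ : A → E) (hmem : ∀ a, ρ a ∈ StarAlgebra.elemental ℂ v)
    (hadd : ∀ a b, ρ (a + b) = ρ a + ρ b)
    (hsmul : ∀ (c : ℂ) a, ρ (c • a) = c • ρ a) (hmul : ∀ a b, ρ (a * b) = ρ a * ρ b)
    (hstar : ∀ a, ρ (star a) = star (ρ a)) (hρcont : Continuous ρ)
    (hN : ρ ⟨N, N_mem⟩ = v - 1) (a₁ : A) (ha₁ : ρ a₁ = 1) : False := by
  have hn : IsStarNormal v := ⟨by
    show star v * v = v * star v
    rw [hv1, hv2]⟩
  refine comm_contra (B := StarAlgebra.elemental ℂ v) ⟨v, StarAlgebra.elemental.self_mem ℂ v⟩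
    (Subtype.ext hv1) (fun t => restrictEnd v (α t) (hαc t) (hαv t)) ?_ ?_ ⟨u, hu⟩ c hc
    (Subtype.ext huu) ?_ (elemental_gen v) ?_
  · intro T
    exact Subtype.ext (hα0 T)
  · exact hcont.subtype_mk hαv
  · intro t
    exact Subtype.ext (hαu t)
  · exact comm_ne_one _ (fun a => ⟨ρ a, hmem a⟩) (fun a b => Subtype.ext (hadd a b))
      (fun c a => Subtype.ext (hsmul c a)) (fun a b => Subtype.ext (hmul a b))
      (fun a => Subtype.ext (hstar a)) (hρcont.subtype_mk hmem) (Subtype.ext hN) a₁
      (Subtype.ext ha₁)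

end noncomm

end Pool.Agent.W657.TG
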