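import Pool.Agent.W657.TG.Reg

/-!
# Equivariant bump functions
-/

set_option autoImplicit false

open Topology Filter

namespace Pool.Agent.W657.TG

universe u

namespace Twist

variable {X G S : Type u} [TopologicalSpace X] [TopologicalSpace G] [TopologicalSpace S]
  {𝒢 : TopGpd X G} {tw : Twist 𝒢 S}

/-- averaging over the circle -/
noncomputable def avg (tw : Twist 𝒢 S) (h : S → ℝ) (σ : S) : ℂ :=
  ∫ t in (0 : ℝ)..(2 * Real.pi), ((Circle.exp t : Circle) : ℂ) * (h (tw.act (Circle.exp t) σ) : ℂ)

theorem continuous_avg {h : S → ℝ} (hh : Continuous h) : Continuous (tw.avg h) := by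
  unfold avg
  apply intervalIntegral.continuous_parametric_intervalIntegral_of_continuous'
  have h1 : Continuous fun p : S × ℝ => tw.act (Circle.exp p.2) p.1 :=
    tw.continuous_act.comp (by fun_prop : Continuous fun p : S × ℝ => (Circle.exp p.2, p.1))
  have h2 : Continuous fun p : S × ℝ => ((Circle.exp p.2 : Circle) : ℂ) := by fun_prop
  exact h2.mul (Complex.continuous_ofReal.comp (hh.comp h1))

theorem avg_act {h : S → ℝ} (z : Circle) (σ : S) :
    tw.avg h (tw.act z σ) = (starRingEnd ℂ) (z : ℂ) * tw.avg h σ := by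
  obtain ⟨s, rfl⟩ : ∃ s : ℝ, Circle.exp s = z := ⟨_, Circle.exp_arg z⟩
  unfold avg
  set g : ℝ → ℂ := fun t => ((Circle.exp t : Circle) : ℂ) * (h (tw.act (Circle.exp t) σ) : ℂ)
    with hg
  have hper : Function.Periodic g (2 * Real.pi) := by
    intro t
    simp only [hg]
    rw [Circle.periodic_exp t]
  have h1 : ∀ t : ℝ, ((Circle.exp t : Circle) : ℂ) *
      (h (tw.act (Circle.exp t) (tw.act (Circle.exp s) σ)) : ℂ) =
      (starRingEnd ℂ) ((Circle.exp s : Circle) : ℂ) * g (t + s) := by
    intro t
    simp only [hg]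
    rw [Circle.exp_add, tw.act_mul, ← Circle.coe_inv_eq_conj, ← mul_assoc]
    congr 1
    push_cast
    field_simp
  simp_rw [h1]
  rw [intervalIntegral.integral_const_mul, intervalIntegral.integral_comp_add_right]
  congr 1
  have := hper.intervalIntegral_add_eq s 0
  rw [zero_add] at this
  rw [zero_add, add_comm (2 * Real.pi) s, this]

theorem exists_bump [T2Space S] [LocallyCompactSpace S] (tw : Twist 𝒢 S) (σ₀ : S) {W : Set G}
    (hW : IsOpen W) (h₀ : tw.proj σ₀ ∈ W) :
    ∃ f, tw.IsSection f ∧ f σ₀ ≠ 0 ∧ ∀ σ, f σ ≠ 0 → tw.proj σ ∈ W := by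
  set K : Set S := (fun z => tw.act z σ₀) '' {z : Circle | (z : ℂ).re ≤ 1 / 2} with hK
  have hcont : Continuous fun z : Circle => tw.act z σ₀ :=
    tw.continuous_act.comp (by fun_prop : Continuous fun z : Circle => (z, σ₀))
  have hre : Continuous fun z : Circle => (z : ℂ).re := by fun_prop
  have hKc : IsCompact K :=
    ((isClosed_le hre continuous_const).isCompact).image hcont
  have h1 : σ₀ ∉ K := by
    rintro ⟨z, hz, h⟩
    have h2 : tw.act z σ₀ = tw.act 1 σ₀ := by rw [tw.act_one]; exact h
    have h3 := tw.act_free h2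
    subst h3
    have h4 : (((1 : Circle) : Circle) : ℂ).re ≤ 1 / 2 := hz
    rw [Circle.coe_one] at h4
    norm_num at h4
  have hVo : IsOpen (tw.proj ⁻¹' W ∩ Kᶜ) :=
    (hW.preimage tw.continuous_proj).inter hKc.isClosed.isOpen_compl
  obtain ⟨h, hh1, hh0, hhc, hh⟩ := exists_continuous_one_zero_of_isCompact
    (s := {σ₀}) (t := (tw.proj ⁻¹' W ∩ Kᶜ)ᶜ) isCompact_singleton hVo.isClosed_compl (by
      rw [Set.disjoint_singleton_left, Set.mem_compl_iff, not_not]
      exact ⟨h₀, h1⟩)
  have hpos : 0 ≤ (2 * Real.pi) := by positivity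
  refine ⟨tw.avg h, ⟨continuous_avg h.continuous, ?_, fun z σ => avg_act z σ⟩, ?_, ?_⟩
  · refine HasCompactSupport.intro (K := (fun p : Circle × S => tw.act p.1 p.2) ''
      (Set.univ ×ˢ tsupport h)) ?_ ?_
    · exact (isCompact_univ.prod hhc.isCompact).image tw.continuous_act
    · intro σ hσ
      unfold avg
      have : ∀ t : ℝ, ((Circle.exp t : Circle) : ℂ) * (h (tw.act (Circle.exp t) σ) : ℂ) = 0 := by
        intro t
        have h2 : h (tw.act (Circle.exp t) σ) = 0 := by
          by_contra hne
          apply hσ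
          refine ⟨((Circle.exp t)⁻¹, tw.act (Circle.exp t) σ), ⟨trivial, subset_tsupport h hne⟩, ?_⟩
          show tw.act (Circle.exp t)⁻¹ (tw.act (Circle.exp t) σ) = σ
          rw [← tw.act_mul, inv_mul_cancel, tw.act_one]
        rw [h2]
        simp
      simp_rw [this]
      simp
  · -- the real part of the average is positive at `σ₀`
    have hcg : Continuous fun t : ℝ => (h (tw.act (Circle.exp t) σ₀) : ℝ) := by
      have : Continuous fun t : ℝ => tw.act (Circle.exp t) σ₀ :=
        hcont.comp (by fun_prop)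
      exact h.continuous.comp this
    have hcF : Continuous fun t : ℝ =>
        ((Circle.exp t : Circle) : ℂ) * (h (tw.act (Circle.exp t) σ₀) : ℂ) := by
      have h2 : Continuous fun t : ℝ => ((Circle.exp t : Circle) : ℂ) := by fun_prop
      exact h2.mul (Complex.continuous_ofReal.comp hcg)
    intro h0
    have h3 : (tw.avg h σ₀).re = ∫ t in (0 : ℝ)..(2 * Real.pi),
        (((Circle.exp t : Circle) : ℂ) * (h (tw.act (Circle.exp t) σ₀) : ℂ)).re := by
      unfold avg
      have := Complex.reCLM.intervalIntegral_comp_comm (μ := MeasureTheory.volume)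
        (hcF.intervalIntegrable 0 (2 * Real.pi))
      simp only [Complex.reCLM_apply] at this
      exact this.symm
    rw [h0, Complex.zero_re] at h3
    have h4 : ∀ t : ℝ, 1 / 2 * h (tw.act (Circle.exp t) σ₀) ≤
        (((Circle.exp t : Circle) : ℂ) * (h (tw.act (Circle.exp t) σ₀) : ℂ)).re := by
      intro t
      rw [Complex.re_mul_ofReal]
      by_cases hc : ((Circle.exp t : Circle) : ℂ).re ≤ 1 / 2
      · have : h (tw.act (Circle.exp t) σ₀) = 0 := by
          apply hh0
          rw [Set.mem_compl_iff]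
          rintro ⟨-, h5⟩
          exact h5 ⟨_, hc, rfl⟩
        rw [this, mul_zero, mul_zero]
      · push Not at hc
        have := (hh (tw.act (Circle.exp t) σ₀)).1
        nlinarith
    have h5 : (0 : ℝ) < ∫ t in (0 : ℝ)..(2 * Real.pi), 1 / 2 * h (tw.act (Circle.exp t) σ₀) := by
      have hcont2 : Continuous fun t : ℝ => 1 / 2 * h (tw.act (Circle.exp t) σ₀) :=
        continuous_const.mul hcg
      refine intervalIntegral.integral_pos (by positivity) hcont2.continuousOn (fun t _ => ?_)
        ⟨0, ⟨le_refl _, hpos⟩, ?_⟩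
      · have := (hh (tw.act (Circle.exp t) σ₀)).1
        positivity
      · rw [Circle.exp_zero, tw.act_one, hh1 (Set.mem_singleton σ₀)]
        norm_num
    have h6 : ∫ t in (0 : ℝ)..(2 * Real.pi), 1 / 2 * h (tw.act (Circle.exp t) σ₀) ≤
        ∫ t in (0 : ℝ)..(2 * Real.pi),
        (((Circle.exp t : Circle) : ℂ) * (h (tw.act (Circle.exp t) σ₀) : ℂ)).re := by
      apply intervalIntegral.integral_mono_on hpos
      · exact (continuous_const.mul hcg).intervalIntegrable _ _
      · exact (Complex.continuous_re.comp hcF).intervalIntegrable _ _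
      · intro t _
        exact h4 t
    linarith
  · intro σ hne
    by_contra hW'
    apply hne
    unfold avg
    have : ∀ t : ℝ, ((Circle.exp t : Circle) : ℂ) * (h (tw.act (Circle.exp t) σ) : ℂ) = 0 := by
      intro t
      have h2 : h (tw.act (Circle.exp t) σ) = 0 := by
        apply hh0
        rw [Set.mem_compl_iff]
        rintro ⟨h5, -⟩
        apply hW'
        have h6 : tw.proj (tw.act (Circle.exp t) σ) ∈ W := h5
        rwa [tw.proj_act] at h6
      rw [h2]
      simp
    simp_rw [this]
    simp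

end Twist

end Pool.Agent.W657.TG
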