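import Pool.Agent.W657.TG.Main7

/-!
# Concrete definitions for the final statement
-/

set_option autoImplicit false

open Topology

namespace Pool.Agent.W657.TG

universe u v

/-- The Hilbert space `ℓ²(X)`. -/
def Hil (X : Type u) : Type u := lp (fun _ : X => ℂ) 2

namespace Hil

variable {X : Type u}

noncomputable instance instN : NormedAddCommGroup (Hil X) :=
  lp.normedAddCommGroup (E := fun _ : X => ℂ) (p := 2)

noncomputable instance instI : InnerProductSpace ℂ (Hil X) :=
  lp.instInnerProductSpace (𝕜 := ℂ) (G := fun _ : X => ℂ)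

instance instC : CompleteSpace (Hil X) :=
  lp.completeSpace (E := fun _ : X => ℂ) (p := 2)

/-- the coordinate `ξ(x)` of the square summable function `ξ` -/
def coord (ξ : Hil X) (x : X) : ℂ := Subtype.val ξ x

end Hil

/-- `T` is the unilateral shift on `ℓ²(ℕ)`: `(T ξ)(0) = 0` and `(T ξ)(n + 1) = ξ(n)`. -/
def IsShift (T : Hil ℕ →L[ℂ] Hil ℕ) : Prop :=
  ∀ ξ, (T ξ).coord 0 = 0 ∧ ∀ n, (T ξ).coord (n + 1) = ξ.coord n

section

variable {H : Type u} [NormedAddCommGroup H] [InnerProductSpace ℂ H] [CompleteSpace H]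

/-- The C*-algebra generated by the operator `a`: the smallest closed `*`-subalgebra (not
necessarily containing the unit) of the algebra of bounded operators on `H` that contains `a`. -/
noncomputable def Gen (a : H →L[ℂ] H) : Set (H →L[ℂ] H) :=
  (NonUnitalStarAlgebra.elemental ℂ a : Set (H →L[ℂ] H))

/-- The C*-algebra `A` is isomorphic to the C*-algebra `C` of operators on the Hilbert space `H`:
there is an injective `*`-homomorphism from `A` to the bounded operators on `H` with range `C`. -/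
def IsoTo (A : Type v) [NonUnitalCStarAlgebra A] (C : Set (H →L[ℂ] H)) : Prop :=
  ∃ φ : A →⋆ₙₐ[ℂ] (H →L[ℂ] H), Function.Injective φ ∧ Set.range φ = C

end

namespace Twist

variable {X G S : Type u} [TopologicalSpace X] [TopologicalSpace G] [TopologicalSpace S]
  {𝒢 : TopGpd X G} (tw : Twist 𝒢 S)

/-- `T` is the operator `λ(f)` of the regular representation on
`⨁_{x ∈ G⁰} ℓ²(s⁻¹(x)) = ℓ²(G)`: `(T ξ)(γ) = ∑_{η ∈ G, s(η) = s(γ)} f(σ_γ σ_η⁻¹) ξ(η)`. -/
def IsReg (f : S → ℂ) (T : Hil G →L[ℂ] Hil G) : Prop :=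
  ∀ (ξ : Hil G) (γ : G), HasSum (fun η => tw.entry f γ η * ξ.coord η) ((T ξ).coord γ)

/-- The reduced twisted groupoid C*-algebra `C_r^*(G, Σ)`, as a set of operators on `ℓ²(G)`: the
norm closure of the set of all operators `λ(f)`, `f ∈ C_c(G, Σ)`. -/
def cstar : Set (Hil G →L[ℂ] Hil G) :=
  closure {T | ∃ f, tw.IsSection f ∧ tw.IsReg f T}

end Twist

/-- the shift -/
noncomputable def opShift : Hil ℕ →L[ℂ] Hil ℕ := WH.shift

theorem isShift_opShift : IsShift opShift :=
  fun ξ => ⟨WH.shift_zero ξ, fun n => WH.shift_succ ξ n⟩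

/-- the inclusion of the algebra -/
noncomputable def opIncl : WH.A →⋆ₙₐ[ℂ] (Hil ℕ →L[ℂ] Hil ℕ) where
  toFun a := (a : WH.H →L[ℂ] WH.H)
  map_smul' _ _ := rfl
  map_zero' := rfl
  map_add' _ _ := rfl
  map_mul' _ _ := rfl
  map_star' _ := rfl

theorem range_opIncl : Set.range opIncl = (WH.A : Set (WH.H →L[ℂ] WH.H)) := by
  ext x
  constructor
  · rintro ⟨a, rfl⟩
    exact a.2
  · intro h
    exact ⟨⟨x, h⟩, rfl⟩

theorem isoTo_A : IsoTo WH.A (Gen (opShift - 1)) := by
  refine ⟨opIncl, Subtype.val_injective, ?_⟩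
  exact range_opIncl

theorem not_isoTo {X G S : Type u} [TopologicalSpace X] [TopologicalSpace G] [TopologicalSpace S]
    [LocallyCompactSpace G] [T2Space G] [LocallyCompactSpace S] [T2Space S]
    (𝒢 : TopGpd X G) (tw : Twist 𝒢 S) (h : 𝒢.Etale) : ¬ IsoTo WH.A tw.cstar := by
  rintro ⟨φ, h1, h2⟩
  exact Iso.false h
    ⟨{  toFun := fun a => φ a
        map_smul' := fun c a => map_smul φ c a
        map_zero' := map_zero φ
        map_add' := fun a b => map_add φ a b
        map_mul' := fun a b => map_mul φ a b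
        map_star' := fun a => map_star φ a }, h1, h2⟩

theorem final :
    ∃ (A : Type) (_ : NonUnitalCStarAlgebra A),
      (∃ T : Hil ℕ →L[ℂ] Hil ℕ, IsShift T ∧ IsoTo A (Gen (T - 1))) ∧
      TopologicalSpace.SeparableSpace A ∧
      ∀ (X G S : Type u) [TopologicalSpace X] [TopologicalSpace G] [TopologicalSpace S]
        [LocallyCompactSpace G] [T2Space G] [LocallyCompactSpace S] [T2Space S]
        (𝒢 : TopGpd X G) (tw : Twist 𝒢 S), 𝒢.Etale → ¬ IsoTo A tw.cstar := by
  refine ⟨WH.A, inferInstance, ⟨opShift, isShift_opShift, isoTo_A⟩, inferInstance, ?_⟩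
  intro X G S _ _ _ _ _ _ _ 𝒢 tw h
  exact not_isoTo 𝒢 tw h

end Pool.Agent.W657.TG
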