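import Pool.Agent.W657.TG.Lp

/-!
# Topological groupoids and twists
-/

set_option autoImplicit false

open Topology

namespace Pool.Agent.W657.TG

universe u

/-- A topological groupoid with unit space `X` and space of arrows `G`. The product `mul g h` is
only meaningful when `s g = r h`. (The map `unit` is automatically an embedding, with continuous
left inverse `s`, so `X` is the unit space with its subspace topology.) -/
structure TopGpd (X G : Type u) [TopologicalSpace X] [TopologicalSpace G] where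
  /-- source -/
  s : G → X
  /-- range -/
  r : G → X
  /-- units -/
  unit : X → G
  /-- product -/
  mul : G → G → G
  /-- inverse -/
  inv : G → G
  s_unit : ∀ x, s (unit x) = x
  r_unit : ∀ x, r (unit x) = x
  s_mul : ∀ g h, s g = r h → s (mul g h) = s h
  r_mul : ∀ g h, s g = r h → r (mul g h) = r g
  mul_assoc : ∀ g h k, s g = r h → s h = r k → mul (mul g h) k = mul g (mul h k)
  mul_unit : ∀ g, mul g (unit (s g)) = g
  unit_mul : ∀ g, mul (unit (r g)) g = g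
  s_inv : ∀ g, s (inv g) = r g
  r_inv : ∀ g, r (inv g) = s g
  mul_inv : ∀ g, mul g (inv g) = unit (r g)
  inv_mul : ∀ g, mul (inv g) g = unit (s g)
  continuous_s : Continuous s
  continuous_r : Continuous r
  continuous_unit : Continuous unit
  continuous_inv : Continuous inv
  continuous_mul : ContinuousOn (fun q : G × G => mul q.1 q.2) {q | s q.1 = r q.2}

namespace TopGpd

variable {X G : Type u} [TopologicalSpace X] [TopologicalSpace G] (𝒢 : TopGpd X G)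

/-- étale: source and range are local homeomorphisms -/
def Etale : Prop := IsLocalHomeomorph 𝒢.s ∧ IsLocalHomeomorph 𝒢.r

variable {𝒢}

theorem inv_mul_cancel_left {g h : G} (e : 𝒢.s g = 𝒢.r h) :
    𝒢.mul (𝒢.inv g) (𝒢.mul g h) = h := by
  rw [← 𝒢.mul_assoc _ _ _ (𝒢.s_inv g) e, 𝒢.inv_mul, e, 𝒢.unit_mul]

theorem mul_inv_cancel_left {g h : G} (e : 𝒢.r g = 𝒢.r h) :
    𝒢.mul g (𝒢.mul (𝒢.inv g) h) = h := by
  rw [← 𝒢.mul_assoc _ _ _ (𝒢.r_inv g).symm ((𝒢.s_inv g).trans e), 𝒢.mul_inv, e, 𝒢.unit_mul]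

theorem mul_inv_cancel_right {g h : G} (e : 𝒢.s g = 𝒢.r h) :
    𝒢.mul (𝒢.mul g h) (𝒢.inv h) = g := by
  rw [𝒢.mul_assoc _ _ _ e (𝒢.r_inv h).symm, 𝒢.mul_inv, ← e, 𝒢.mul_unit]

theorem inv_mul_cancel_right {g h : G} (e : 𝒢.s g = 𝒢.s h) :
    𝒢.mul (𝒢.mul g (𝒢.inv h)) h = g := by
  rw [𝒢.mul_assoc _ _ _ (e.trans (𝒢.r_inv h).symm) (𝒢.s_inv h), 𝒢.inv_mul, ← e, 𝒢.mul_unit]

theorem mul_left_cancel {g h k : G} (e : 𝒢.s g = 𝒢.r h) (e' : 𝒢.s g = 𝒢.r k)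
    (H : 𝒢.mul g h = 𝒢.mul g k) : h = k := by
  rw [← inv_mul_cancel_left e, H, inv_mul_cancel_left e']

theorem mul_right_cancel {g h k : G} (e : 𝒢.s h = 𝒢.r g) (e' : 𝒢.s k = 𝒢.r g)
    (H : 𝒢.mul h g = 𝒢.mul k g) : h = k := by
  rw [← mul_inv_cancel_right e, H, mul_inv_cancel_right e']

theorem inv_inv (g : G) : 𝒢.inv (𝒢.inv g) = g := by
  apply mul_left_cancel (𝒢 := 𝒢) (g := 𝒢.inv g)
  · rw [𝒢.r_inv]
  · rw [𝒢.s_inv]
  · rw [𝒢.mul_inv, 𝒢.inv_mul, 𝒢.r_inv]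

theorem inv_unit (x : X) : 𝒢.inv (𝒢.unit x) = 𝒢.unit x := by
  have h1 := 𝒢.mul_inv (𝒢.unit x)
  have h2 := 𝒢.unit_mul (𝒢.inv (𝒢.unit x))
  rw [𝒢.r_inv, 𝒢.s_unit] at h2
  rw [h2, 𝒢.r_unit] at h1
  exact h1

/-- an arrow `g` with `g h = h` for some `h` is a unit -/
theorem eq_unit_of_mul_eq {g h : G} (e : 𝒢.s g = 𝒢.r h) (H : 𝒢.mul g h = h) :
    g = 𝒢.unit (𝒢.s g) := by
  have h1 := mul_inv_cancel_right (𝒢 := 𝒢) e
  rw [H, 𝒢.mul_inv, ← e] at h1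
  exact h1.symm

theorem mul_inv_rev {g h : G} (e : 𝒢.s g = 𝒢.r h) :
    𝒢.inv (𝒢.mul g h) = 𝒢.mul (𝒢.inv h) (𝒢.inv g) := by
  have e1 : 𝒢.s (𝒢.inv h) = 𝒢.r (𝒢.inv g) := by rw [𝒢.s_inv, 𝒢.r_inv, e]
  apply mul_left_cancel (𝒢 := 𝒢) (g := 𝒢.mul g h)
  · rw [𝒢.r_inv]
  · rw [𝒢.s_mul _ _ e, 𝒢.r_mul _ _ e1, 𝒢.r_inv]
  · rw [𝒢.mul_inv, 𝒢.r_mul _ _ e, ← 𝒢.mul_assoc _ _ _ _ e1, mul_inv_cancel_right e, 𝒢.mul_inv]
    rw [𝒢.s_mul _ _ e, 𝒢.r_inv]

theorem mul_mul_inv {g h k : G} (e : 𝒢.s g = 𝒢.s h) (e' : 𝒢.s h = 𝒢.s k) :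
    𝒢.mul (𝒢.mul g (𝒢.inv h)) (𝒢.mul h (𝒢.inv k)) = 𝒢.mul g (𝒢.inv k) := by
  have e1 : 𝒢.s h = 𝒢.r (𝒢.inv k) := by rw [𝒢.r_inv, e']
  have e2 : 𝒢.s g = 𝒢.r (𝒢.inv h) := by rw [𝒢.r_inv, e]
  rw [𝒢.mul_assoc g (𝒢.inv h) _ e2, inv_mul_cancel_left e1]
  rw [𝒢.s_inv, 𝒢.r_mul _ _ e1]

section top

theorem isClosed_units [T2Space G] : IsClosed (Set.range 𝒢.unit) := by
  have : Set.range 𝒢.unit = {g | 𝒢.unit (𝒢.s g) = g} := by
    ext g
    constructor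
    · rintro ⟨x, rfl⟩
      show 𝒢.unit (𝒢.s (𝒢.unit x)) = 𝒢.unit x
      rw [𝒢.s_unit]
    · intro h
      exact ⟨_, h⟩
  rw [this]
  exact isClosed_eq (𝒢.continuous_unit.comp 𝒢.continuous_s) continuous_id

theorem t2_units [T2Space G] (𝒢 : TopGpd X G) : T2Space X :=
  T2Space.of_injective_continuous (f := 𝒢.unit)
    (fun x y h => by rw [← 𝒢.s_unit x, h, 𝒢.s_unit]) 𝒢.continuous_unit

/-- the unit space of an étale groupoid is open in the space of arrows -/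
theorem isOpen_units (h𝒢 : 𝒢.Etale) : IsOpen (Set.range 𝒢.unit) := by
  rw [isOpen_iff_mem_nhds]
  rintro _ ⟨x, rfl⟩
  obtain ⟨e, he, hes⟩ := h𝒢.1 (𝒢.unit x)
  have h1 : e.source ∈ 𝓝 (𝒢.unit x) := e.open_source.mem_nhds he
  have h2 : 𝒢.s ⁻¹' (𝒢.unit ⁻¹' e.source) ∈ 𝓝 (𝒢.unit x) := by
    apply 𝒢.continuous_s.continuousAt.preimage_mem_nhds
    apply 𝒢.continuous_unit.continuousAt.preimage_mem_nhds
    rw [𝒢.s_unit]
    exact h1
  filter_upwards [h1, h2] with g hg1 hg2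
  have h3 : e (𝒢.unit (𝒢.s g)) = e g := by
    rw [← hes]
    exact 𝒢.s_unit _
  exact ⟨𝒢.s g, e.injOn hg2 hg1 h3⟩

theorem locallyCompact_units [LocallyCompactSpace G] (h𝒢 : 𝒢.Etale) : LocallyCompactSpace X := by
  constructor
  intro x n hn
  have h1 : 𝒢.s ⁻¹' n ∈ 𝓝 (𝒢.unit x) := by
    apply 𝒢.continuous_s.continuousAt.preimage_mem_nhds
    rwa [𝒢.s_unit]
  obtain ⟨K, hK, hKn, hKc⟩ := local_compact_nhds h1
  refine ⟨𝒢.s '' K, ?_, Set.image_subset_iff.2 hKn, hKc.image 𝒢.continuous_s⟩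
  have := h𝒢.1.isOpenMap.image_mem_nhds hK
  rwa [𝒢.s_unit] at this

/-- compact sets of arrows meet the source fibres in finite sets of bounded size -/
theorem finite_fibre {f : G → X} (hf : IsLocalHomeomorph f) {C : Set G} (hC : IsCompact C) :
    ∃ N : ℕ, ∀ x, {g ∈ C | f g = x}.Finite ∧ {g ∈ C | f g = x}.ncard ≤ N := by
  classical
  have h1 : ∀ g : G, ∃ U ∈ 𝓝 g, Set.InjOn f U := by
    intro g
    obtain ⟨e, he, hes⟩ := hf g
    refine ⟨e.source, e.open_source.mem_nhds he, ?_⟩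
    rw [hes]
    exact e.injOn
  choose U hU hinj using h1
  obtain ⟨t, ht, htC⟩ := hC.elim_nhds_subcover U (fun g _ => hU g)
  refine ⟨t.card, fun x => ?_⟩
  have h2 : ∀ g ∈ {g ∈ C | f g = x}, ∃ i ∈ t, g ∈ U i := by
    intro g hg
    simpa using htC hg.1
  have h3 : ∃ φ : G → G, ∀ g ∈ {g ∈ C | f g = x}, φ g ∈ t ∧ g ∈ U (φ g) := by
    refine ⟨fun g => if h : g ∈ {g ∈ C | f g = x} then (h2 g h).choose else g, ?_⟩
    intro g hg
    simp only [dif_pos hg]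
    exact (h2 g hg).choose_spec
  obtain ⟨φ, hφ⟩ := h3
  have hinj' : Set.InjOn φ {g ∈ C | f g = x} := by
    intro a ha b hb hab
    have h4 := (hφ a ha).2
    have h5 := (hφ b hb).2
    rw [← hab] at h5
    exact hinj _ h4 h5 (ha.2.trans hb.2.symm)
  have hmaps : Set.MapsTo φ {g ∈ C | f g = x} (t : Set G) := fun g hg => (hφ g hg).1
  have hfin : {g ∈ C | f g = x}.Finite :=
    Set.Finite.of_injOn hmaps hinj' t.finite_toSet
  refine ⟨hfin, ?_⟩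
  rw [← Set.ncard_coe_finset t]
  exact Set.ncard_le_ncard_of_injOn φ hmaps hinj' t.finite_toSet

end top

end TopGpd

/-- A twist over the topological groupoid `𝒢`: a central extension
`X × 𝕋 → S → G` of topological groupoids with unit space `X`. -/
structure Twist {X G : Type u} [TopologicalSpace X] [TopologicalSpace G] (𝒢 : TopGpd X G)
    (S : Type u) [TopologicalSpace S] where
  /-- the groupoid `Σ` -/
  gpd : TopGpd X S
  /-- the inclusion of `X × 𝕋` -/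
  incl : X × Circle → S
  /-- the projection of `Σ` onto `G` -/
  proj : S → G
  s_incl : ∀ p, gpd.s (incl p) = p.1
  r_incl : ∀ p, gpd.r (incl p) = p.1
  incl_mul : ∀ x z w, gpd.mul (incl (x, z)) (incl (x, w)) = incl (x, z * w)
  isEmbedding_incl : IsEmbedding incl
  s_proj : ∀ σ, 𝒢.s (proj σ) = gpd.s σ
  r_proj : ∀ σ, 𝒢.r (proj σ) = gpd.r σ
  proj_mul : ∀ σ τ, gpd.s σ = gpd.r τ → proj (gpd.mul σ τ) = 𝒢.mul (proj σ) (proj τ)
  continuous_proj : Continuous proj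
  isOpenMap_proj : IsOpenMap proj
  surjective_proj : Function.Surjective proj
  ker_proj : ∀ σ, proj σ ∈ Set.range 𝒢.unit ↔ σ ∈ Set.range incl
  central : ∀ σ z, gpd.mul (incl (gpd.r σ, z)) σ = gpd.mul σ (incl (gpd.s σ, z))

namespace Twist

variable {X G S : Type u} [TopologicalSpace X] [TopologicalSpace G] [TopologicalSpace S]
  {𝒢 : TopGpd X G} (tw : Twist 𝒢 S)

/-- The action of the circle group on `Σ`: `z • σ = (r(σ), z) σ`. -/
def act (z : Circle) (σ : S) : S := tw.gpd.mul (tw.incl (tw.gpd.r σ, z)) σ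

theorem act_eq (z : Circle) (σ : S) : tw.act z σ = tw.gpd.mul σ (tw.incl (tw.gpd.s σ, z)) :=
  tw.central σ z

theorem s_act (z : Circle) (σ : S) : tw.gpd.s (tw.act z σ) = tw.gpd.s σ :=
  tw.gpd.s_mul _ _ (by rw [tw.s_incl])

theorem r_act (z : Circle) (σ : S) : tw.gpd.r (tw.act z σ) = tw.gpd.r σ := by
  unfold act
  rw [tw.gpd.r_mul _ _ (by rw [tw.s_incl]), tw.r_incl]

theorem incl_one (x : X) : tw.incl (x, 1) = tw.gpd.unit x := by
  have h1 := tw.incl_mul x 1 1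
  rw [one_mul] at h1
  have h2 := TopGpd.eq_unit_of_mul_eq (𝒢 := tw.gpd) (by rw [tw.s_incl, tw.r_incl]) h1
  rwa [tw.s_incl] at h2

theorem act_one (σ : S) : tw.act 1 σ = σ := by
  unfold act
  rw [tw.incl_one, tw.gpd.unit_mul]

theorem act_mul (z w : Circle) (σ : S) : tw.act (z * w) σ = tw.act z (tw.act w σ) := by
  unfold act
  have h1 : tw.gpd.r (tw.gpd.mul (tw.incl (tw.gpd.r σ, w)) σ) = tw.gpd.r σ := tw.r_act w σ
  rw [h1, ← tw.gpd.mul_assoc _ _ _ (by rw [tw.s_incl, tw.r_incl]) (by rw [tw.s_incl]),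
    tw.incl_mul]

theorem incl_eq_act (x : X) (z : Circle) : tw.incl (x, z) = tw.act z (tw.gpd.unit x) := by
  have h := tw.gpd.mul_unit (tw.incl (x, z))
  unfold act
  rw [tw.s_incl] at h
  rw [tw.gpd.r_unit]
  exact h.symm

theorem proj_unit (x : X) : tw.proj (tw.gpd.unit x) = 𝒢.unit x := by
  have h1 := tw.proj_mul (tw.gpd.unit x) (tw.gpd.unit x) (by rw [tw.gpd.s_unit, tw.gpd.r_unit])
  have h2 := tw.gpd.mul_unit (tw.gpd.unit x)
  rw [tw.gpd.s_unit] at h2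
  rw [h2] at h1
  have h3 := TopGpd.eq_unit_of_mul_eq (𝒢 := 𝒢)
    (by rw [tw.s_proj, tw.r_proj, tw.gpd.s_unit, tw.gpd.r_unit]) h1.symm
  rwa [tw.s_proj, tw.gpd.s_unit] at h3

theorem proj_incl (p : X × Circle) : tw.proj (tw.incl p) = 𝒢.unit p.1 := by
  obtain ⟨x, hx⟩ := (tw.ker_proj (tw.incl p)).2 ⟨p, rfl⟩
  have := tw.s_proj (tw.incl p)
  rw [← hx, 𝒢.s_unit, tw.s_incl] at this
  rw [← hx, this]

theorem proj_act (z : Circle) (σ : S) : tw.proj (tw.act z σ) = tw.proj σ := by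
  unfold act
  rw [tw.proj_mul _ _ (by rw [tw.s_incl]), tw.proj_incl, ← tw.r_proj, 𝒢.unit_mul]

theorem proj_inv (σ : S) : tw.proj (tw.gpd.inv σ) = 𝒢.inv (tw.proj σ) := by
  apply TopGpd.mul_left_cancel (𝒢 := 𝒢) (g := tw.proj σ)
  · rw [tw.s_proj, tw.r_proj, tw.gpd.r_inv]
  · rw [𝒢.r_inv]
  · rw [← tw.proj_mul _ _ (tw.gpd.r_inv σ).symm, tw.gpd.mul_inv, 𝒢.mul_inv, tw.proj_unit, tw.r_proj]

theorem mul_act_left (z : Circle) {σ τ : S} (e : tw.gpd.s σ = tw.gpd.r τ) :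
    tw.gpd.mul (tw.act z σ) τ = tw.act z (tw.gpd.mul σ τ) := by
  unfold act
  rw [tw.gpd.mul_assoc _ _ _ (by rw [tw.s_incl]) e, tw.gpd.r_mul _ _ e]

theorem mul_act_right (z : Circle) {σ τ : S} (e : tw.gpd.s σ = tw.gpd.r τ) :
    tw.gpd.mul σ (tw.act z τ) = tw.act z (tw.gpd.mul σ τ) := by
  have e1 : tw.gpd.s σ = tw.gpd.r (tw.incl (tw.gpd.r τ, z)) := by rw [tw.r_incl, e]
  have h : tw.act z τ = tw.gpd.mul (tw.incl (tw.gpd.r τ, z)) τ := rfl
  rw [h, ← tw.gpd.mul_assoc _ _ _ e1 (by rw [tw.s_incl]), ← e, ← tw.act_eq, tw.mul_act_left z e]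

theorem inv_act (z : Circle) (σ : S) :
    tw.gpd.inv (tw.act z σ) = tw.act z⁻¹ (tw.gpd.inv σ) := by
  apply TopGpd.mul_left_cancel (𝒢 := tw.gpd) (g := tw.act z σ)
  · rw [tw.gpd.r_inv]
  · rw [tw.s_act, tw.r_act, tw.gpd.r_inv]
  · have e : tw.gpd.s σ = tw.gpd.r (tw.gpd.inv σ) := (tw.gpd.r_inv σ).symm
    rw [tw.gpd.mul_inv, tw.mul_act_left z (by rw [tw.r_act, tw.gpd.r_inv]), tw.mul_act_right _ e,
      ← tw.act_mul, mul_inv_cancel, tw.act_one, tw.gpd.mul_inv, tw.r_act]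

theorem exists_act {σ τ : S} (h : tw.proj σ = tw.proj τ) : ∃ z, σ = tw.act z τ := by
  have hs : tw.gpd.s σ = tw.gpd.s τ := by rw [← tw.s_proj, h, tw.s_proj]
  have hr : tw.gpd.r σ = tw.gpd.r τ := by rw [← tw.r_proj, h, tw.r_proj]
  have e : tw.gpd.s σ = tw.gpd.r (tw.gpd.inv τ) := by rw [tw.gpd.r_inv, hs]
  have h1 : tw.proj (tw.gpd.mul σ (tw.gpd.inv τ)) ∈ Set.range 𝒢.unit := by
    rw [tw.proj_mul _ _ e, tw.proj_inv, h, 𝒢.mul_inv]
    exact ⟨_, rfl⟩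
  obtain ⟨⟨x, z⟩, hx⟩ := (tw.ker_proj _).1 h1
  have h2 := tw.r_incl (x, z)
  rw [hx, tw.gpd.r_mul _ _ e, hr] at h2
  refine ⟨z, ?_⟩
  have h3 : x = tw.gpd.r τ := h2.symm
  subst h3
  unfold act
  rw [hx, TopGpd.inv_mul_cancel_right hs]

theorem act_free {z w : Circle} {σ : S} (h : tw.act z σ = tw.act w σ) : z = w := by
  unfold act at h
  have h1 := TopGpd.mul_right_cancel (𝒢 := tw.gpd) (by rw [tw.s_incl]) (by rw [tw.s_incl]) h
  have h2 := tw.isEmbedding_incl.injective h1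
  exact (Prod.ext_iff.1 h2).2

theorem continuous_act : Continuous fun p : Circle × S => tw.act p.1 p.2 := by
  unfold act
  have h1 : Continuous fun p : Circle × S => ((tw.incl (tw.gpd.r p.2, p.1), p.2) : S × S) := by
    refine Continuous.prodMk (tw.isEmbedding_incl.continuous.comp ?_) continuous_snd
    exact Continuous.prodMk (tw.gpd.continuous_r.comp continuous_snd) continuous_fst
  exact tw.gpd.continuous_mul.comp_continuous h1 (fun p => by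
    show tw.gpd.s (tw.incl (tw.gpd.r p.2, p.1)) = tw.gpd.r p.2
    rw [tw.s_incl])

/-- `f` is an element of `C_c(G, Σ)`: a continuous compactly supported function on `Σ` with
`f (z • σ) = conj z * f σ`. -/
structure IsSection (f : S → ℂ) : Prop where
  continuous : Continuous f
  hasCompactSupport : HasCompactSupport f
  equivariant : ∀ (z : Circle) (σ : S), f (tw.act z σ) = (starRingEnd ℂ) (z : ℂ) * f σ

/-- a (set theoretic) section of the projection `Σ → G` -/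
noncomputable def lift (γ : G) : S := Function.surjInv tw.surjective_proj γ

theorem proj_lift (γ : G) : tw.proj (tw.lift γ) = γ := Function.surjInv_eq _ _

theorem s_lift (γ : G) : tw.gpd.s (tw.lift γ) = 𝒢.s γ := by
  rw [← tw.s_proj, tw.proj_lift]

theorem r_lift (γ : G) : tw.gpd.r (tw.lift γ) = 𝒢.r γ := by
  rw [← tw.r_proj, tw.proj_lift]

open Classical in
/-- The matrix entry `⟨δ_γ, λ(f) δ_η⟩` of the regular representation: `f(σ_γ σ_η⁻¹)` if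
`s(γ) = s(η)`, and `0` otherwise. -/
noncomputable def entry (f : S → ℂ) (γ η : G) : ℂ :=
  if 𝒢.s γ = 𝒢.s η then f (tw.gpd.mul (tw.lift γ) (tw.gpd.inv (tw.lift η))) else 0

/-- `T` is the operator `λ(f)` of the regular representation on
`⨁_{x ∈ G⁰} ℓ²(s⁻¹(x)) = ℓ²(G)`: `(T ξ)(γ) = ∑_{η ∈ G, s(η) = s(γ)} f(σ_γ σ_η⁻¹) ξ(η)`. -/
def IsRegular (f : S → ℂ) (T : l2 G →L[ℂ] l2 G) : Prop :=
  ∀ (ξ : l2 G) (γ : G), HasSum (fun η => tw.entry f γ η * ξ η) (T ξ γ)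

/-- The reduced twisted groupoid C*-algebra `C_r^*(G, Σ)`, as a set of operators on `ℓ²(G)`: the
norm closure of the set of all operators `λ(f)`, `f ∈ C_c(G, Σ)`. -/
def reduced : Set (l2 G →L[ℂ] l2 G) :=
  closure {T | ∃ f, tw.IsSection f ∧ tw.IsRegular f T}

end Twist

end Pool.Agent.W657.TG
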