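import Mathlib

/-!
# Operators on `ℓ²`
-/

set_option autoImplicit false

open scoped InnerProduct
open ContinuousLinearMap

namespace Pool.Agent.W657.TG

universe u v

open Classical in
/-- the Hilbert space `ℓ²(X)` -/
noncomputable abbrev l2 (X : Type u) := lp (fun _ : X => ℂ) 2

open Classical in
/-- basis vectors -/
noncomputable def dl {X : Type u} (x : X) : l2 X := lp.single 2 x (1 : ℂ)

section basic

variable {X : Type u} {Y : Type v}

theorem sumsq (f : l2 X) (s : Finset X) : ∑ i ∈ s, ‖f i‖ ^ 2 ≤ ‖f‖ ^ 2 := by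
  have := lp.sum_rpow_le_norm_rpow (p := 2) (by norm_num) f s
  simpa using this

theorem mem2 {f : X → ℂ} (C : ℝ) (h : ∀ s : Finset X, ∑ i ∈ s, ‖f i‖ ^ 2 ≤ C) : Memℓp f 2 := by
  apply memℓp_gen' (C := C)
  intro s
  simpa using h s

theorem norm2_le {f : l2 X} {C : ℝ} (hC : 0 ≤ C)
    (h : ∀ s : Finset X, ∑ i ∈ s, ‖f i‖ ^ 2 ≤ C ^ 2) : ‖f‖ ≤ C := by
  apply lp.norm_le_of_forall_sum_le (p := 2) (by norm_num) hC
  intro s
  simpa using h s

/-- operators from bounded maps -/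
theorem mk_op (F : (l2 X) → Y → ℂ) (hadd : ∀ f g y, F (f + g) y = F f y + F g y)
    (hsmul : ∀ (c : ℂ) f y, F (c • f) y = c * F f y) (C : ℝ) (hC : 0 ≤ C)
    (hb : ∀ f, ∀ s : Finset Y, ∑ y ∈ s, ‖F f y‖ ^ 2 ≤ (C * ‖f‖) ^ 2) :
    ∃ T : l2 X →L[ℂ] l2 Y, ‖T‖ ≤ C ∧ ∀ f y, (T f) y = F f y := by
  refine ⟨LinearMap.mkContinuous
    { toFun := fun f => ⟨F f, mem2 _ (hb f)⟩
      map_add' := fun f g => by
        apply lp.ext; funext y; exact hadd f g y
      map_smul' := fun c f => by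
        apply lp.ext; funext y; exact hsmul c f y } C (by
    intro f
    exact norm2_le (by positivity) (hb f)), ?_, ?_⟩
  · exact LinearMap.mkContinuous_norm_le _ hC _
  · intro f y
    rfl

open Classical in
theorem dl_apply (x y : X) : (dl x : l2 X) y = if y = x then 1 else 0 := by
  split_ifs with h
  · subst h
    exact lp.single_apply_self (E := fun _ : X => ℂ) 2 y (1 : ℂ)
  · exact lp.single_apply_ne (E := fun _ : X => ℂ) 2 x (1 : ℂ) h

theorem dl_self (x : X) : (dl x : l2 X) x = 1 := by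
  rw [dl_apply, if_pos rfl]

theorem dl_ne {x y : X} (h : y ≠ x) : (dl x : l2 X) y = 0 := by
  rw [dl_apply, if_neg h]

theorem inner_dl (y : X) (f : l2 X) : inner ℂ (dl y) f = f y := by
  classical
  unfold dl
  rw [lp.inner_single_left]; simp

theorem inner_dl_right (y : X) (f : l2 X) : inner ℂ f (dl y) = (starRingEnd ℂ) (f y) := by
  classical
  unfold dl
  rw [lp.inner_single_right]; simp

theorem norm_dl (x : X) : ‖(dl x : l2 X)‖ = 1 := by
  classical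
  have := lp.norm_single (E := fun _ : X => ℂ) (p := 2) (by norm_num) x (1 : ℂ)
  unfold dl
  simp

theorem apply_le (f : l2 X) (x : X) : ‖f x‖ ≤ ‖f‖ :=
  lp.norm_apply_le_norm (by norm_num) _ _

theorem entry_le (T : l2 X →L[ℂ] l2 Y) (x : X) (y : Y) : ‖(T (dl x)) y‖ ≤ ‖T‖ := by
  have h1 : ‖(T (dl x)) y‖ ≤ ‖T (dl x)‖ := apply_le _ _
  have h2 := T.le_opNorm (dl x)
  rw [norm_dl, mul_one] at h2
  exact h1.trans h2

theorem adj_entry (T : l2 X →L[ℂ] l2 Y) (x : X) (y : Y) :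
    ((T†) (dl y)) x = (starRingEnd ℂ) ((T (dl x)) y) := by
  rw [← inner_dl x, adjoint_inner_right, inner_dl_right]

/-- the basis vectors span a dense subspace: an operator is determined by its values there -/
theorem hasSum_dl (f : l2 X) : HasSum (fun x => f x • (dl x : l2 X)) f := by
  classical
  have h := lp.hasSum_single (p := 2) (by norm_num) f
  convert h using 2 with x
  unfold dl
  rw [← lp.single_smul]
  simp

theorem op_ext {E : Type*} [NormedAddCommGroup E] [NormedSpace ℂ E] {T T' : l2 X →L[ℂ] E}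
    (h : ∀ x, T (dl x) = T' (dl x)) : T = T' := by
  ext1 f
  have h1 := (hasSum_dl f).mapL T
  have h2 := (hasSum_dl f).mapL T'
  simp only [map_smul, h] at h1 h2
  exact h1.unique h2

theorem apply_hasSum (T : l2 X →L[ℂ] l2 Y) (f : l2 X) (y : Y) :
    HasSum (fun x => f x * (T (dl x)) y) ((T f) y) := by
  have h1 := (hasSum_dl f).mapL T
  have h2 := h1.mapL (innerSL ℂ (dl y : l2 Y))
  simp only [map_smul, innerSL_apply_apply, inner_dl, smul_eq_mul] at h2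
  exact h2

/-- composition operator -/
theorem exists_comp (s : X → Y) (hs : Function.Injective s) :
    ∃ T : l2 Y →L[ℂ] l2 X, ‖T‖ ≤ 1 ∧ ∀ f x, (T f) x = f (s x) := by
  classical
  refine mk_op (fun f x => f (s x)) (fun f g y => rfl) (fun c f y => rfl) 1 (by norm_num) ?_
  intro f F
  rw [one_mul]
  have h := sumsq f (F.image s)
  rw [Finset.sum_image hs.injOn] at h
  exact h

/-- diagonal operator -/
theorem exists_diag (z : X → ℂ) (C : ℝ) (hC : 0 ≤ C) (hz : ∀ x, ‖z x‖ ≤ C) :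
    ∃ T : l2 X →L[ℂ] l2 X, ‖T‖ ≤ C ∧ ∀ f x, (T f) x = z x * f x := by
  refine mk_op (fun f x => z x * f x) (fun f g y => ?_) (fun c f y => ?_) C hC ?_
  · show z y * (f y + g y) = _
    ring
  · show z y * (c * f y) = _
    ring
  · intro f F
    rw [mul_pow]
    calc ∑ i ∈ F, ‖z i * f i‖ ^ 2 ≤ ∑ i ∈ F, C ^ 2 * ‖f i‖ ^ 2 := by
          refine Finset.sum_le_sum fun i _ => ?_
          rw [norm_mul, mul_pow]
          have := hz i
          gcongr
      _ = C ^ 2 * ∑ i ∈ F, ‖f i‖ ^ 2 := by rw [Finset.mul_sum]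
      _ ≤ C ^ 2 * ‖f‖ ^ 2 := by
          have := sumsq f F
          gcongr

/-- kernel operators: the Schur test -/
theorem exists_kernel (B : X → Finset X) (hB : ∀ x y, x ∈ B y → y ∈ B x) (N : ℕ)
    (hN : ∀ x, (B x).card ≤ N) (k : X → X → ℂ) (η : ℝ) (hη : 0 ≤ η) (hk : ∀ x y, ‖k x y‖ ≤ η) :
    ∃ T : l2 X →L[ℂ] l2 X, ‖T‖ ≤ N * η ∧ ∀ f x, (T f) x = ∑ y ∈ B x, k x y * f y := by
  classical
  refine mk_op (fun f x => ∑ y ∈ B x, k x y * f y) (fun f g y => ?_) (fun c f y => ?_) (N * η)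
    (by positivity) ?_
  · rw [← Finset.sum_add_distrib]
    refine Finset.sum_congr rfl fun i _ => ?_
    show k y i * (f i + g i) = _
    ring
  · rw [Finset.mul_sum]
    refine Finset.sum_congr rfl fun i _ => ?_
    show k y i * (c * f i) = _
    ring
  · intro f F
    have h1 : ∀ x, ‖∑ y ∈ B x, k x y * f y‖ ^ 2 ≤ N * η ^ 2 * ∑ y ∈ B x, ‖f y‖ ^ 2 := by
      intro x
      have h2 : ‖∑ y ∈ B x, k x y * f y‖ ≤ ∑ y ∈ B x, η * ‖f y‖ := by
        refine (norm_sum_le _ _).trans (Finset.sum_le_sum fun y _ => ?_)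
        rw [norm_mul]
        exact mul_le_mul_of_nonneg_right (hk x y) (norm_nonneg _)
      rw [← Finset.mul_sum] at h2
      have h3 : (∑ y ∈ B x, ‖f y‖) ^ 2 ≤ (B x).card * ∑ y ∈ B x, ‖f y‖ ^ 2 :=
        sq_sum_le_card_mul_sum_sq
      have h4 : ((B x).card : ℝ) ≤ N := by exact_mod_cast hN x
      have h5 : (0 : ℝ) ≤ ∑ y ∈ B x, ‖f y‖ ^ 2 := Finset.sum_nonneg fun i _ => by positivity
      calc ‖∑ y ∈ B x, k x y * f y‖ ^ 2 ≤ (η * ∑ y ∈ B x, ‖f y‖) ^ 2 :=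
            pow_le_pow_left₀ (norm_nonneg _) h2 2
        _ = η ^ 2 * (∑ y ∈ B x, ‖f y‖) ^ 2 := by ring
        _ ≤ η ^ 2 * ((B x).card * ∑ y ∈ B x, ‖f y‖ ^ 2) := by gcongr
        _ ≤ η ^ 2 * (N * ∑ y ∈ B x, ‖f y‖ ^ 2) := by gcongr
        _ = _ := by ring
    have h2 : ∑ x ∈ F, ∑ y ∈ B x, ‖f y‖ ^ 2 =
        ∑ y ∈ F.biUnion B, ∑ x ∈ F.filter (fun x => y ∈ B x), ‖f y‖ ^ 2 := by
      apply Finset.sum_comm'
      intro x y
      simp only [Finset.mem_filter, Finset.mem_biUnion]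
      constructor
      · rintro ⟨h1, h2⟩
        exact ⟨⟨h1, h2⟩, x, h1, h2⟩
      · rintro ⟨⟨h1, h2⟩, _⟩
        exact ⟨h1, h2⟩
    have h3 : ∑ y ∈ F.biUnion B, ∑ x ∈ F.filter (fun x => y ∈ B x), ‖f y‖ ^ 2 ≤
        ∑ y ∈ F.biUnion B, N * ‖f y‖ ^ 2 := by
      refine Finset.sum_le_sum fun y _ => ?_
      rw [Finset.sum_const, nsmul_eq_mul]
      have h4 : (F.filter (fun x => y ∈ B x)).card ≤ N := by
        refine le_trans (Finset.card_le_card ?_) (hN y)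
        intro x hx
        rw [Finset.mem_filter] at hx
        exact hB _ _ hx.2
      have h5 : ((F.filter (fun x => y ∈ B x)).card : ℝ) ≤ N := by exact_mod_cast h4
      gcongr
    calc ∑ x ∈ F, ‖∑ y ∈ B x, k x y * f y‖ ^ 2
        ≤ ∑ x ∈ F, N * η ^ 2 * ∑ y ∈ B x, ‖f y‖ ^ 2 := Finset.sum_le_sum fun x _ => h1 x
      _ = N * η ^ 2 * ∑ x ∈ F, ∑ y ∈ B x, ‖f y‖ ^ 2 := by rw [Finset.mul_sum]
      _ ≤ N * η ^ 2 * ∑ y ∈ F.biUnion B, N * ‖f y‖ ^ 2 := by
          rw [h2]; gcongr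
      _ = N ^ 2 * η ^ 2 * ∑ y ∈ F.biUnion B, ‖f y‖ ^ 2 := by
          rw [← Finset.mul_sum]; ring
      _ ≤ N ^ 2 * η ^ 2 * ‖f‖ ^ 2 := by gcongr; exact sumsq f _
      _ = _ := by ring

theorem kernel_entry {B : X → Finset X} {k : X → X → ℂ} {T : l2 X →L[ℂ] l2 X}
    (hT : ∀ f x, (T f) x = ∑ y ∈ B x, k x y * f y) (x y : X) (h : y ∉ B x → k x y = 0) :
    (T (dl y)) x = k x y := by
  classical
  rw [hT]
  simp only [dl_apply]
  simp only [mul_ite, mul_one, mul_zero]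
  rw [Finset.sum_ite_eq']
  split_ifs with h1
  · rfl
  · exact (h h1).symm

end basic

end Pool.Agent.W657.TG
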