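import Pool.Agent.W657.TG.Lp

/-!
# The C*-algebra generated by `S - 1`, where `S` is the unilateral shift
-/

set_option autoImplicit false

open Topology Filter InnerProductSpace
open scoped InnerProduct

namespace Pool.Agent.W657.TG.WH

/-- the Hilbert space `ℓ²(ℕ)` -/
noncomputable abbrev H := l2 ℕ

theorem exists_back : ∃ T : H →L[ℂ] H, ‖T‖ ≤ 1 ∧ ∀ f n, (T f) n = f (n + 1) :=
  exists_comp (fun n : ℕ => n + 1) (fun a b h => by simpa using h)

/-- the backward shift -/
noncomputable def back : H →L[ℂ] H := exists_back.choose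

theorem back_apply (f : H) (n : ℕ) : (back f) n = f (n + 1) := exists_back.choose_spec.2 f n

/-- the unilateral shift `S` on `ℓ²(ℕ)`, defined as the adjoint of the backward shift -/
noncomputable def shift : H →L[ℂ] H := star back

theorem star_shift : star shift = back := star_star _

theorem back_dl_succ (n : ℕ) : back (dl (n + 1)) = dl n := by
  apply lp.ext
  funext m
  rw [back_apply, dl_apply, dl_apply]
  simp

theorem back_dl_zero : back (dl 0) = 0 := by
  apply lp.ext
  funext m
  rw [back_apply, dl_apply]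
  simp

theorem shift_succ (f : H) (n : ℕ) : (shift f) (n + 1) = f n := by
  unfold shift
  rw [← inner_dl, ContinuousLinearMap.star_eq_adjoint, ContinuousLinearMap.adjoint_inner_right,
    back_dl_succ, inner_dl]

theorem shift_zero (f : H) : (shift f) 0 = 0 := by
  unfold shift
  rw [← inner_dl, ContinuousLinearMap.star_eq_adjoint, ContinuousLinearMap.adjoint_inner_right,
    back_dl_zero, inner_zero_left]

theorem back_shift : back * shift = 1 := by
  ext f n
  show (back (shift f)) n = f n
  rw [back_apply, shift_succ]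

theorem shift_dl (n : ℕ) : shift (dl n) = dl (n + 1) := by
  apply lp.ext
  funext m
  cases m with
  | zero => rw [shift_zero, dl_apply]; simp
  | succ m => rw [shift_succ, dl_apply, dl_apply]; simp

theorem norm_shift (f : H) : ‖shift f‖ = ‖f‖ := by
  have h1 : inner ℂ (shift f) (shift f) = inner ℂ f f := by
    conv_lhs => rw [show shift = star back from rfl]
    rw [ContinuousLinearMap.star_eq_adjoint, ContinuousLinearMap.adjoint_inner_left]
    have : back ((star back) f) = f := by
      have := congrArg (fun T : H →L[ℂ] H => T f) back_shift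
      exact this
    rw [← ContinuousLinearMap.star_eq_adjoint, this]
  rw [inner_self_eq_norm_sq_to_K, inner_self_eq_norm_sq_to_K] at h1
  have h2 : ‖shift f‖ ^ 2 = ‖f‖ ^ 2 := by exact_mod_cast h1
  exact (pow_left_inj₀ (norm_nonneg _) (norm_nonneg _) (by norm_num)).1 h2

theorem one_sub_shift_back : 1 - shift * back = rankOne ℂ (dl 0 : H) (dl 0) := by
  ext f n
  rw [rankOne_apply, inner_dl]
  show f n - (shift (back f)) n = f 0 * (dl 0 : H) n
  cases n with
  | zero => rw [shift_zero, dl_self]; simp
  | succ n => rw [shift_succ, back_apply, dl_ne (Nat.succ_ne_zero n)]; simp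

/-- the generator `S - 1` -/
noncomputable def N : H →L[ℂ] H := shift - 1

theorem star_N : star N = back - 1 := by
  unfold N
  rw [star_sub, star_shift, star_one]

/-- The (non-unital) C*-algebra of operators on `ℓ²(ℕ)` generated by `S - 1`. -/
noncomputable def A : NonUnitalStarSubalgebra ℂ (H →L[ℂ] H) :=
  NonUnitalStarAlgebra.elemental ℂ (shift - 1)

theorem N_mem : N ∈ A := NonUnitalStarAlgebra.elemental.self_mem ℂ _

theorem isClosed_A : IsClosed (A : Set (H →L[ℂ] H)) := NonUnitalStarAlgebra.elemental.isClosed ℂ _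

theorem A_le {T : NonUnitalStarSubalgebra ℂ (H →L[ℂ] H)} (hT : IsClosed (T : Set (H →L[ℂ] H)))
    (h : N ∈ T) : A ≤ T :=
  NonUnitalStarAlgebra.elemental.le_of_mem hT h

noncomputable instance : NonUnitalCStarAlgebra A :=
  NonUnitalStarSubalgebra.nonUnitalCStarAlgebra A (h_closed := isClosed_A)

/-! ### Rank one operators -/

theorem rankOne_zero_mem : rankOne ℂ (dl 0 : H) (dl 0) ∈ A := by
  have h : rankOne ℂ (dl 0 : H) (dl 0) = -(N * star N + N + star N) := by
    rw [← one_sub_shift_back, star_N]
    unfold N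
    noncomm_ring
  rw [h]
  exact neg_mem (add_mem (add_mem (mul_mem N_mem (star_mem N_mem)) N_mem) (star_mem N_mem))

theorem rankOne_dl_zero_mem (n : ℕ) : rankOne ℂ (dl n : H) (dl 0) ∈ A := by
  induction n with
  | zero => exact rankOne_zero_mem
  | succ n ih =>
    have h : rankOne ℂ (dl (n + 1) : H) (dl 0) =
        N * rankOne ℂ (dl n : H) (dl 0) + rankOne ℂ (dl n : H) (dl 0) := by
      have h1 : N * rankOne ℂ (dl n : H) (dl 0) = rankOne ℂ (N (dl n) : H) (dl 0) :=
        comp_rankOne _ _ _
      rw [h1]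
      have h2 : N (dl n : H) = dl (n + 1) - dl n := by
        show shift (dl n) - dl n = _
        rw [shift_dl]
      rw [h2, map_sub, sub_apply]
      abel
    rw [h]
    exact add_mem (mul_mem N_mem ih) ih

theorem star_rankOne (x y : H) : star (rankOne ℂ x y) = rankOne ℂ y x := by
  rw [ContinuousLinearMap.star_eq_adjoint, adjoint_rankOne]

theorem mul_rankOne (T : H →L[ℂ] H) (x y : H) : T * rankOne ℂ x y = rankOne ℂ (T x) y :=
  comp_rankOne _ _ _

theorem rankOne_mul (T : H →L[ℂ] H) (x y : H) : rankOne ℂ x y * T = rankOne ℂ x (star T y) := by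
  have h := mul_rankOne (star T) y x
  have h2 := congrArg star h
  rw [star_mul, star_rankOne, star_rankOne, star_star] at h2
  exact h2

theorem rankOne_mul_rankOne (x y z w : H) :
    rankOne ℂ x y * rankOne ℂ z w = (inner ℂ y z) • rankOne ℂ x w := by
  rw [mul_rankOne, rankOne_apply, map_smul]
  rfl

theorem rankOne_dl_mem (m n : ℕ) : rankOne ℂ (dl m : H) (dl n) ∈ A := by
  have h1 := rankOne_dl_zero_mem m
  have h2 := star_mem (rankOne_dl_zero_mem n)
  rw [star_rankOne] at h2
  have h3 := mul_mem h1 h2
  rw [rankOne_mul_rankOne, inner_dl, dl_self, one_smul] at h3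
  exact h3

theorem rankOne_mem_aux (x : H) (n : ℕ) : rankOne ℂ x (dl n) ∈ A := by
  have h1 := (hasSum_dl x).mapL (rankOne ℂ : H →L[ℂ] H →L⋆[ℂ] H →L[ℂ] H)
  have h2 : HasSum (fun k => (x k) • rankOne ℂ (dl k : H) (dl n)) (rankOne ℂ x (dl n)) := by
    have hev : Continuous fun T : H →L⋆[ℂ] H →L[ℂ] H => T (dl n) := by fun_prop
    have h3 := h1.map (AddMonoidHom.mk' (fun T : H →L⋆[ℂ] H →L[ℂ] H => T (dl n))
      (fun a b => rfl)) hev
    have h4 : (fun k => (x k) • rankOne ℂ (dl k : H) (dl n)) =
        (AddMonoidHom.mk' (fun T : H →L⋆[ℂ] H →L[ℂ] H => T (dl n)) (fun a b => rfl)) ∘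
          fun k => (rankOne ℂ : H →L[ℂ] H →L⋆[ℂ] H →L[ℂ] H) (x k • dl k) := by
      funext k
      simp
    rw [h4]
    exact h3
  refine isClosed_A.mem_of_tendsto h2 (Eventually.of_forall fun s => ?_)
  exact sum_mem fun k _ => (SMulMemClass.smul_mem _ (rankOne_dl_mem k n))

theorem rankOne_mem (x y : H) : rankOne ℂ x y ∈ A := by
  have h4 : ∀ n, rankOne ℂ (dl n) x ∈ A ∧ rankOne ℂ (dl n) y ∈ A := by
    intro n
    have h1 := star_mem (rankOne_mem_aux x n)
    have h2 := star_mem (rankOne_mem_aux y n)
    rw [star_rankOne] at h1 h2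
    exact ⟨h1, h2⟩
  have h5 := mul_mem (rankOne_mem_aux x 0) (h4 0).2
  rw [rankOne_mul_rankOne, inner_dl, dl_self, one_smul] at h5
  exact h5

/-! ### Compact operators and commutators -/

/-- the closed ideal of `B(H)` spanned by the rank one operators (the compact operators) -/
noncomputable def K : Submodule ℂ (H →L[ℂ] H) :=
  (Submodule.span ℂ {T | ∃ x y : H, T = rankOne ℂ x y}).topologicalClosure

theorem isClosed_K : IsClosed (K : Set (H →L[ℂ] H)) := Submodule.isClosed_topologicalClosure _

theorem rankOne_mem_K (x y : H) : rankOne ℂ x y ∈ K :=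
  Submodule.le_topologicalClosure _ (Submodule.subset_span ⟨x, y, rfl⟩)

theorem K_le {L : Submodule ℂ (H →L[ℂ] H)} (hL : IsClosed (L : Set (H →L[ℂ] H)))
    (h : ∀ x y, rankOne ℂ x y ∈ L) : K ≤ L := by
  apply Submodule.topologicalClosure_minimal _ _ hL
  rw [Submodule.span_le]
  rintro _ ⟨x, y, rfl⟩
  exact h x y

theorem mul_mem_K (T : H →L[ℂ] H) {k : H →L[ℂ] H} (hk : k ∈ K) : T * k ∈ K := by
  have h : K ≤ K.comap (LinearMap.mulLeft ℂ T) := by
    apply K_le
    · exact isClosed_K.preimage (continuous_const.mul continuous_id)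
    · intro x y
      show T * rankOne ℂ x y ∈ K
      rw [mul_rankOne]
      exact rankOne_mem_K _ _
  exact h hk

theorem mem_K_mul {k : H →L[ℂ] H} (hk : k ∈ K) (T : H →L[ℂ] H) : k * T ∈ K := by
  have h : K ≤ K.comap (LinearMap.mulRight ℂ T) := by
    apply K_le
    · exact isClosed_K.preimage (continuous_id.mul continuous_const)
    · intro x y
      show rankOne ℂ x y * T ∈ K
      rw [rankOne_mul]
      exact rankOne_mem_K _ _
  exact h hk

theorem star_mem_K {k : H →L[ℂ] H} (hk : k ∈ K) : star k ∈ K := by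
  have h1 : K ≤ Submodule.topologicalClosure K := Submodule.le_topologicalClosure _
  have h2 : star k ∈ closure (Submodule.span ℂ {T | ∃ x y : H, T = rankOne ℂ x y} :
      Set (H →L[ℂ] H)) := by
    refine map_mem_closure continuous_star hk ?_
    intro T hT
    refine Submodule.span_induction (p := fun T _ =>
      star T ∈ (Submodule.span ℂ {T | ∃ x y : H, T = rankOne ℂ x y} : Set (H →L[ℂ] H)))
      ?_ ?_ ?_ ?_ hT
    · rintro _ ⟨x, y, rfl⟩
      rw [star_rankOne]
      exact Submodule.subset_span ⟨y, x, rfl⟩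
    · rw [star_zero]
      exact Submodule.zero_mem _
    · intro a b _ _ ha hb
      rw [star_add]
      exact Submodule.add_mem _ ha hb
    · intro c a _ ha
      rw [star_smul]
      exact Submodule.smul_mem _ _ ha
  exact h2

/-- the operators commuting with `T` and `T*` modulo the compact operators -/
noncomputable def essComm (T : H →L[ℂ] H) : NonUnitalStarSubalgebra ℂ (H →L[ℂ] H) where
  carrier := {a | a * T - T * a ∈ K ∧ a * star T - star T * a ∈ K}
  add_mem' := by
    rintro a b ⟨h1, h2⟩ ⟨h3, h4⟩
    refine ⟨?_, ?_⟩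
    · have := K.add_mem h1 h3
      convert this using 1
      noncomm_ring
    · have := K.add_mem h2 h4
      convert this using 1
      noncomm_ring
  zero_mem' := by
    refine ⟨?_, ?_⟩ <;> simp
  mul_mem' := by
    rintro a b ⟨h1, h2⟩ ⟨h3, h4⟩
    refine ⟨?_, ?_⟩
    · have := K.add_mem (mul_mem_K a h3) (mem_K_mul h1 b)
      convert this using 1
      noncomm_ring
    · have := K.add_mem (mul_mem_K a h4) (mem_K_mul h2 b)
      convert this using 1
      noncomm_ring
  smul_mem' := by
    rintro c a ⟨h1, h2⟩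
    refine ⟨?_, ?_⟩
    · have := K.smul_mem c h1
      rwa [smul_sub, ← smul_mul_assoc, ← mul_smul_comm] at this
    · have := K.smul_mem c h2
      rwa [smul_sub, ← smul_mul_assoc, ← mul_smul_comm] at this
  star_mem' := by
    rintro a ⟨h1, h2⟩
    refine ⟨?_, ?_⟩
    · have := K.neg_mem (star_mem_K h2)
      simpa using this
    · have := K.neg_mem (star_mem_K h1)
      simpa using this

theorem mem_essComm {T a : H →L[ℂ] H} :
    a ∈ essComm T ↔ a * T - T * a ∈ K ∧ a * star T - star T * a ∈ K := Iff.rfl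

theorem isClosed_essComm (T : H →L[ℂ] H) : IsClosed (essComm T : Set (H →L[ℂ] H)) := by
  have h1 : IsClosed {a : H →L[ℂ] H | a * T - T * a ∈ K} := by
    refine isClosed_K.preimage (f := fun a : H →L[ℂ] H => a * T - T * a) ?_
    exact (continuous_id.mul continuous_const).sub (continuous_const.mul continuous_id)
  have h2 : IsClosed {a : H →L[ℂ] H | a * star T - star T * a ∈ K} := by
    refine isClosed_K.preimage (f := fun a : H →L[ℂ] H => a * star T - star T * a) ?_
    exact (continuous_id.mul continuous_const).sub (continuous_const.mul continuous_id)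
  exact h1.inter h2

theorem N_mem_essComm_N : N ∈ essComm N := by
  rw [mem_essComm]
  refine ⟨by simp, ?_⟩
  have h : N * star N - star N * N = -rankOne ℂ (dl 0 : H) (dl 0) := by
    rw [← one_sub_shift_back, star_N]
    unfold N
    have := back_shift
    have h2 : (shift - 1) * (back - 1) - (back - 1) * (shift - 1) =
      shift * back - back * shift := by noncomm_ring
    rw [h2, this]
    abel
  rw [h]
  exact K.neg_mem (rankOne_mem_K _ _)

/-- commutators of elements of `A` are compact -/
theorem commutator_mem {a b : H →L[ℂ] H} (ha : a ∈ A) (hb : b ∈ A) : a * b - b * a ∈ K := by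
  have h1 : ∀ a ∈ A, a ∈ essComm N := fun a ha => A_le (isClosed_essComm N) N_mem_essComm_N ha
  have h2 : N ∈ essComm a := by
    rw [mem_essComm]
    refine ⟨?_, ?_⟩
    · have := K.neg_mem (h1 a ha).1
      rwa [neg_sub] at this
    · have := K.neg_mem (h1 (star a) (star_mem ha)).1
      rwa [neg_sub] at this
  have h3 : b ∈ essComm a := A_le (isClosed_essComm a) h2 hb
  have := K.neg_mem h3.1
  rwa [neg_sub] at this

/-! ### Separability -/

theorem countable_subsemigroup {M : Type*} [Semigroup M] {s : Set M} (hs : s.Countable) :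
    (Subsemigroup.closure s : Set M).Countable := by
  have h : (Subsemigroup.closure s : Set M) ⊆
      ⋃ n : ℕ, Nat.rec (motive := fun _ => Set M) s (fun _ t => t ∪ Set.image2 (· * ·) t t) n := by
    set u : ℕ → Set M := fun n =>
      Nat.rec (motive := fun _ => Set M) s (fun _ t => t ∪ Set.image2 (· * ·) t t) n with hu
    have hmono : Monotone u := by
      apply monotone_nat_of_le_succ
      intro n
      exact Set.subset_union_left
    let T : Subsemigroup M :=
      { carrier := ⋃ n, u n
        mul_mem' := by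
          intro a b ha hb
          rw [Set.mem_iUnion] at ha hb ⊢
          obtain ⟨i, hi⟩ := ha
          obtain ⟨j, hj⟩ := hb
          refine ⟨max i j + 1, Or.inr ⟨a, hmono (le_max_left i j) hi, b,
            hmono (le_max_right i j) hj, rfl⟩⟩ }
    have : Subsemigroup.closure s ≤ T := by
      rw [Subsemigroup.closure_le]
      intro x hx
      exact Set.mem_iUnion.2 ⟨0, hx⟩
    exact this
  refine Set.Countable.mono h (Set.countable_iUnion fun n => ?_)
  induction n with
  | zero => exact hs
  | succ n ih => exact ih.union (ih.image2 ih _)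

instance : TopologicalSpace.SeparableSpace A := by
  have h1 : TopologicalSpace.IsSeparable (A : Set (H →L[ℂ] H)) := by
    have h2 : (A : Set (H →L[ℂ] H)) =
        closure (NonUnitalStarAlgebra.adjoin ℂ {shift - 1} : Set (H →L[ℂ] H)) := rfl
    rw [h2]
    apply TopologicalSpace.IsSeparable.closure
    have h3 := NonUnitalStarAlgebra.adjoin_eq_span (R := ℂ) ({shift - 1} : Set (H →L[ℂ] H))
    have h4 : (NonUnitalStarAlgebra.adjoin ℂ {shift - 1} : Set (H →L[ℂ] H)) =
        (Submodule.span ℂ (Subsemigroup.closure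
          (({shift - 1} : Set (H →L[ℂ] H)) ∪ star {shift - 1}) : Set (H →L[ℂ] H)) :
          Set (H →L[ℂ] H)) := by
      rw [← h3]
      rfl
    rw [h4]
    apply TopologicalSpace.IsSeparable.span
    apply Set.Countable.isSeparable
    apply countable_subsemigroup
    rw [Set.star_singleton]
    exact (Set.countable_singleton _).union (Set.countable_singleton _)
  exact h1.separableSpace

/-- induction principle for closed properties of elements of `A` -/
theorem induction_A {p : A → Prop} (hN : p ⟨N, N_mem⟩) (hadd : ∀ a b, p a → p b → p (a + b))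
    (hsmul : ∀ (c : ℂ) a, p a → p (c • a)) (hmul : ∀ a b, p a → p b → p (a * b))
    (hstar : ∀ a, p a → p (star a)) (hcl : IsClosed {a | p a}) (a : A) : p a := by
  have h0 : p 0 := by
    have := hsmul 0 _ hN
    rwa [zero_smul] at this
  let T : NonUnitalStarSubalgebra ℂ (H →L[ℂ] H) :=
    { carrier := {x | ∃ h : x ∈ A, p ⟨x, h⟩}
      add_mem' := by
        rintro x y ⟨hx, hx'⟩ ⟨hy, hy'⟩
        exact ⟨add_mem hx hy, hadd _ _ hx' hy'⟩
      zero_mem' := ⟨zero_mem _, h0⟩
      mul_mem' := by
        rintro x y ⟨hx, hx'⟩ ⟨hy, hy'⟩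
        exact ⟨mul_mem hx hy, hmul _ _ hx' hy'⟩
      smul_mem' := by
        rintro c x ⟨hx, hx'⟩
        have h6 : (c • (⟨x, hx⟩ : A)) = ⟨c • x, SMulMemClass.smul_mem c hx⟩ := Subtype.ext rfl
        have h7 := hsmul c ⟨x, hx⟩ hx'
        rw [h6] at h7
        exact ⟨SMulMemClass.smul_mem c hx, h7⟩
      star_mem' := by
        rintro x ⟨hx, hx'⟩
        have h5 : star x ∈ A := A.star_mem' hx
        have h6 : star (⟨x, hx⟩ : A) = ⟨star x, h5⟩ := Subtype.ext rfl
        have h7 := hstar ⟨x, hx⟩ hx'
        rw [h6] at h7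
        exact ⟨h5, h7⟩ }
  have hT : (T : Set (H →L[ℂ] H)) = Subtype.val '' {a : A | p a} := by
    ext x
    constructor
    · rintro ⟨hx, hx'⟩
      exact ⟨⟨x, hx⟩, hx', rfl⟩
    · rintro ⟨⟨y, hy⟩, hy', rfl⟩
      exact ⟨hy, hy'⟩
  have hTc : IsClosed (T : Set (H →L[ℂ] H)) := by
    rw [hT]
    exact isClosed_A.isClosedEmbedding_subtypeVal.isClosedMap _ hcl
  have hNT : N ∈ T := ⟨N_mem, hN⟩
  have h : A ≤ T := A_le hTc hNT
  have h5 : ∃ h : (a : H →L[ℂ] H) ∈ A, p ⟨a, h⟩ := h a.2
  obtain ⟨h1, h2⟩ := h5
  exact h2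

end Pool.Agent.W657.TG.WH
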