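import Pool.Agent.W657.TG.Bump
import Pool.Agent.W657.TG.WH

/-!
# Suppose that the C*-algebra generated by `S - 1` is a twisted groupoid C*-algebra: the joint
eigenspaces of the diagonal subalgebra
-/

set_option autoImplicit false

open Topology Filter InnerProductSpace
open scoped InnerProduct

namespace Pool.Agent.W657.TG

universe u

open WH

variable {X G S : Type u} [TopologicalSpace X] [TopologicalSpace G] [TopologicalSpace S]
  {𝒢 : TopGpd X G}

/-- an isomorphism of `A` with the reduced twisted groupoid C*-algebra -/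
structure Iso (tw : Twist 𝒢 S) where
  φ : A →⋆ₙₐ[ℂ] (l2 G →L[ℂ] l2 G)
  inj : Function.Injective φ
  range : Set.range φ = tw.reduced

/-- rank one operators as elements of `A` -/
noncomputable def R (x y : H) : A := ⟨rankOne ℂ x y, rankOne_mem x y⟩

theorem R_coe (x y : H) : ((R x y : A) : H →L[ℂ] H) = rankOne ℂ x y := rfl

theorem R_add (x x' y : H) : R (x + x') y = R x y + R x' y := by
  apply Subtype.ext
  show rankOne ℂ (x + x') y = rankOne ℂ x y + rankOne ℂ x' y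
  rw [map_add]
  rfl

theorem R_smul (c : ℂ) (x y : H) : R (c • x) y = c • R x y := by
  apply Subtype.ext
  show rankOne ℂ (c • x) y = c • rankOne ℂ x y
  rw [map_smul]
  rfl

theorem mul_R (a : A) (x y : H) : a * R x y = R ((a : H →L[ℂ] H) x) y := by
  apply Subtype.ext
  exact mul_rankOne _ _ _

theorem R_mul_R (x y z w : H) : R x y * R z w = (inner ℂ y z) • R x w := by
  apply Subtype.ext
  exact rankOne_mul_rankOne _ _ _ _

theorem star_R (x y : H) : star (R x y) = R y x := by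
  apply Subtype.ext
  exact star_rankOne _ _

theorem norm_R (x y : H) : ‖R x y‖ = ‖x‖ * ‖y‖ := by
  show ‖rankOne ℂ x y‖ = _
  rw [norm_rankOne]

theorem star_inner {E : Type*} [NormedAddCommGroup E] [InnerProductSpace ℂ E] [CompleteSpace E]
    (T : E →L[ℂ] E) (x y : E) : inner ℂ (star T x) y = inner ℂ x (T y) := by
  rw [ContinuousLinearMap.star_eq_adjoint, ContinuousLinearMap.adjoint_inner_left]

theorem inner_star {E : Type*} [NormedAddCommGroup E] [InnerProductSpace ℂ E] [CompleteSpace E]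
    (T : E →L[ℂ] E) (x y : E) : inner ℂ x (star T y) = inner ℂ (T x) y := by
  rw [ContinuousLinearMap.star_eq_adjoint, ContinuousLinearMap.adjoint_inner_right]

namespace Iso

variable {tw : Twist 𝒢 S} (I : Iso tw)

theorem isometry : Isometry I.φ := NonUnitalStarAlgHom.isometry I.φ I.inj

theorem norm_φ (a : A) : ‖I.φ a‖ = ‖a‖ := by
  have h := I.isometry.norm_map_of_map_zero (map_zero I.φ) a
  exact h

theorem mem (a : A) : I.φ a ∈ tw.reduced := by
  rw [← I.range]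
  exact ⟨a, rfl⟩

theorem exists_fun (a : A) : ∃ F, tw.HasFun F (I.φ a) := Twist.HasFun.of_mem (I.mem a)

/-- `a` corresponds to the multiplication by `d ∘ r`, `d ∈ C_c(G⁰)` -/
structure IsMult (a : A) (d : X → ℂ) : Prop where
  continuous : Continuous d
  hasCompactSupport : HasCompactSupport d
  apply : ∀ ξ γ, (I.φ a ξ) γ = d (𝒢.r γ) * ξ γ

theorem exists_isMult [T2Space G] [T2Space S] (h𝒢 : 𝒢.Etale) {d : X → ℂ} (hd : Continuous d)
    (hdc : HasCompactSupport d) : ∃ a, I.IsMult a d := by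
  obtain ⟨T, hT, hT'⟩ := Twist.exists_mult (tw := tw) h𝒢 hd hdc
  rw [← I.range] at hT
  obtain ⟨a, rfl⟩ := hT
  exact ⟨a, hd, hdc, hT'⟩

variable {I}

theorem IsMult.apply_dl {a : A} {d : X → ℂ} (h : I.IsMult a d) (γ : G) :
    I.φ a (dl γ) = d (𝒢.r γ) • dl γ := by
  apply lp.ext
  funext η
  rw [h.apply]
  show _ = d (𝒢.r γ) * (dl γ : l2 G) η
  by_cases hη : η = γ
  · rw [hη]
  · rw [dl_ne hη, mul_zero, mul_zero]

theorem IsMult.star {a : A} {d : X → ℂ} (h : I.IsMult a d) :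
    I.IsMult (star a) (fun x => (starRingEnd ℂ) (d x)) := by
  refine ⟨Complex.continuous_conj.comp h.continuous, ?_, ?_⟩
  · exact h.hasCompactSupport.comp_left (map_zero _)
  · intro ξ γ
    rw [← inner_dl, map_star, inner_star, h.apply_dl, inner_smul_left, inner_dl]

theorem IsMult.mul {a b : A} {d e : X → ℂ} (h : I.IsMult a d) (h' : I.IsMult b e) :
    I.IsMult (a * b) (fun x => d x * e x) := by
  refine ⟨h.continuous.mul h'.continuous, ?_, ?_⟩
  · exact h.hasCompactSupport.mul_right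
  · intro ξ γ
    rw [map_mul]
    show (I.φ a (I.φ b ξ)) γ = _
    rw [h.apply, h'.apply, mul_assoc]

theorem IsMult.ext {a b : A} {d : X → ℂ} (h : I.IsMult a d) (h' : I.IsMult b d) : a = b := by
  apply I.inj
  ext ξ γ
  rw [h.apply, h'.apply]

theorem IsMult.smul {a : A} {d : X → ℂ} (h : I.IsMult a d) (c : ℂ) :
    I.IsMult (c • a) (fun x => c * d x) := by
  refine ⟨continuous_const.mul h.continuous, ?_, ?_⟩
  · exact h.hasCompactSupport.mul_left
  · intro ξ γ
    rw [map_smul]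
    show c * (I.φ a ξ) γ = _
    rw [h.apply, mul_assoc]

variable (I)

/-- joint eigenspaces of the diagonal -/
def Eig (z : X) : Submodule ℂ H where
  carrier := {v | ∀ a d, I.IsMult a d → (a : H →L[ℂ] H) v = d z • v}
  add_mem' := by
    intro v w hv hw a d h
    rw [map_add, hv a d h, hw a d h, smul_add]
  zero_mem' := by
    intro a d _
    rw [map_zero, smul_zero]
  smul_mem' := by
    intro c v hv a d h
    rw [map_smul, hv a d h, smul_comm]

variable {I}

theorem mem_Eig {z : X} {v : H} :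
    v ∈ I.Eig z ↔ ∀ a d, I.IsMult a d → (a : H →L[ℂ] H) v = d z • v := Iff.rfl

/-- the operator `V ξ = φ(|ξ⟩⟨η|) δ_x` -/
theorem exists_V (I : Iso tw) (x : X) (η : H) :
    ∃ V : H →L[ℂ] l2 G, ∀ ξ, V ξ = I.φ (R ξ η) (dl (𝒢.unit x)) := by
  refine ⟨LinearMap.mkContinuous
    { toFun := fun ξ => I.φ (R ξ η) (dl (𝒢.unit x))
      map_add' := fun ξ ξ' => by
        rw [R_add, map_add]; rfl
      map_smul' := fun c ξ => by
        rw [R_smul, map_smul]; rfl } ‖η‖ ?_, fun ξ => rfl⟩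
  intro ξ
  show ‖I.φ (R ξ η) (dl (𝒢.unit x))‖ ≤ ‖η‖ * ‖ξ‖
  have h := (I.φ (R ξ η)).le_opNorm (dl (𝒢.unit x))
  rw [norm_dl, mul_one, I.norm_φ, norm_R, mul_comm] at h
  exact h

theorem exists_eig {x : X} {η : H} {V : H →L[ℂ] l2 G}
    (hV : ∀ ξ, V ξ = I.φ (R ξ η) (dl (𝒢.unit x))) (γ : G) :
    ∃ v ∈ I.Eig (𝒢.r γ), ∀ ξ, (V ξ) γ = inner ℂ v ξ := by
  refine ⟨(ContinuousLinearMap.adjoint V) (dl γ), ?_, ?_⟩
  · intro a d h
    apply ext_inner_right ℂ
    intro ξ
    have h1 : inner ℂ ((a : H →L[ℂ] H) ((ContinuousLinearMap.adjoint V) (dl γ))) ξ =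
        inner ℂ ((ContinuousLinearMap.adjoint V) (dl γ)) (((star a : A) : H →L[ℂ] H) ξ) := by
      show _ = inner ℂ _ ((star (a : H →L[ℂ] H)) ξ)
      rw [inner_star]
    rw [h1, ContinuousLinearMap.adjoint_inner_left, inner_smul_left,
      ContinuousLinearMap.adjoint_inner_left, inner_dl, inner_dl, hV, ← mul_R, map_mul]
    show (I.φ (star a) (I.φ (R ξ η) (dl (𝒢.unit x)))) γ = _
    rw [h.star.apply, ← hV]
  · intro ξ
    rw [ContinuousLinearMap.adjoint_inner_left, inner_dl]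

/-- Step A: there is a nonzero joint eigenvector. -/
theorem exists_eig_of_ne {x : X} {ξ η : H} (h : I.φ (R ξ η) (dl (𝒢.unit x)) ≠ 0) :
    ∃ γ, 𝒢.s γ = x ∧ ∃ v ∈ I.Eig (𝒢.r γ), v ≠ 0 := by
  obtain ⟨V, hV⟩ := exists_V I x η
  have h1 : ∃ γ, (V ξ) γ ≠ 0 := by
    by_contra hcon
    push Not at hcon
    apply h
    rw [← hV]
    apply lp.ext
    funext γ
    exact hcon γ
  obtain ⟨γ, hγ⟩ := h1
  obtain ⟨v, hv, hv'⟩ := exists_eig hV γ
  refine ⟨γ, ?_, v, hv, ?_⟩
  · by_contra hne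
    apply hγ
    obtain ⟨F, hF⟩ := I.exists_fun (R ξ η)
    rw [hV]
    exact hF.apply_ne (by rwa [𝒢.s_unit])
  · rintro rfl
    apply hγ
    rw [hv', inner_zero_left]

theorem exists_ne (I : Iso tw) : ∃ (x : X) (ξ η : H), I.φ (R ξ η) (dl (𝒢.unit x)) ≠ 0 := by
  by_contra hcon
  push Not at hcon
  have h1 : I.φ (R (dl 0) (dl 0)) = 0 := by
    apply op_ext
    intro γ
    obtain ⟨F, hF⟩ := I.exists_fun (R (dl 0) (dl 0))
    have := (hF.dl_eq_zero_iff' γ).2 (hcon _ _ _)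
    rw [this]
    rfl
  have h2 : R (dl 0) (dl 0) = 0 := I.inj (by rw [h1, map_zero])
  have h3 := congrArg norm h2
  rw [norm_R, norm_dl, norm_zero] at h3
  norm_num at h3

/-- Step A': the joint eigenvectors span a dense subspace. -/
theorem eq_zero_of_orth (I : Iso tw) {w : H} (hw : ∀ z, ∀ v ∈ I.Eig z, inner ℂ v w = 0) :
    w = 0 := by
  by_contra hne
  obtain ⟨x, ξ, η, h⟩ := exists_ne I
  apply h
  obtain ⟨V, hV⟩ := exists_V I x η
  have h1 : V w = 0 := by
    apply lp.ext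
    funext γ
    obtain ⟨v, hv, hv'⟩ := exists_eig hV γ
    rw [hv', hw _ v hv]
    rfl
  have h2 : (inner ℂ w w : ℂ) • R ξ η = R ξ w * R w η := (R_mul_R _ _ _ _).symm
  have h3 : (inner ℂ w w : ℂ) • I.φ (R ξ η) (dl (𝒢.unit x)) = 0 := by
    have h4 : (inner ℂ w w : ℂ) • I.φ (R ξ η) (dl (𝒢.unit x)) =
        I.φ ((inner ℂ w w : ℂ) • R ξ η) (dl (𝒢.unit x)) := by
      rw [map_smul]; rfl
    rw [h4, h2, map_mul]
    show I.φ (R ξ w) (I.φ (R w η) (dl (𝒢.unit x))) = 0
    rw [← hV, h1, map_zero]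
  rcases smul_eq_zero.1 h3 with h5 | h5
  · exact absurd (inner_self_eq_zero.1 h5) hne
  · exact h5

/-- separation of points of the unit space by continuous functions with compact support -/
theorem exists_sep [T2Space G] [LocallyCompactSpace G] (h𝒢 : 𝒢.Etale) {z y : X} (h : z ≠ y) :
    ∃ d : X → ℂ, Continuous d ∧ HasCompactSupport d ∧ d z = 1 ∧ d y = 0 := by
  have := TopGpd.t2_units 𝒢
  have := TopGpd.locallyCompact_units h𝒢
  obtain ⟨d, h1, h2, h3, h4⟩ := exists_continuous_one_zero_of_isCompact (s := {z}) (t := {y})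
    isCompact_singleton isClosed_singleton (by simpa using h)
  refine ⟨fun x => (d x : ℂ), Complex.continuous_ofReal.comp d.continuous, ?_, ?_, ?_⟩
  · exact h3.comp_left (g := fun t : ℝ => (t : ℂ)) Complex.ofReal_zero
  · show ((d z : ℝ) : ℂ) = 1
    rw [h1 (Set.mem_singleton z)]
    simp
  · show ((d y : ℝ) : ℂ) = 0
    rw [h2 (Set.mem_singleton y)]
    simp

section

variable [T2Space G] [T2Space S] [LocallyCompactSpace G] (h𝒢 : 𝒢.Etale)

include h𝒢

theorem range_of_mem_Eig {z : X} {v w : H} (hv : v ∈ I.Eig z) {ξ : l2 G} {γ : G}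
    (h : (I.φ (R v w) ξ) γ ≠ 0) : 𝒢.r γ = z := by
  by_contra hne
  obtain ⟨d, hd, hdc, h1, h2⟩ := exists_sep h𝒢 (Ne.symm hne)
  obtain ⟨a, ha⟩ := I.exists_isMult h𝒢 hd hdc
  apply h
  have h3 : a * R v w = R v w := by
    rw [mul_R, hv a d ha, h1, one_smul]
  rw [← h3, map_mul]
  show (I.φ a (I.φ (R v w) ξ)) γ = 0
  rw [ha.apply, h2, zero_mul]

omit [T2Space G] [T2Space S] [LocallyCompactSpace G] h𝒢 in
/-- the projection onto a unit vector gives a projection -/
theorem inner_R_self {v : H} (hv : ‖v‖ = 1) (ξ : l2 G) :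
    inner ℂ ξ (I.φ (R v v) ξ) = ((‖I.φ (R v v) ξ‖ ^ 2 : ℝ) : ℂ) := by
  have h1 : R v v = star (R v v) * R v v := by
    rw [star_R, R_mul_R, inner_self_eq_norm_sq_to_K, hv]
    simp
  conv_lhs => rw [h1]
  rw [map_mul, map_star]
  show inner ℂ ξ ((star (I.φ (R v v))) (I.φ (R v v) ξ)) = _
  rw [inner_star, inner_self_eq_norm_sq_to_K]
  norm_cast

theorem diag_ne {z : X} {v : H} (hv : v ∈ I.Eig z) (hv1 : ‖v‖ = 1) :
    I.φ (R v v) (dl (𝒢.unit z)) ≠ 0 := by
  have h1 : I.φ (R v v) ≠ 0 := by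
    intro h
    have h2 : R v v = 0 := I.inj (by rw [h, map_zero])
    have h3 := congrArg norm h2
    rw [norm_R, hv1, norm_zero] at h3
    norm_num at h3
  obtain ⟨γ, hγ⟩ : ∃ γ, I.φ (R v v) (dl γ) ≠ 0 := by
    by_contra hcon
    push Not at hcon
    apply h1
    apply op_ext
    intro γ
    rw [hcon γ]
    rfl
  obtain ⟨F, hF⟩ := I.exists_fun (R v v)
  have h2 : I.φ (R v v) (dl (𝒢.unit (𝒢.r γ))) ≠ 0 := fun h => hγ ((hF.dl_eq_zero_iff' γ).2 h)
  have h3 : (I.φ (R v v) (dl (𝒢.unit (𝒢.r γ)))) (𝒢.unit (𝒢.r γ)) ≠ 0 := by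
    rw [← inner_dl, inner_R_self hv1]
    have : ‖I.φ (R v v) (dl (𝒢.unit (𝒢.r γ)))‖ ≠ 0 := norm_ne_zero_iff.2 h2
    exact Complex.ofReal_ne_zero.2 (pow_ne_zero 2 this)
  have h4 := range_of_mem_Eig h𝒢 hv h3
  rw [𝒢.r_unit] at h4
  rwa [h4] at h2

/-- Step B: points with nonzero joint eigenvectors are isolated. -/
theorem isOpen_singleton {z : X} {v : H} (hv : v ∈ I.Eig z) (hv1 : ‖v‖ = 1) :
    IsOpen {z} := by
  obtain ⟨F, hF⟩ := I.exists_fun (R v v)
  have h1 : {z} = (fun x => F (tw.gpd.unit x)) ⁻¹' {0}ᶜ := by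
    ext x
    rw [Set.mem_singleton_iff, Set.mem_preimage, Set.mem_compl_iff, Set.mem_singleton_iff,
      ← hF.diag]
    constructor
    · rintro rfl h
      rw [← inner_dl, inner_R_self hv1] at h
      have h2 : ‖I.φ (R v v) (dl (𝒢.unit x))‖ ^ 2 = 0 := Complex.ofReal_eq_zero.1 h
      exact diag_ne h𝒢 hv hv1 (norm_eq_zero.1 (pow_eq_zero_iff (two_ne_zero) |>.1 h2))
    · intro h
      have := range_of_mem_Eig h𝒢 hv h
      rwa [𝒢.r_unit] at this
  rw [h1]
  exact isOpen_compl_singleton.preimage (hF.continuous.comp tw.gpd.continuous_unit)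

end

theorem exists_unit {z : X} {v : H} (hv : v ∈ I.Eig z) (h : v ≠ 0) :
    ∃ w ∈ I.Eig z, ‖w‖ = 1 := by
  refine ⟨((‖v‖ : ℂ)⁻¹) • v, Submodule.smul_mem _ _ hv, ?_⟩
  rw [norm_smul, norm_inv, Complex.norm_real, norm_norm, inv_mul_cancel₀ (norm_ne_zero_iff.2 h)]

end Iso

end Pool.Agent.W657.TG
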