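import Pool.Agent.W657.TG.Main1

/-!
# Finite dimensionality of the joint eigenspaces; the boundary points
-/

set_option autoImplicit false

open Topology Filter InnerProductSpace
open scoped InnerProduct

namespace Pool.Agent.W657.TG

universe u

open WH

namespace Iso

variable {X G S : Type u} [TopologicalSpace X] [TopologicalSpace G] [TopologicalSpace S]
  {𝒢 : TopGpd X G} {tw : Twist 𝒢 S} {I : Iso tw}

/-- the inversion as a bijection of the arrows -/
def invEquiv (𝒢 : TopGpd X G) : G ≃ G where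
  toFun := 𝒢.inv
  invFun := 𝒢.inv
  left_inv := TopGpd.inv_inv
  right_inv := TopGpd.inv_inv

section

variable [T2Space G] [T2Space S] [LocallyCompactSpace G] (h𝒢 : 𝒢.Etale)

include h𝒢

/-- the value of a product at a unit -/
theorem hasSum_diag (a b : A) (z : X) :
    HasSum (fun γ => (I.φ b (dl (𝒢.unit z))) γ * (I.φ a (dl γ)) (𝒢.unit z))
      ((I.φ (a * b) (dl (𝒢.unit z))) (𝒢.unit z)) := by
  rw [map_mul]
  exact apply_hasSum (I.φ a) (I.φ b (dl (𝒢.unit z))) (𝒢.unit z)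

/-- the trace property -/
theorem trace_R {z : X} {v w : H} (hv : v ∈ I.Eig z) (hw : w ∈ I.Eig z) :
    (I.φ (R v w * R w v) (dl (𝒢.unit z))) (𝒢.unit z) =
      (I.φ (R w v * R v w) (dl (𝒢.unit z))) (𝒢.unit z) := by
  have h1 := hasSum_diag (I := I) h𝒢 (R v w) (R w v) z
  have h2 := hasSum_diag (I := I) h𝒢 (R w v) (R v w) z
  have h3 := (invEquiv 𝒢).hasSum_iff.2 h2
  refine h1.unique ?_
  convert h3 using 2 with γ
  show _ = (I.φ (R v w) (dl (𝒢.unit z))) (𝒢.inv γ) * (I.φ (R w v) (dl (𝒢.inv γ))) (𝒢.unit z)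
  obtain ⟨F, hF⟩ := I.exists_fun (R v w)
  obtain ⟨F', hF'⟩ := I.exists_fun (R w v)
  by_cases hs : 𝒢.s γ = z
  · by_cases hr : 𝒢.r γ = z
    · have e1 : 𝒢.s γ = 𝒢.s (𝒢.unit z) := by rw [hs, 𝒢.s_unit]
      have e2 : 𝒢.s (𝒢.inv γ) = 𝒢.s (𝒢.unit z) := by rw [𝒢.s_inv, hr, 𝒢.s_unit]
      rw [hF.apply_dl, hF.apply_dl, hF'.apply_dl, hF'.apply_dl,
        Twist.entry_of_eq _ e1, Twist.entry_of_eq _ e1.symm, Twist.entry_of_eq _ e2,
        Twist.entry_of_eq _ e2.symm]
      set σ := tw.gpd.mul (tw.lift γ) (tw.gpd.inv (tw.lift (𝒢.unit z))) with hσ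
      have i1 : tw.gpd.mul (tw.lift (𝒢.unit z)) (tw.gpd.inv (tw.lift γ)) = tw.gpd.inv σ := by
        rw [hσ, TopGpd.mul_inv_rev (by rw [tw.gpd.r_inv, tw.s_lift, tw.s_lift, e1]),
          TopGpd.inv_inv]
      rw [i1]
      have p1 : tw.proj (tw.gpd.mul (tw.lift (𝒢.inv γ)) (tw.gpd.inv (tw.lift (𝒢.unit z)))) =
          tw.proj (tw.gpd.inv σ) := by
        rw [Twist.proj_mul_lift e2, tw.proj_inv, hσ, Twist.proj_mul_lift e1, TopGpd.inv_unit]
        have q1 : 𝒢.mul (𝒢.inv γ) (𝒢.unit z) = 𝒢.inv γ := by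
          have := 𝒢.mul_unit (𝒢.inv γ)
          rwa [𝒢.s_inv, hr] at this
        have q2 : 𝒢.mul γ (𝒢.unit z) = γ := by
          have := 𝒢.mul_unit γ
          rwa [hs] at this
        rw [q1, q2]
      obtain ⟨ζ, hζ⟩ := tw.exists_act p1
      have i2 : tw.gpd.mul (tw.lift (𝒢.unit z)) (tw.gpd.inv (tw.lift (𝒢.inv γ))) =
          tw.gpd.inv (tw.gpd.mul (tw.lift (𝒢.inv γ)) (tw.gpd.inv (tw.lift (𝒢.unit z)))) := by
        rw [TopGpd.mul_inv_rev (by rw [tw.gpd.r_inv, tw.s_lift, tw.s_lift, e2]),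
          TopGpd.inv_inv]
      rw [i2, hζ, tw.inv_act, TopGpd.inv_inv, hF.equivariant, hF'.equivariant]
      have q3 : (starRingEnd ℂ) (ζ : ℂ) * (starRingEnd ℂ) ((ζ⁻¹ : Circle) : ℂ) = 1 := by
        rw [← map_mul]
        simp
      calc F' σ * F (tw.gpd.inv σ) = 1 * (F (tw.gpd.inv σ) * F' σ) := by ring
        _ = _ := by rw [← q3]; ring
    · have h4 : (I.φ (R w v) (dl (𝒢.unit z))) γ = 0 := by
        by_contra hne
        exact hr (range_of_mem_Eig h𝒢 hw hne)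
      have h5 : (I.φ (R v w) (dl (𝒢.unit z))) (𝒢.inv γ) = 0 := by
        apply hF.apply_ne
        rw [𝒢.s_inv, 𝒢.s_unit]
        exact hr
      rw [h4, h5, zero_mul, zero_mul]
  · have h4 : (I.φ (R w v) (dl (𝒢.unit z))) γ = 0 := by
      apply hF'.apply_ne
      rw [𝒢.s_unit]
      exact hs
    have h5 : (I.φ (R v w) (dl (𝒢.unit z))) (𝒢.inv γ) = 0 := by
      by_contra hne
      have := range_of_mem_Eig h𝒢 hv hne
      rw [𝒢.r_inv] at this
      exact hs this
    rw [h4, h5, zero_mul, zero_mul]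

theorem diag_eq {z : X} {v w : H} (hv : v ∈ I.Eig z) (hw : w ∈ I.Eig z) (hv1 : ‖v‖ = 1)
    (hw1 : ‖w‖ = 1) : (I.φ (R v v) (dl (𝒢.unit z))) (𝒢.unit z) =
      (I.φ (R w w) (dl (𝒢.unit z))) (𝒢.unit z) := by
  have h := trace_R h𝒢 hv hw
  rw [R_mul_R, R_mul_R, inner_self_eq_norm_sq_to_K, inner_self_eq_norm_sq_to_K, hv1, hw1] at h
  simpa using h

/-- Step C: the joint eigenspaces have finite dimension. -/
theorem finiteDimensional (z : X) : FiniteDimensional ℂ (I.Eig z) := by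
  by_contra hcon
  have h1 : Cardinal.aleph0 ≤ Module.rank ℂ (I.Eig z) := by
    rw [← not_lt, Module.rank_lt_aleph0_iff]
    exact hcon
  have h2 : ∀ n : ℕ, ∃ f : Fin n → I.Eig z, Orthonormal ℂ f := by
    intro n
    obtain ⟨f, hf⟩ := exists_linearIndependent_of_le_rank (R := ℂ) (M := I.Eig z)
      (le_trans (Cardinal.natCast_le_aleph0) h1 : (n : Cardinal) ≤ _)
    exact ⟨gramSchmidtNormed ℂ f, gramSchmidtNormed_orthonormal hf⟩
  obtain ⟨f₁, hf₁⟩ := h2 1
  set v : H := (f₁ 0 : H) with hv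
  have hvE : v ∈ I.Eig z := (f₁ 0).2
  have hv1 : ‖v‖ = 1 := hf₁.1 0
  set t : ℝ := ‖I.φ (R v v) (dl (𝒢.unit z))‖ ^ 2 with ht
  have ht0 : 0 < t := by
    have := norm_pos_iff.2 (diag_ne h𝒢 hvE hv1)
    positivity
  obtain ⟨n, hn⟩ := exists_nat_gt (1 / t)
  have hn' : 1 < n * t := by
    rwa [div_lt_iff₀ ht0] at hn
  obtain ⟨f, hf⟩ := h2 n
  set P : A := ∑ i, R (f i : H) (f i : H) with hP
  have hPP : P * P = P := by
    rw [hP, Finset.sum_mul]
    refine Finset.sum_congr rfl fun i _ => ?_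
    rw [Finset.mul_sum]
    have : ∀ j, R (f i : H) (f i : H) * R (f j : H) (f j : H) =
        if i = j then R (f i : H) (f i : H) else 0 := by
      intro j
      rw [R_mul_R]
      have h3 : inner ℂ (f i : H) (f j : H) = if i = j then (1 : ℂ) else 0 :=
        orthonormal_iff_ite.1 hf i j
      rw [h3]
      split_ifs with h
      · rw [one_smul, h]
      · rw [zero_smul]
    simp only [this]
    rw [Finset.sum_ite_eq]
    simp
  have hPs : star P = P := by
    rw [hP, star_sum]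
    exact Finset.sum_congr rfl fun i _ => star_R _ _
  have hPn : ‖I.φ P‖ ≤ 1 := by
    rw [I.norm_φ]
    have h3 : ‖P‖ * ‖P‖ = ‖P‖ := by
      have := CStarRing.norm_star_mul_self (x := P)
      rw [hPs, hPP] at this
      exact this.symm
    by_contra hlt
    push Not at hlt
    nlinarith
  have h4 : (I.φ P (dl (𝒢.unit z))) (𝒢.unit z) = ((n * t : ℝ) : ℂ) := by
    have h5 : ∀ i, (I.φ (R (f i : H) (f i : H)) (dl (𝒢.unit z))) (𝒢.unit z) = (t : ℂ) := by
      intro i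
      rw [← diag_eq h𝒢 hvE (f i).2 hv1 (hf.1 i), ← inner_dl, inner_R_self hv1]
    have h6 : (I.φ P (dl (𝒢.unit z))) (𝒢.unit z) =
        ∑ i, (I.φ (R (f i : H) (f i : H)) (dl (𝒢.unit z))) (𝒢.unit z) := by
      rw [hP, map_sum, ← inner_dl, sum_apply, inner_sum]
      simp only [inner_dl]
    rw [h6]
    simp only [h5]
    rw [Finset.sum_const, Finset.card_univ, Fintype.card_fin, nsmul_eq_mul]
    push_cast
    ring
  have h7 := entry_le (I.φ P) (𝒢.unit z) (𝒢.unit z)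
  rw [h4, Complex.norm_real, Real.norm_eq_abs, abs_of_pos (by linarith)] at h7
  linarith

/-- indicator functions of isolated points -/
theorem exists_indicator {x : X} (hx : IsOpen {x}) :
    ∃ a : A, I.IsMult a (fun y => (Set.indicator {x} (fun _ => (1 : ℂ)) y)) := by
  have := TopGpd.t2_units 𝒢
  apply I.exists_isMult h𝒢
  · exact (IsClopen.continuous_indicator ⟨isClosed_singleton, hx⟩ continuous_const)
  · refine HasCompactSupport.intro (isCompact_singleton (x := x)) ?_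
    intro y hy
    exact Set.indicator_of_notMem hy _

/-- an isolated unit is a joint eigenvalue -/
theorem exists_eig_of_isOpen {x : X} (hx : IsOpen {x}) : ∃ v ∈ I.Eig x, v ≠ 0 := by
  obtain ⟨a, ha⟩ := exists_indicator (I := I) h𝒢 hx
  have h1 : a ≠ 0 := by
    rintro rfl
    have h2 := ha.apply (dl (𝒢.unit x)) (𝒢.unit x)
    rw [map_zero, dl_self, 𝒢.r_unit, Set.indicator_of_mem (Set.mem_singleton x)] at h2
    simp at h2
  have h2 : ∃ ξ, (a : H →L[ℂ] H) ξ ≠ 0 := by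
    by_contra hcon
    push Not at hcon
    apply h1
    apply Subtype.ext
    ext1 ξ
    exact hcon ξ
  obtain ⟨ξ, hξ⟩ := h2
  refine ⟨_, ?_, hξ⟩
  intro b d hb
  have h3 := hb.mul ha
  have h4 := ha.smul (d x)
  have h5 : (fun y => d y * Set.indicator {x} (fun _ => (1 : ℂ)) y) =
      fun y => d x * Set.indicator {x} (fun _ => (1 : ℂ)) y := by
    funext y
    by_cases hy : y = x
    · rw [hy]
    · rw [Set.indicator_of_notMem (by simpa using hy), mul_zero, mul_zero]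
  rw [h5] at h3
  have h6 := h3.ext h4
  have h7 := congrArg (fun c : A => (c : H →L[ℂ] H) ξ) h6
  exact h7

/-- Step D: at a non-isolated unit the rank one operators vanish. -/
theorem R_eq_zero {x : X} (hx : ¬ IsOpen {x}) (ξ η : H) :
    I.φ (R ξ η) (dl (𝒢.unit x)) = 0 := by
  by_contra hne
  apply hx
  obtain ⟨γ, hγ, v, hv, hv0⟩ := exists_eig_of_ne hne
  obtain ⟨w, hw, hw1⟩ := exists_unit hv hv0
  have h1 := isOpen_singleton h𝒢 hw hw1
  obtain ⟨e, he, hes⟩ := h𝒢.2 γ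
  have h2 : e.source ∩ 𝒢.r ⁻¹' {𝒢.r γ} = {γ} := by
    ext γ'
    constructor
    · rintro ⟨h3, h4⟩
      apply e.injOn h3 he
      rw [← hes]
      exact h4
    · rintro rfl
      exact ⟨he, rfl⟩
  have h3 : IsOpen {γ} := by
    rw [← h2]
    exact e.open_source.inter (h1.preimage 𝒢.continuous_r)
  have h4 := h𝒢.1.isOpenMap _ h3
  rwa [Set.image_singleton, hγ] at h4

/-- Step D': at a non-isolated unit the compact operators vanish. -/
theorem K_eq_zero {x : X} (hx : ¬ IsOpen {x}) {k : A} (hk : (k : H →L[ℂ] H) ∈ K) :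
    I.φ k (dl (𝒢.unit x)) = 0 := by
  have hcont : Continuous fun a : A => I.φ a (dl (𝒢.unit x)) := by
    have h1 : Continuous I.φ := I.isometry.continuous
    have h2 : Continuous fun T : l2 G →L[ℂ] l2 G => T (dl (𝒢.unit x)) := by fun_prop
    exact h2.comp h1
  let L : Submodule ℂ (H →L[ℂ] H) :=
    { carrier := {T | ∃ h : T ∈ A, I.φ ⟨T, h⟩ (dl (𝒢.unit x)) = 0}
      add_mem' := by
        rintro T T' ⟨h, h'⟩ ⟨g, g'⟩
        refine ⟨add_mem h g, ?_⟩
        have : (⟨T + T', add_mem h g⟩ : A) = ⟨T, h⟩ + ⟨T', g⟩ := rfl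
        rw [this, map_add]
        show I.φ ⟨T, h⟩ (dl (𝒢.unit x)) + I.φ ⟨T', g⟩ (dl (𝒢.unit x)) = 0
        rw [h', g', add_zero]
      zero_mem' := by
        refine ⟨zero_mem _, ?_⟩
        have : (⟨0, zero_mem _⟩ : A) = 0 := rfl
        rw [this, map_zero]
        rfl
      smul_mem' := by
        rintro c T ⟨h, h'⟩
        have h5 : c • T ∈ A := A.smul_mem' c h
        refine ⟨h5, ?_⟩
        have : (⟨c • T, h5⟩ : A) = c • ⟨T, h⟩ := Subtype.ext rfl
        rw [this, map_smul]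
        show c • I.φ ⟨T, h⟩ (dl (𝒢.unit x)) = 0
        rw [h', smul_zero] }
  have hL : (L : Set (H →L[ℂ] H)) = Subtype.val '' {a : A | I.φ a (dl (𝒢.unit x)) = 0} := by
    ext T
    constructor
    · rintro ⟨h, h'⟩
      exact ⟨⟨T, h⟩, h', rfl⟩
    · rintro ⟨⟨T', h⟩, h', rfl⟩
      exact ⟨h, h'⟩
  have hLc : IsClosed (L : Set (H →L[ℂ] H)) := by
    rw [hL]
    exact isClosed_A.isClosedEmbedding_subtypeVal.isClosedMap _
      (isClosed_singleton.preimage hcont)
  have hle : K ≤ L := K_le hLc fun ξ η => ⟨rankOne_mem ξ η, R_eq_zero h𝒢 hx ξ η⟩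
  obtain ⟨h1, h2⟩ : ∃ h : (k : H →L[ℂ] H) ∈ A, I.φ ⟨k, h⟩ (dl (𝒢.unit x)) = 0 := hle hk
  exact h2

/-- Step E: at a non-isolated unit the algebra is commutative. -/
theorem comm_apply {x : X} (hx : ¬ IsOpen {x}) (a b : A) :
    I.φ a (I.φ b (dl (𝒢.unit x))) = I.φ b (I.φ a (dl (𝒢.unit x))) := by
  have h1 : ((a * b - b * a : A) : H →L[ℂ] H) ∈ K := commutator_mem a.2 b.2
  have h2 := K_eq_zero (I := I) h𝒢 hx h1
  rw [map_sub, map_mul, map_mul, sub_apply, sub_eq_zero] at h2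
  exact h2

end

end Iso

end Pool.Agent.W657.TG
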