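import Pool.Agent.W657.TG.Main2

/-!
# The isotropy groups at the boundary points
-/

set_option autoImplicit false

open Topology Filter InnerProductSpace
open scoped InnerProduct

namespace Pool.Agent.W657.TG

universe u

open WH

section Stab

variable {X G : Type u} [TopologicalSpace X] [TopologicalSpace G]

/-- the isotropy group at `x` -/
def Stab (𝒢 : TopGpd X G) (x : X) : Type u := {γ : G // 𝒢.s γ = x ∧ 𝒢.r γ = x}

variable {𝒢 : TopGpd X G} {x : X}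

theorem Stab.s_eq (a : Stab 𝒢 x) : 𝒢.s a.1 = x := a.2.1

theorem Stab.r_eq (a : Stab 𝒢 x) : 𝒢.r a.1 = x := a.2.2

theorem Stab.comp (a b : Stab 𝒢 x) : 𝒢.s a.1 = 𝒢.r b.1 := by rw [a.s_eq, b.r_eq]

instance : Group (Stab 𝒢 x) where
  mul a b := ⟨𝒢.mul a.1 b.1, by rw [𝒢.s_mul _ _ (a.comp b), b.s_eq],
    by rw [𝒢.r_mul _ _ (a.comp b), a.r_eq]⟩
  one := ⟨𝒢.unit x, 𝒢.s_unit x, 𝒢.r_unit x⟩
  inv a := ⟨𝒢.inv a.1, by rw [𝒢.s_inv, a.r_eq], by rw [𝒢.r_inv, a.s_eq]⟩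
  mul_assoc a b c := Subtype.ext (𝒢.mul_assoc _ _ _ (a.comp b) (b.comp c))
  one_mul a := by
    apply Subtype.ext
    show 𝒢.mul (𝒢.unit x) a.1 = a.1
    have := 𝒢.unit_mul a.1
    rwa [a.r_eq] at this
  mul_one a := by
    apply Subtype.ext
    show 𝒢.mul a.1 (𝒢.unit x) = a.1
    have := 𝒢.mul_unit a.1
    rwa [a.s_eq] at this
  inv_mul_cancel a := by
    apply Subtype.ext
    show 𝒢.mul (𝒢.inv a.1) a.1 = 𝒢.unit x
    rw [𝒢.inv_mul, a.s_eq]

theorem Stab.coe_mul (a b : Stab 𝒢 x) : (a * b).1 = 𝒢.mul a.1 b.1 := rfl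

theorem Stab.coe_inv (a : Stab 𝒢 x) : (a⁻¹).1 = 𝒢.inv a.1 := rfl

theorem Stab.coe_one : (1 : Stab 𝒢 x).1 = 𝒢.unit x := rfl

end Stab

namespace Iso

variable {X G S : Type u} [TopologicalSpace X] [TopologicalSpace G] [TopologicalSpace S]
  {𝒢 : TopGpd X G} {tw : Twist 𝒢 S} {I : Iso tw}

section bumpop

variable [T2Space G] [T2Space S] [LocallyCompactSpace S] (h𝒢 : 𝒢.Etale)

include h𝒢

/-- for every section there is a corresponding element of `A` -/
theorem exists_of_section (I : Iso tw) {f : S → ℂ} (hf : tw.IsSection f) :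
    ∃ b : A, tw.IsRegular f (I.φ b) := by
  obtain ⟨T, hT⟩ := Twist.exists_regular h𝒢 hf
  have h1 : T ∈ Set.range I.φ := by
    rw [I.range]
    exact Twist.mem_reduced hf hT
  obtain ⟨b, rfl⟩ := h1
  exact ⟨b, hT⟩

/-- bump elements -/
theorem exists_bump_elt (I : Iso tw) (γ₀ : G) {W : Set G} (hW : IsOpen W) (h₀ : γ₀ ∈ W) :
    ∃ (b : A) (f : S → ℂ), tw.IsSection f ∧ tw.IsRegular f (I.φ b) ∧ f (tw.lift γ₀) ≠ 0 ∧
      ∀ σ, f σ ≠ 0 → tw.proj σ ∈ W := by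
  obtain ⟨f, hf, h1, h2⟩ := tw.exists_bump (tw.lift γ₀) hW (by rwa [tw.proj_lift])
  obtain ⟨b, hb⟩ := exists_of_section h𝒢 I hf
  exact ⟨b, f, hf, hb, h1, h2⟩

end bumpop

/-- an equivariant function has the same absolute value on arrows with the same projection -/
theorem norm_eq_of_proj {f : S → ℂ}
    (hf : ∀ (z : Circle) (σ : S), f (tw.act z σ) = (starRingEnd ℂ) (z : ℂ) * f σ) {σ τ : S}
    (h : tw.proj σ = tw.proj τ) : ‖f σ‖ = ‖f τ‖ := by
  obtain ⟨z, rfl⟩ := tw.exists_act h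
  rw [hf, norm_mul, Twist.norm_conj_circle, one_mul]

theorem ne_zero_of_proj {f : S → ℂ}
    (hf : ∀ (z : Circle) (σ : S), f (tw.act z σ) = (starRingEnd ℂ) (z : ℂ) * f σ) {σ τ : S}
    (h : tw.proj σ = tw.proj τ) (h0 : f τ ≠ 0) : f σ ≠ 0 := by
  rw [← norm_ne_zero_iff, norm_eq_of_proj hf h, norm_ne_zero_iff]
  exact h0

section boundary

variable [T2Space G] [T2Space S] [LocallyCompactSpace G] [LocallyCompactSpace S] (h𝒢 : 𝒢.Etale)
  {x : X} (hx : ¬ IsOpen {x})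

include h𝒢 hx

/-- Step E1: the orbit of a non-isolated unit is trivial. -/
theorem r_eq_of_s_eq (I : Iso tw) {γ : G} (hγ : 𝒢.s γ = x) : 𝒢.r γ = x := by
  by_contra hne
  obtain ⟨b, f, hf, hreg, hf0, -⟩ := exists_bump_elt h𝒢 I γ isOpen_univ trivial
  obtain ⟨d, hd, hdc, h1, h2⟩ := exists_sep h𝒢 hne
  obtain ⟨a, ha⟩ := I.exists_isMult h𝒢 hd hdc
  have h3 := congrArg (fun ξ : l2 G => ξ γ) (comm_apply (I := I) h𝒢 hx a b)
  simp only at h3
  have e : 𝒢.s γ = 𝒢.s (𝒢.unit x) := by rw [hγ, 𝒢.s_unit]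
  rw [ha.apply, ha.apply_dl, 𝒢.r_unit, h2, zero_smul, map_zero, h1, one_mul, hreg.apply_dl,
    Twist.entry_of_eq _ e] at h3
  refine ne_zero_of_proj hf.equivariant ?_ hf0 h3
  rw [Twist.proj_mul_lift e, tw.proj_lift, TopGpd.inv_unit]
  have := 𝒢.mul_unit γ
  rwa [hγ] at this

omit hx in
/-- commutativity at all basis vectors over `x` -/
theorem comm_apply' (hx : ¬ IsOpen {x}) (a b : A) {γ : G} (hγ : 𝒢.r γ = x) :
    I.φ a (I.φ b (dl γ)) = I.φ b (I.φ a (dl γ)) := by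
  have h1 := comm_apply (I := I) h𝒢 hx a b
  have h2 : I.φ (a * b - b * a) (dl (𝒢.unit (𝒢.r γ))) = 0 := by
    rw [map_sub, map_mul, map_mul, sub_apply, sub_eq_zero, hγ]
    exact h1
  obtain ⟨F, hF⟩ := I.exists_fun (a * b - b * a)
  have h3 := (hF.dl_eq_zero_iff' γ).2 h2
  rw [map_sub, map_mul, map_mul, sub_apply, sub_eq_zero] at h3
  exact h3

end boundary

/-! ### The representation on `ℓ²` of the isotropy group -/

/-- restriction of functions on `G` to the isotropy group -/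
theorem exists_restr (𝒢 : TopGpd X G) (x : X) : ∃ T : l2 G →L[ℂ] l2 (Stab 𝒢 x), ‖T‖ ≤ 1 ∧
    ∀ f γ, (T f) γ = f γ.1 :=
  exists_comp (fun γ : Stab 𝒢 x => γ.1) Subtype.val_injective

noncomputable def restr (𝒢 : TopGpd X G) (x : X) : l2 G →L[ℂ] l2 (Stab 𝒢 x) :=
  (exists_restr 𝒢 x).choose

theorem restr_apply (x : X) (f : l2 G) (γ : Stab 𝒢 x) : (restr 𝒢 x f) γ = f γ.1 :=
  (exists_restr 𝒢 x).choose_spec.2 f γ

theorem restr_dl (x : X) (γ : Stab 𝒢 x) : restr 𝒢 x (dl γ.1) = dl γ := by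
  classical
  apply lp.ext
  funext η
  rw [restr_apply, dl_apply, dl_apply]
  by_cases h : η = γ
  · rw [if_pos h, if_pos (by rw [h])]
  · rw [if_neg h, if_neg (fun h' => h (Subtype.ext h'))]

theorem adj_restr_dl (x : X) (γ : Stab 𝒢 x) :
    ContinuousLinearMap.adjoint (restr 𝒢 x) (dl γ) = dl γ.1 := by
  classical
  apply lp.ext
  funext η
  rw [← inner_dl, ContinuousLinearMap.adjoint_inner_right, inner_dl_right, restr_apply, dl_apply,
    dl_apply]
  by_cases h : η = γ.1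
  · rw [if_pos h, if_pos h.symm, map_one]
  · rw [if_neg h, if_neg (fun h' => h h'.symm), map_zero]

/-- the representation of `A` on `ℓ²` of the isotropy group, as a function -/
noncomputable def rho (I : Iso tw) (x : X) (a : A) : l2 (Stab 𝒢 x) →L[ℂ] l2 (Stab 𝒢 x) :=
  restr 𝒢 x ∘L I.φ a ∘L ContinuousLinearMap.adjoint (restr 𝒢 x)

theorem rho_dl (x : X) (a : A) (γ : Stab 𝒢 x) :
    rho I x a (dl γ) = restr 𝒢 x (I.φ a (dl γ.1)) := by
  show restr 𝒢 x (I.φ a (ContinuousLinearMap.adjoint (restr 𝒢 x) (dl γ))) = _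
  rw [adj_restr_dl]

theorem rho_dl_apply (x : X) (a : A) (γ η : Stab 𝒢 x) :
    (rho I x a (dl γ)) η = (I.φ a (dl γ.1)) η.1 := by
  rw [rho_dl, restr_apply]

theorem rho_add (x : X) (a b : A) : rho I x (a + b) = rho I x a + rho I x b := by
  apply op_ext
  intro γ
  rw [rho_dl, map_add, add_apply, map_add, ← rho_dl, ← rho_dl]
  rfl

theorem rho_smul (x : X) (c : ℂ) (a : A) : rho I x (c • a) = c • rho I x a := by
  apply op_ext
  intro γ
  rw [rho_dl, map_smul]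
  show restr 𝒢 x (c • I.φ a (dl γ.1)) = c • rho I x a (dl γ)
  rw [map_smul, ← rho_dl]

theorem rho_star (x : X) (a : A) : rho I x (star a) = star (rho I x a) := by
  unfold rho
  rw [map_star, ContinuousLinearMap.star_eq_adjoint, ContinuousLinearMap.star_eq_adjoint,
    ContinuousLinearMap.adjoint_comp, ContinuousLinearMap.adjoint_comp,
    ContinuousLinearMap.adjoint_adjoint]
  rfl

theorem norm_rho_le (x : X) (a : A) : ‖rho I x a‖ ≤ ‖a‖ := by
  unfold rho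
  have h1 : ‖restr 𝒢 x‖ ≤ 1 := (exists_restr 𝒢 x).choose_spec.1
  have h2 : ‖ContinuousLinearMap.adjoint (restr 𝒢 x)‖ ≤ 1 := by
    rw [LinearIsometryEquiv.norm_map]
    exact h1
  calc ‖restr 𝒢 x ∘L I.φ a ∘L ContinuousLinearMap.adjoint (restr 𝒢 x)‖
      ≤ ‖restr 𝒢 x‖ * (‖I.φ a‖ * ‖ContinuousLinearMap.adjoint (restr 𝒢 x)‖) :=
        (ContinuousLinearMap.opNorm_comp_le _ _).trans
          (mul_le_mul_of_nonneg_left (ContinuousLinearMap.opNorm_comp_le _ _) (norm_nonneg _))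
    _ ≤ 1 * (‖I.φ a‖ * 1) := by gcongr
    _ = ‖a‖ := by rw [I.norm_φ]; ring

theorem continuous_rho (x : X) : Continuous (rho I x) := by
  have h : ∀ a b : A, dist (rho I x a) (rho I x b) ≤ dist a b := by
    intro a b
    rw [dist_eq_norm, dist_eq_norm]
    have h1 : rho I x a - rho I x b = rho I x (a - b) := by
      have h2 := rho_add (I := I) x (a - b) b
      rw [sub_add_cancel] at h2
      rw [h2]
      abel
    rw [h1]
    exact norm_rho_le x _
  exact LipschitzWith.continuous (K := 1) (LipschitzWith.of_dist_le_mul (by simpa using h))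

section boundary

variable [T2Space G] [T2Space S] [LocallyCompactSpace G] [LocallyCompactSpace S] (h𝒢 : 𝒢.Etale)
  {x : X} (hx : ¬ IsOpen {x})

include h𝒢 hx

theorem rho_mul (a b : A) : rho I x (a * b) = rho I x a * rho I x b := by
  apply op_ext
  intro γ
  rw [rho_dl, map_mul]
  show restr 𝒢 x (I.φ a (I.φ b (dl γ.1))) =
    restr 𝒢 x (I.φ a (ContinuousLinearMap.adjoint (restr 𝒢 x) (rho I x b (dl γ))))
  have key : I.φ b (dl γ.1) =
      ContinuousLinearMap.adjoint (restr 𝒢 x) (rho I x b (dl γ)) := by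
    apply lp.ext
    funext η
    have h0 : (ContinuousLinearMap.adjoint (restr 𝒢 x) (rho I x b (dl γ))) η =
        inner ℂ (restr 𝒢 x (dl η)) (rho I x b (dl γ)) := by
      rw [← inner_dl, ContinuousLinearMap.adjoint_inner_right]
    refine Eq.trans ?_ h0.symm
    by_cases hη : 𝒢.s η = x
    · have hη' : 𝒢.r η = x := r_eq_of_s_eq h𝒢 hx I hη
      have h1 : restr 𝒢 x (dl η) = dl (⟨η, hη, hη'⟩ : Stab 𝒢 x) :=
        restr_dl x (⟨η, hη, hη'⟩ : Stab 𝒢 x)
      rw [h1]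
      refine Eq.trans ?_ (inner_dl _ _).symm
      exact (rho_dl_apply x b γ ⟨η, hη, hη'⟩).symm
    · have h1 : restr 𝒢 x (dl η) = 0 := by
        apply lp.ext
        funext κ
        rw [restr_apply, dl_ne]
        · rfl
        · rintro rfl
          exact hη κ.s_eq
      rw [h1, inner_zero_left]
      obtain ⟨F, hF⟩ := I.exists_fun b
      apply hF.apply_ne
      rw [γ.s_eq]
      exact hη
  rw [key]

theorem rho_comm (a b : A) : rho I x a * rho I x b = rho I x b * rho I x a := by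
  rw [← rho_mul h𝒢 hx, ← rho_mul h𝒢 hx]
  apply op_ext
  intro γ
  rw [rho_dl, rho_dl, map_mul, map_mul]
  congr 1
  exact comm_apply' h𝒢 hx a b γ.r_eq

omit hx in
/-- bump elements at an element of the isotropy group -/
theorem exists_monomial (I : Iso tw) (g : Stab 𝒢 x) :
    ∃ (b : A) (f : S → ℂ), tw.IsSection f ∧ tw.IsRegular f (I.φ b) ∧ f (tw.lift g.1) ≠ 0 ∧
      (∀ σ, f σ ≠ 0 → tw.gpd.s σ = x → tw.proj σ = g.1) := by
  obtain ⟨e, he, hes⟩ := h𝒢.1 g.1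
  obtain ⟨b, f, h1, h2, h3, h4⟩ := exists_bump_elt h𝒢 I g.1 e.open_source he
  refine ⟨b, f, h1, h2, h3, ?_⟩
  intro σ hσ hsσ
  apply e.injOn (h4 σ hσ) he
  rw [← hes, tw.s_proj, hsσ, g.s_eq]

end boundary

/-- the matrix of a monomial -/
theorem monomial_dl {x : X} {g : Stab 𝒢 x} {b : A} {f : S → ℂ} (hf : tw.IsSection f)
    (hb : tw.IsRegular f (I.φ b))
    (hg : ∀ σ, f σ ≠ 0 → tw.gpd.s σ = x → tw.proj σ = g.1) (κ : Stab 𝒢 x) :
    ∃ c : ℂ, ‖c‖ = ‖f (tw.lift g.1)‖ ∧ rho I x b (dl κ) = c • dl (g * κ) := by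
  have e : 𝒢.s (g * κ).1 = 𝒢.s κ.1 := by rw [(g * κ).s_eq, κ.s_eq]
  have p : 𝒢.mul (g * κ).1 (𝒢.inv κ.1) = g.1 := by
    rw [Stab.coe_mul, TopGpd.mul_inv_cancel_right (g.comp κ)]
  refine ⟨tw.entry f (g * κ).1 κ.1, ?_, ?_⟩
  · rw [Twist.entry_of_eq _ e]
    apply norm_eq_of_proj hf.equivariant
    rw [Twist.proj_mul_lift e, tw.proj_lift, p]
  · apply lp.ext
    funext η
    rw [rho_dl_apply, hb.apply_dl]
    show _ = _ * (dl (g * κ) : l2 (Stab 𝒢 x)) η
    by_cases h : η = g * κ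
    · rw [h, dl_self, mul_one]
    · rw [dl_ne h, mul_zero]
      have e' : 𝒢.s η.1 = 𝒢.s κ.1 := by rw [η.s_eq, κ.s_eq]
      rw [Twist.entry_of_eq _ e']
      by_contra hne
      apply h
      have h1 := hg _ hne (by rw [Twist.s_mul_lift e', κ.r_eq])
      rw [Twist.proj_mul_lift e'] at h1
      have h2 : η * κ⁻¹ = g := Subtype.ext h1
      rw [← h2]
      group

section boundary

variable [T2Space G] [T2Space S] [LocallyCompactSpace G] [LocallyCompactSpace S] (h𝒢 : 𝒢.Etale)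
  {x : X} (hx : ¬ IsOpen {x})

include h𝒢 hx

/-- Step E2: the isotropy group of a non-isolated unit is abelian. -/
theorem stab_comm (I : Iso tw) (g h : Stab 𝒢 x) : g * h = h * g := by
  obtain ⟨b, f, h1, h2, h3, h4⟩ := exists_monomial h𝒢 I g
  obtain ⟨b', f', h1', h2', h3', h4'⟩ := exists_monomial h𝒢 I h
  have hc := congrArg (fun T : l2 (Stab 𝒢 x) →L[ℂ] l2 (Stab 𝒢 x) => T (dl 1))
    (rho_comm (I := I) h𝒢 hx b b')
  have hc' : rho I x b (rho I x b' (dl 1)) = rho I x b' (rho I x b (dl 1)) := hc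
  obtain ⟨c1, n1, m1⟩ := monomial_dl h1' h2' h4' 1
  obtain ⟨c2, n2, m2⟩ := monomial_dl h1 h2 h4 (h * 1)
  obtain ⟨c3, n3, m3⟩ := monomial_dl h1 h2 h4 1
  obtain ⟨c4, n4, m4⟩ := monomial_dl h1' h2' h4' (g * 1)
  rw [m1, map_smul, m2, m3, map_smul, m4] at hc'
  have hne : ∀ {c : ℂ} {r : ℂ}, ‖c‖ = ‖r‖ → r ≠ 0 → c ≠ 0 := by
    intro c r h hr
    rw [← norm_ne_zero_iff, h, norm_ne_zero_iff]
    exact hr
  by_contra hgh
  have h5 := congrArg (fun ξ : l2 (Stab 𝒢 x) => ξ (g * (h * 1))) hc'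
  simp only [lp.coeFn_smul, Pi.smul_apply, smul_eq_mul, dl_self] at h5
  rw [dl_ne (by rw [mul_one, mul_one]; exact hgh), mul_zero, mul_zero, mul_one] at h5
  exact mul_ne_zero (hne n1 h3') (hne n2 h3) h5

end boundary

end Iso

end Pool.Agent.W657.TG
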