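import Pool.Agent.W657.TG.Main3

/-!
# The isotropy groups at the boundary points are torsion groups
-/

set_option autoImplicit false

open Topology Filter InnerProductSpace
open scoped InnerProduct

namespace Pool.Agent.W657.TG

universe u

open WH

/-- an element of infinite order of an abelian group is mapped to `1` by some homomorphism to `ℝ` -/
theorem exists_hom {Γ : Type u} [CommGroup Γ] (g : Γ) (hg : ∀ n : ℕ, 0 < n → g ^ n ≠ 1) :
    ∃ θ : Γ → ℝ, (∀ a b, θ (a * b) = θ a + θ b) ∧ θ g = 1 := by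
  have hB : Module.Baer ℤ ℝ := Module.Baer.of_divisible ℝ
  let f : ℤ →+ Additive Γ := zmultiplesHom (Additive Γ) (Additive.ofMul g)
  have hf : Function.Injective f := by
    rw [injective_iff_map_eq_zero]
    intro n hn
    have h1 : g ^ n = 1 := by
      have : f n = Additive.ofMul (g ^ n) := rfl
      rw [this] at hn
      exact hn
    by_contra hne
    have h2 : g ^ n.natAbs = 1 := by
      rcases Int.natAbs_eq n with h | h
      · rw [h, zpow_natCast] at h1
        exact h1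
      · rw [h, zpow_neg, zpow_natCast, inv_eq_one] at h1
        exact h1
    exact hg _ (Int.natAbs_pos.2 hne) h2
  obtain ⟨h, hh⟩ := hB.extension_property_addMonoidHom f hf (Int.castAddHom ℝ)
  refine ⟨fun a => h (Additive.ofMul a), fun a b => ?_, ?_⟩
  · show h (Additive.ofMul (a * b)) = _
    rw [ofMul_mul, map_add]
  · have h1 := DFunLike.congr_fun hh 1
    have h2 : f 1 = Additive.ofMul g := by
      show (1 : ℤ) • Additive.ofMul g = _
      rw [one_smul]
    rw [AddMonoidHom.comp_apply, h2] at h1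
    show h (Additive.ofMul g) = 1
    rw [h1]
    simp

/-- diagonal unitaries -/
theorem exists_diagU {Y : Type u} (z : Y → Circle) :
    ∃ V : unitary (l2 Y →L[ℂ] l2 Y), ∀ (f : l2 Y) y, ((V : l2 Y →L[ℂ] l2 Y) f) y = z y * f y := by
  obtain ⟨T, -, hT⟩ := exists_diag (fun y => (z y : ℂ)) 1 zero_le_one
    (fun y => by rw [Circle.norm_coe])
  have hdl : ∀ y, T (dl y) = (z y : ℂ) • dl y := by
    intro y
    apply lp.ext
    funext w
    rw [hT]
    show _ = (z y : ℂ) * (dl y : l2 Y) w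
    by_cases h : w = y
    · rw [h]
    · rw [dl_ne h, mul_zero, mul_zero]
  have hstar : ∀ (f : l2 Y) y, (star T f) y = (starRingEnd ℂ) (z y : ℂ) * f y := by
    intro f y
    rw [← inner_dl, ContinuousLinearMap.star_eq_adjoint, ContinuousLinearMap.adjoint_inner_right,
      hdl, inner_smul_left, inner_dl]
  have hz : ∀ y, (starRingEnd ℂ) (z y : ℂ) * (z y : ℂ) = 1 := by
    intro y
    rw [← Circle.coe_inv_eq_conj, ← Circle.coe_mul, inv_mul_cancel, Circle.coe_one]
  refine ⟨⟨T, ?_⟩, hT⟩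
  rw [Unitary.mem_iff]
  constructor
  · ext f y
    show (star T (T f)) y = f y
    rw [hstar, hT, ← mul_assoc, hz, one_mul]
  · ext f y
    show (T (star T f)) y = f y
    rw [hT, hstar, ← mul_assoc, mul_comm (z y : ℂ), hz, one_mul]

noncomputable def diagU {Y : Type u} (z : Y → Circle) : unitary (l2 Y →L[ℂ] l2 Y) :=
  (exists_diagU z).choose

theorem diagU_apply {Y : Type u} (z : Y → Circle) (f : l2 Y) (y : Y) :
    ((diagU z : l2 Y →L[ℂ] l2 Y) f) y = z y * f y :=
  (exists_diagU z).choose_spec f y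

theorem diagU_dl {Y : Type u} (z : Y → Circle) (y : Y) :
    (diagU z : l2 Y →L[ℂ] l2 Y) (dl y) = (z y : ℂ) • dl y := by
  apply lp.ext
  funext w
  rw [diagU_apply]
  show _ = (z y : ℂ) * (dl y : l2 Y) w
  by_cases h : w = y
  · rw [h]
  · rw [dl_ne h, mul_zero, mul_zero]

theorem star_diagU_dl {Y : Type u} (z : Y → Circle) (y : Y) :
    (star (diagU z : l2 Y →L[ℂ] l2 Y)) (dl y) = (starRingEnd ℂ) (z y : ℂ) • dl y := by
  apply lp.ext
  funext w
  rw [← inner_dl, ContinuousLinearMap.star_eq_adjoint, ContinuousLinearMap.adjoint_inner_right,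
    diagU_dl, inner_smul_left, inner_dl]
  show _ = (starRingEnd ℂ) (z y : ℂ) * (dl y : l2 Y) w
  by_cases h : w = y
  · rw [h]
  · rw [dl_ne h, mul_zero, mul_zero]

/-- conjugation by a diagonal unitary -/
noncomputable def conjU {Y : Type u} (z : Y → Circle) :
    (l2 Y →L[ℂ] l2 Y) →⋆ₐ[ℂ] (l2 Y →L[ℂ] l2 Y) :=
  (Unitary.conjStarAlgAut ℂ (l2 Y →L[ℂ] l2 Y) (diagU z) :
    (l2 Y →L[ℂ] l2 Y) ≃⋆ₐ[ℂ] (l2 Y →L[ℂ] l2 Y)).toStarAlgHom

theorem conjU_apply {Y : Type u} (z : Y → Circle) (T : l2 Y →L[ℂ] l2 Y) :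
    conjU z T = (diagU z : l2 Y →L[ℂ] l2 Y) * T * star (diagU z : l2 Y →L[ℂ] l2 Y) := rfl

theorem conjU_dl_apply {Y : Type u} (z : Y → Circle) (T : l2 Y →L[ℂ] l2 Y) (y w : Y) :
    (conjU z T (dl y)) w = (z w : ℂ) * (starRingEnd ℂ) (z y : ℂ) * (T (dl y)) w := by
  rw [conjU_apply]
  show ((diagU z : l2 Y →L[ℂ] l2 Y) (T (star (diagU z : l2 Y →L[ℂ] l2 Y) (dl y)))) w = _
  rw [star_diagU_dl, map_smul, diagU_apply]
  show (z w : ℂ) * ((starRingEnd ℂ) (z y : ℂ) * (T (dl y)) w) = _
  ring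

theorem norm_conjU {Y : Type u} (z : Y → Circle) (T : l2 Y →L[ℂ] l2 Y) :
    ‖conjU z T‖ = ‖T‖ := by
  rw [conjU_apply, ← Unitary.coe_star, CStarRing.norm_mul_coe_unitary,
    CStarRing.norm_coe_unitary_mul]

namespace Iso

variable {X G S : Type u} [TopologicalSpace X] [TopologicalSpace G] [TopologicalSpace S]
  {𝒢 : TopGpd X G} {tw : Twist 𝒢 S} {I : Iso tw}

/-- the generator `S - 1` as an element of `A` -/
noncomputable def N₀ : A := ⟨N, N_mem⟩

/-- the unitary `v = 1 + ρ(S - 1)` -/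
noncomputable def vv (I : Iso tw) (x : X) : l2 (Stab 𝒢 x) →L[ℂ] l2 (Stab 𝒢 x) := 1 + rho I x N₀

/-- the C*-algebra generated by `v` -/
noncomputable abbrev BB (I : Iso tw) (x : X) :
    StarSubalgebra ℂ (l2 (Stab 𝒢 x) →L[ℂ] l2 (Stab 𝒢 x)) :=
  StarAlgebra.elemental ℂ (vv I x)

theorem rho_zero (x : X) : rho I x 0 = 0 := by
  have := rho_smul (I := I) x 0 0
  rwa [zero_smul, zero_smul] at this

section boundary

variable [T2Space G] [T2Space S] [LocallyCompactSpace G] [LocallyCompactSpace S] (h𝒢 : 𝒢.Etale)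
  {x : X} (hx : ¬ IsOpen {x})

include h𝒢 hx

theorem star_vv_mul : star (vv I x) * vv I x = 1 := by
  have h1 : star N₀ + N₀ + star N₀ * N₀ = (0 : A) := by
    apply Subtype.ext
    show star N + N + star N * N = 0
    rw [star_N]
    unfold N
    have := back_shift
    have h2 : back - 1 + (shift - 1) + (back - 1) * (shift - 1) = back * shift - 1 := by
      noncomm_ring
    rw [h2, this, sub_self]
  have h2 : star (vv I x) * vv I x = 1 + rho I x (star N₀ + N₀ + star N₀ * N₀) := by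
    unfold vv
    rw [star_add, star_one, rho_add, rho_add, rho_mul h𝒢 hx, rho_star]
    noncomm_ring
  rw [h2, h1, rho_zero, add_zero]

theorem vv_mul_star : vv I x * star (vv I x) = 1 := by
  rw [← star_vv_mul (I := I) h𝒢 hx]
  unfold vv
  have := rho_comm (I := I) h𝒢 hx N₀ (star N₀)
  rw [star_add, star_one, ← rho_star]
  noncomm_ring
  rw [this]

theorem isStarNormal_vv : IsStarNormal (vv I x) := by
  constructor
  show star (vv I x) * vv I x = vv I x * star (vv I x)
  rw [star_vv_mul h𝒢 hx, vv_mul_star h𝒢 hx]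

theorem rho_mem_BB (a : A) : rho I x a ∈ BB I x := by
  refine induction_A (p := fun a => rho I x a ∈ BB I x) ?_ ?_ ?_ ?_ ?_ ?_ a
  · have h : rho I x ⟨N, N_mem⟩ = vv I x - 1 := by
      unfold vv
      have : rho I x N₀ = rho I x ⟨N, N_mem⟩ := rfl
      rw [this]
      abel
    rw [h]
    exact sub_mem (StarAlgebra.elemental.self_mem ℂ _) (one_mem _)
  · intro a b ha hb
    rw [rho_add]
    exact add_mem ha hb
  · intro c a ha
    rw [rho_smul]
    exact SMulMemClass.smul_mem c ha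
  · intro a b ha hb
    rw [rho_mul h𝒢 hx]
    exact mul_mem ha hb
  · intro a ha
    rw [rho_star]
    exact star_mem ha
  · exact (StarAlgebra.elemental.isClosed ℂ (vv I x)).preimage (continuous_rho x)

omit hx in
theorem exists_rho_eq_one (I : Iso tw) (x : X) : ∃ a : A, rho I x a = 1 := by
  have := TopGpd.t2_units 𝒢
  have := TopGpd.locallyCompact_units h𝒢
  obtain ⟨d, h1, -, h3, -⟩ := exists_continuous_one_zero_of_isCompact (s := {x}) (t := ∅)
    isCompact_singleton isClosed_empty (by simp)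
  obtain ⟨a, ha⟩ := I.exists_isMult h𝒢 (d := fun x => (d x : ℂ))
    (Complex.continuous_ofReal.comp d.continuous)
    (h3.comp_left (g := fun t : ℝ => (t : ℂ)) Complex.ofReal_zero)
  refine ⟨a, ?_⟩
  apply op_ext
  intro γ
  rw [rho_dl, ha.apply_dl, γ.r_eq, h1 (Set.mem_singleton x)]
  simp only [Pi.one_apply, Complex.ofReal_one, one_smul]
  exact restr_dl x γ

end boundary

/-- elements on which the dual action of a homomorphism `θ` is well behaved -/
structure IsGood (I : Iso tw) (x : X) (z : ℝ → Stab 𝒢 x → Circle)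
    (T : l2 (Stab 𝒢 x) →L[ℂ] l2 (Stab 𝒢 x)) : Prop where
  mem : ∀ t, conjU (z t) T ∈ BB I x
  continuous : Continuous fun t => conjU (z t) T

theorem IsGood.add {x : X} {z : ℝ → Stab 𝒢 x → Circle}
    {T T' : l2 (Stab 𝒢 x) →L[ℂ] l2 (Stab 𝒢 x)} (h : IsGood I x z T) (h' : IsGood I x z T') :
    IsGood I x z (T + T') := by
  refine ⟨fun t => ?_, ?_⟩
  · rw [map_add]
    exact add_mem (h.mem t) (h'.mem t)
  · simp only [map_add]
    exact h.continuous.add h'.continuous

theorem IsGood.smul {x : X} {z : ℝ → Stab 𝒢 x → Circle}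
    {T : l2 (Stab 𝒢 x) →L[ℂ] l2 (Stab 𝒢 x)} (h : IsGood I x z T) (c : ℂ) :
    IsGood I x z (c • T) := by
  refine ⟨fun t => ?_, ?_⟩
  · rw [map_smul]
    exact SMulMemClass.smul_mem c (h.mem t)
  · simp only [map_smul]
    exact h.continuous.const_smul c

theorem IsGood.zero {x : X} {z : ℝ → Stab 𝒢 x → Circle} : IsGood I x z 0 := by
  refine ⟨fun t => ?_, ?_⟩
  · rw [map_zero]
    exact zero_mem _
  · simp only [map_zero]
    exact continuous_const

theorem IsGood.sum {x : X} {z : ℝ → Stab 𝒢 x → Circle} {ι : Type*} (s : Finset ι)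
    {T : ι → l2 (Stab 𝒢 x) →L[ℂ] l2 (Stab 𝒢 x)} (h : ∀ i ∈ s, IsGood I x z (T i)) :
    IsGood I x z (∑ i ∈ s, T i) := by
  classical
  induction s using Finset.induction_on with
  | empty =>
    rw [Finset.sum_empty]
    exact IsGood.zero
  | insert a s ha ih =>
    rw [Finset.sum_insert ha]
    exact (h a (Finset.mem_insert_self a s)).add
      (ih fun i hi => h i (Finset.mem_insert_of_mem hi))

theorem IsGood.of_tendsto {x : X} {z : ℝ → Stab 𝒢 x → Circle}
    {T : ℕ → l2 (Stab 𝒢 x) →L[ℂ] l2 (Stab 𝒢 x)} {T' : l2 (Stab 𝒢 x) →L[ℂ] l2 (Stab 𝒢 x)}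
    (h : ∀ n, IsGood I x z (T n)) (hlim : Tendsto T atTop (𝓝 T')) : IsGood I x z T' := by
  have hunif : TendstoUniformly (fun n t => conjU (z t) (T n)) (fun t => conjU (z t) T') atTop := by
    rw [Metric.tendstoUniformly_iff]
    intro ε hε
    rw [Metric.tendsto_nhds] at hlim
    filter_upwards [hlim ε hε] with n hn t
    rw [dist_comm, dist_eq_norm, ← map_sub, norm_conjU, ← dist_eq_norm]
    exact hn
  refine ⟨fun t => ?_, ?_⟩
  · exact (StarAlgebra.elemental.isClosed ℂ (vv I x)).mem_of_tendsto (hunif.tendsto_at t)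
      (Eventually.of_forall fun n => (h n).mem t)
  · exact hunif.continuous (Frequently.of_forall fun n => (h n).continuous)

section boundary

variable [T2Space G] [T2Space S] [LocallyCompactSpace G] [LocallyCompactSpace S] (h𝒢 : 𝒢.Etale)
  {x : X} (hx : ¬ IsOpen {x}) {θ : Stab 𝒢 x → ℝ} (hθ : ∀ a b, θ (a * b) = θ a + θ b)

/-- the characters `γ ↦ exp(2 π i t θ(γ))` -/
noncomputable def zz (θ : Stab 𝒢 x → ℝ) (t : ℝ) (γ : Stab 𝒢 x) : Circle :=
  Circle.exp (2 * Real.pi * t * θ γ)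

include hθ in
/-- monomials are homogeneous -/
theorem conj_monomial {g : Stab 𝒢 x} {b : A} {f : S → ℂ} (hf : tw.IsSection f)
    (hb : tw.IsRegular f (I.φ b))
    (hg : ∀ σ, f σ ≠ 0 → tw.gpd.s σ = x → tw.proj σ = g.1) (t : ℝ) :
    conjU (zz θ t) (rho I x b) = ((zz θ t g : Circle) : ℂ) • rho I x b := by
  apply op_ext
  intro κ
  apply lp.ext
  funext η
  rw [conjU_dl_apply]
  obtain ⟨c, -, hc⟩ := monomial_dl hf hb hg κ
  show _ = ((zz θ t g : Circle) : ℂ) * (rho I x b (dl κ)) η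
  rw [hc]
  show _ * (c * (dl (g * κ) : l2 (Stab 𝒢 x)) η) = _ * (c * (dl (g * κ) : l2 (Stab 𝒢 x)) η)
  by_cases h : η = g * κ
  · subst h
    congr 1
    unfold zz
    rw [← Circle.coe_inv_eq_conj, ← Circle.coe_mul, ← Circle.exp_neg, ← Circle.exp_add, hθ]
    congr 2
    ring
  · rw [dl_ne h, mul_zero, mul_zero, mul_zero]

include h𝒢 hx hθ in
theorem good_monomial {g : Stab 𝒢 x} {b : A} {f : S → ℂ} (hf : tw.IsSection f)
    (hb : tw.IsRegular f (I.φ b))
    (hg : ∀ σ, f σ ≠ 0 → tw.gpd.s σ = x → tw.proj σ = g.1) :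
    IsGood I x (zz θ) (rho I x b) := by
  refine ⟨fun t => ?_, ?_⟩
  · rw [conj_monomial hθ hf hb hg]
    exact SMulMemClass.smul_mem _ (rho_mem_BB h𝒢 hx b)
  · simp only [conj_monomial hθ hf hb hg]
    have h1 : Continuous fun t => ((zz θ t g : Circle) : ℂ) := by
      unfold zz
      fun_prop
    exact h1.smul continuous_const

include h𝒢 hx hθ in
/-- sections give good elements -/
theorem good_section {b : A} {f : S → ℂ} (hf : tw.IsSection f)
    (hb : tw.IsRegular f (I.φ b)) : IsGood I x (zz θ) (rho I x b) := by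
  classical
  have hC : IsCompact (tw.proj '' (tsupport f)) :=
    hf.hasCompactSupport.isCompact.image tw.continuous_proj
  obtain ⟨n, hn⟩ := TopGpd.finite_fibre h𝒢.1 hC
  have hfin : {g : Stab 𝒢 x | f (tw.lift g.1) ≠ 0}.Finite := by
    refine Set.Finite.of_injOn (f := fun g : Stab 𝒢 x => g.1) ?_
      (Subtype.val_injective.injOn) (hn x).1
    intro g hg
    exact ⟨⟨_, subset_tsupport f hg, tw.proj_lift _⟩, g.s_eq⟩
  choose bb ff h1 h2 h3 h4 using fun g : Stab 𝒢 x => exists_monomial h𝒢 I g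
  have key : rho I x b =
      ∑ g ∈ hfin.toFinset, (f (tw.lift g.1) / ff g (tw.lift g.1)) • rho I x (bb g) := by
    apply op_ext
    intro κ
    apply lp.ext
    funext η
    have e : 𝒢.s η.1 = 𝒢.s κ.1 := by rw [η.s_eq, κ.s_eq]
    set σ := tw.gpd.mul (tw.lift η.1) (tw.gpd.inv (tw.lift κ.1)) with hσ
    have pσ : tw.proj σ = (η * κ⁻¹).1 := Twist.proj_mul_lift e
    obtain ⟨ζ, hζ⟩ := tw.exists_act (σ := σ) (τ := tw.lift (η * κ⁻¹).1) (by
      rw [pσ, tw.proj_lift])
    have hL : (rho I x b (dl κ)) η = f σ := by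
      rw [rho_dl_apply, hb.apply_dl, Twist.entry_of_eq _ e]
    have hR : ∀ g, (rho I x (bb g) (dl κ)) η = ff g σ := by
      intro g
      rw [rho_dl_apply, (h2 g).apply_dl, Twist.entry_of_eq _ e]
    have hsum : ((∑ g ∈ hfin.toFinset, (f (tw.lift g.1) / ff g (tw.lift g.1)) • rho I x (bb g)) :
        l2 (Stab 𝒢 x) →L[ℂ] l2 (Stab 𝒢 x)) (dl κ) =
        ∑ g ∈ hfin.toFinset, (f (tw.lift g.1) / ff g (tw.lift g.1)) • rho I x (bb g) (dl κ) := by
      rw [sum_apply]
      rfl
    rw [hsum, ← inner_dl η (∑ g ∈ hfin.toFinset, _), inner_sum]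
    simp only [inner_smul_right, inner_dl, hR]
    rw [hL]
    have hzero : ∀ g, g ≠ η * κ⁻¹ → ff g σ = 0 := by
      intro g hg
      by_contra hne
      apply hg
      have := h4 g σ hne (by rw [hσ, Twist.s_mul_lift e, κ.r_eq])
      rw [pσ] at this
      exact Subtype.ext this.symm
    rw [Finset.sum_eq_single (η * κ⁻¹)]
    · rw [hζ, hf.equivariant, (h1 _).equivariant]
      field_simp [h3 (η * κ⁻¹)]
    · intro g _ hg
      rw [hzero g hg, mul_zero]
    · intro hnot
      rw [Set.Finite.mem_toFinset, Set.mem_ofPred_eq, not_not] at hnot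
      rw [hnot, zero_div, zero_mul]
  rw [key]
  exact IsGood.sum _ fun g _ => (good_monomial h𝒢 hx hθ (h1 g) (h2 g) (h4 g)).smul _

include h𝒢 hx hθ in
theorem good_rho (a : A) : IsGood I x (zz θ) (rho I x a) := by
  obtain ⟨Tn, hTn, hlim⟩ := mem_closure_iff_seq_limit.1 (I.mem a)
  choose fn hfn hreg using hTn
  have h1 : ∀ n, ∃ b : A, I.φ b = Tn n := by
    intro n
    have : Tn n ∈ Set.range I.φ := by
      rw [I.range]
      exact Twist.mem_reduced (hfn n) (hreg n)
    exact this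
  choose bn hbn using h1
  have h2 : Tendsto bn atTop (𝓝 a) := by
    rw [I.isometry.isEmbedding.tendsto_nhds_iff]
    simpa [Function.comp_def, hbn] using hlim
  refine IsGood.of_tendsto (T := fun n => rho I x (bn n)) (fun n => ?_)
    (((continuous_rho x).tendsto a).comp h2)
  refine good_section h𝒢 hx hθ (hfn n) ?_
  rw [hbn]
  exact hreg n

end boundary

end Iso

end Pool.Agent.W657.TG
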