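import Pool.Agent.W657.TG.Main4
import Pool.Agent.W657.TG.Abs

/-!
# The isotropy groups at the boundary points are torsion groups, continued
-/

set_option autoImplicit false

open Topology Filter InnerProductSpace
open scoped InnerProduct

namespace Pool.Agent.W657.TG

universe u

open WH

theorem conjU_one {Y : Type u} (T : l2 Y →L[ℂ] l2 Y) (z : Y → Circle) (hz : ∀ y, z y = 1) :
    conjU z T = T := by
  apply op_ext
  intro y
  apply lp.ext
  funext w
  rw [conjU_dl_apply, hz, hz]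
  simp

theorem continuous_conjU {Y : Type u} (z : Y → Circle) : Continuous (conjU z) :=
  AddMonoidHomClass.continuous_of_bound (conjU z) 1 (fun T => by rw [norm_conjU, one_mul])

namespace Iso

variable {X G S : Type u} [TopologicalSpace X] [TopologicalSpace G] [TopologicalSpace S]
  {𝒢 : TopGpd X G} {tw : Twist 𝒢 S} {I : Iso tw}

section boundary

variable [T2Space G] [T2Space S] [LocallyCompactSpace G] [LocallyCompactSpace S] (h𝒢 : 𝒢.Etale)
  {x : X} (hx : ¬ IsOpen {x}) {θ : Stab 𝒢 x → ℝ} (hθ : ∀ a b, θ (a * b) = θ a + θ b)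

include h𝒢 hx hθ in
theorem good_vv : IsGood I x (zz θ) (vv I x) := by
  have h1 : IsGood I x (zz θ) (1 : l2 (Stab 𝒢 x) →L[ℂ] l2 (Stab 𝒢 x)) := by
    refine ⟨fun t => ?_, ?_⟩
    · rw [map_one]
      exact one_mem _
    · simp only [map_one]
      exact continuous_const
  exact h1.add (good_rho h𝒢 hx hθ N₀)

omit [T2Space G] [T2Space S] [LocallyCompactSpace G] [LocallyCompactSpace S] in
theorem star_monomial_mul {g : Stab 𝒢 x} {b : A} {f : S → ℂ} (f1 : tw.IsSection f)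
    (f2 : tw.IsRegular f (I.φ b))
    (f4 : ∀ σ, f σ ≠ 0 → tw.gpd.s σ = x → tw.proj σ = g.1) :
    star (rho I x b) * rho I x b =
      ((‖f (tw.lift g.1)‖ ^ 2 : ℝ) : ℂ) • (1 : l2 (Stab 𝒢 x) →L[ℂ] l2 (Stab 𝒢 x)) := by
  apply op_ext
  intro κ
  apply lp.ext
  funext η
  show ((star (rho I x b)) (rho I x b (dl κ))) η =
    ((‖f (tw.lift g.1)‖ ^ 2 : ℝ) : ℂ) * (dl κ : l2 (Stab 𝒢 x)) η
  rw [← inner_dl, inner_star]
  obtain ⟨c, hc1, hc2⟩ := monomial_dl f1 f2 f4 κ
  obtain ⟨c', hc1', hc2'⟩ := monomial_dl f1 f2 f4 η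
  rw [hc2, hc2', inner_smul_left, inner_smul_right, inner_dl]
  by_cases h : η = κ
  · subst h
    have hcc : c = c' := by
      have h6 := congrArg (fun ξ : l2 (Stab 𝒢 x) => ξ (g * η)) (hc2.symm.trans hc2')
      simpa [dl_self] using h6
    rw [dl_self, dl_self, ← hcc, mul_one, mul_one, ← hc1]
    rw [← Complex.normSq_eq_conj_mul_self, Complex.normSq_eq_norm_sq]
  · rw [dl_ne h, dl_ne (fun h' => h (mul_left_cancel h')), mul_zero, mul_zero, mul_zero]

include h𝒢 hx in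
/-- Step F: the isotropy group of a non-isolated unit is a torsion group. -/
theorem torsion (I : Iso tw) (g : Stab 𝒢 x) : ∃ n : ℕ, 0 < n ∧ g ^ n = 1 := by
  by_contra hcon
  push Not at hcon
  obtain ⟨θ, hθ, hθg⟩ : ∃ θ : Stab 𝒢 x → ℝ, (∀ a b, θ (a * b) = θ a + θ b) ∧ θ g = 1 := by
    let _ : CommGroup (Stab 𝒢 x) :=
      { (inferInstance : Group (Stab 𝒢 x)) with mul_comm := stab_comm h𝒢 hx I }
    exact exists_hom g hcon
  have hnt : Nontrivial (l2 (Stab 𝒢 x)) := by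
    refine ⟨⟨dl 1, 0, fun h => ?_⟩⟩
    have h1 := congrArg norm h
    rw [norm_dl, norm_zero] at h1
    exact one_ne_zero h1
  obtain ⟨b, f, f1, f2, f3, f4⟩ := exists_monomial h𝒢 I g
  obtain ⟨a₁, ha₁⟩ := exists_rho_eq_one h𝒢 I x
  refine noncomm_contra (vv I x) (star_vv_mul h𝒢 hx) (vv_mul_star h𝒢 hx)
    (fun t => conjU (zz θ t)) (fun T => ?_) (fun t => continuous_conjU _)
    (good_vv h𝒢 hx hθ).mem (good_vv h𝒢 hx hθ).continuous (rho I x b) (rho_mem_BB h𝒢 hx b)
    (‖f (tw.lift g.1)‖ ^ 2) (pow_ne_zero 2 (norm_ne_zero_iff.2 f3))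
    (star_monomial_mul f1 f2 f4) (fun t => ?_) (rho I x) (rho_mem_BB h𝒢 hx) (rho_add x)
    (rho_smul x) (rho_mul h𝒢 hx) (rho_star x) (continuous_rho x) ?_ a₁ ha₁
  · apply conjU_one
    intro y
    unfold zz
    simp
  · show conjU (zz θ t) (rho I x b) = _
    rw [conj_monomial hθ f1 f2 f4 t]
    unfold zz
    rw [hθg, mul_one]
  · unfold vv
    have : rho I x N₀ = rho I x ⟨N, N_mem⟩ := rfl
    rw [this]
    abel

end boundary

end Iso

end Pool.Agent.W657.TG
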