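import Pool.Agent.W657.TG.Main5

/-!
# Finite invariant sets
-/

set_option autoImplicit false

open Topology Filter InnerProductSpace
open scoped InnerProduct

namespace Pool.Agent.W657.TG

universe u

open WH

namespace Iso

variable {X G S : Type u} [TopologicalSpace X] [TopologicalSpace G] [TopologicalSpace S]
  {𝒢 : TopGpd X G} {tw : Twist 𝒢 S} {I : Iso tw}

/-- the set `c` of units is invariant under the set `C` of arrows -/
def Inv (𝒢 : TopGpd X G) (C : Set G) (c : Set X) : Prop := ∀ γ ∈ C, 𝒢.s γ ∈ c → 𝒢.r γ ∈ c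

/-- units contained in a finite `C`-invariant set -/
def FinInv (𝒢 : TopGpd X G) (C : Set G) : Set X := {z | ∃ c : Set X, c.Finite ∧ z ∈ c ∧ Inv 𝒢 C c}

section boundary

variable [T2Space G] [T2Space S] [LocallyCompactSpace G] [LocallyCompactSpace S] (h𝒢 : 𝒢.Etale)
  {y : X} (hy : ¬ IsOpen {y})

include h𝒢 hy

/-- finitely generated subgroups of the isotropy group are finite -/
theorem finite_closure (I : Iso tw) {s : Set (Stab 𝒢 y)} (hs : s.Finite) :
    (Subgroup.closure s : Set (Stab 𝒢 y)).Finite := by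
  let _ : CommGroup (Stab 𝒢 y) :=
    { (inferInstance : Group (Stab 𝒢 y)) with mul_comm := stab_comm h𝒢 hy I }
  have h1 : IsMulTorsion (Subgroup.closure s) := by
    intro g
    obtain ⟨n, hn, hn'⟩ := torsion h𝒢 hy I g.1
    rw [isOfFinOrder_iff_pow_eq_one]
    exact ⟨n, hn, Subtype.ext hn'⟩
  have h2 : Group.FG (Subgroup.closure s) := by
    rw [Group.fg_iff_subgroup_fg, Subgroup.fg_iff]
    exact ⟨s, rfl, hs⟩
  have h3 : Finite (Subgroup.closure s) := CommGroup.finite_of_fg_isMulTorsion _ h1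
  exact h3

/-- Step G1: the neighbourhood of a non-isolated unit. -/
theorem finInv_mem_nhds (I : Iso tw) {C : Set G} (hC : IsCompact C) :
    FinInv 𝒢 C ∈ 𝓝 y := by
  classical
  have hTX := TopGpd.t2_units 𝒢
  -- the finite group generated by the arrows of `C` at `y`
  set Cy : Set (Stab 𝒢 y) := {g | g.1 ∈ C} with hCy
  have hCyf : Cy.Finite := by
    obtain ⟨n, hn⟩ := TopGpd.finite_fibre h𝒢.1 hC
    refine Set.Finite.of_injOn (f := fun g : Stab 𝒢 y => g.1) ?_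
      (Subtype.val_injective.injOn) (hn y).1
    intro g hg
    exact ⟨hg, g.s_eq⟩
  set F : Subgroup (Stab 𝒢 y) := Subgroup.closure Cy with hF
  have hFf : (F : Set (Stab 𝒢 y)).Finite := finite_closure h𝒢 hy I hCyf
  -- local sections
  choose e he hes using fun g : Stab 𝒢 y => h𝒢.1 g.1
  have hsy : ∀ g : Stab 𝒢 y, (e g) g.1 = y := fun g => by rw [← hes g, g.s_eq]
  have hyt : ∀ g : Stab 𝒢 y, y ∈ (e g).target := fun g => by
    have := (e g).map_source (he g)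
    rwa [hsy] at this
  have hSy : ∀ g : Stab 𝒢 y, (e g).symm y = g.1 := fun g => by
    have := (e g).left_inv (he g)
    rwa [hsy] at this
  have hSs : ∀ (g : Stab 𝒢 y) v, v ∈ (e g).target → 𝒢.s ((e g).symm v) = v := by
    intro g v hv
    have := (e g).right_inv hv
    rwa [← hes g] at this
  have hSγ : ∀ (g : Stab 𝒢 y) γ, γ ∈ (e g).source → (e g).symm (𝒢.s γ) = γ := by
    intro g γ hγ
    have := (e g).left_inv hγ
    rwa [← hes g] at this
  have hScont : ∀ g : Stab 𝒢 y, Tendsto (e g).symm (𝓝 y) (𝓝 g.1) := by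
    intro g
    have := (e g).symm.continuousAt (x := y) (hyt g)
    unfold ContinuousAt at this
    rwa [hSy] at this
  have hrcont : ∀ g : Stab 𝒢 y, Tendsto (fun v => 𝒢.r ((e g).symm v)) (𝓝 y) (𝓝 y) := by
    intro g
    have := (𝒢.continuous_r.tendsto g.1).comp (hScont g)
    rwa [g.r_eq] at this
  -- (b)
  have hb : ∀ᶠ v in 𝓝 y, ∀ γ ∈ C, 𝒢.s γ = v → ∃ g ∈ F, γ ∈ (e g).source := by
    set C' : Set G := C \ ⋃ g ∈ F, (e g).source with hC'
    have hopen : IsOpen (⋃ g ∈ F, (e g).source) :=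
      isOpen_biUnion fun g _ => (e g).open_source
    have h1 : IsCompact C' := hC.diff hopen
    have h2 : IsClosed (𝒢.s '' C') := (h1.image 𝒢.continuous_s).isClosed
    have h3 : y ∉ 𝒢.s '' C' := by
      rintro ⟨γ, ⟨hγC, hγ⟩, hγy⟩
      apply hγ
      have h4 : 𝒢.r γ = y := r_eq_of_s_eq h𝒢 hy I hγy
      have h5 : (⟨γ, hγy, h4⟩ : Stab 𝒢 y) ∈ F := Subgroup.subset_closure hγC
      exact Set.mem_biUnion h5 (he ⟨γ, hγy, h4⟩)
    filter_upwards [h2.isOpen_compl.mem_nhds h3] with v hv γ hγ hγv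
    by_contra hcon
    push Not at hcon
    apply hv
    refine ⟨γ, ⟨hγ, ?_⟩, hγv⟩
    simp only [Set.mem_iUnion, not_exists]
    exact hcon
  -- (a)
  have ha : ∀ᶠ v in 𝓝 y, ∀ g ∈ F, v ∈ (e g).target :=
    (Set.Finite.eventually_all hFf).2 fun g _ => (e g).open_target.mem_nhds (hyt g)
  -- (c)
  have hc : ∀ᶠ v in 𝓝 y, ∀ g ∈ F, ∀ γ ∈ C, 𝒢.s γ = 𝒢.r ((e g).symm v) →
      ∃ g ∈ F, γ ∈ (e g).source :=
    (Set.Finite.eventually_all hFf).2 fun g _ => (hrcont g).eventually hb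
  have hc' : ∀ᶠ v in 𝓝 y, ∀ g ∈ F, ∀ h ∈ F, 𝒢.r ((e g).symm v) ∈ (e h).target :=
    (Set.Finite.eventually_all hFf).2 fun g _ => (hrcont g).eventually ha
  -- (d)
  have hd : ∀ g ∈ F, ∀ h ∈ F, ∀ᶠ v in 𝓝 y,
      𝒢.mul ((e h).symm (𝒢.r ((e g).symm v))) ((e g).symm v) = (e (h * g)).symm v := by
    intro g hg h hh
    have h1 : ∀ᶠ v in 𝓝 y, v ∈ (e g).target ∧ 𝒢.r ((e g).symm v) ∈ (e h).target :=
      (ha.and hc').mono fun v hv => ⟨hv.1 g hg, hv.2 g hg h hh⟩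
    have h2 : Tendsto (fun v => ((e h).symm (𝒢.r ((e g).symm v)), (e g).symm v)) (𝓝 y)
        (𝓝[{q : G × G | 𝒢.s q.1 = 𝒢.r q.2}] (h.1, g.1)) := by
      rw [tendsto_nhdsWithin_iff]
      refine ⟨?_, ?_⟩
      · rw [nhds_prod_eq]
        exact ((hScont h).comp (hrcont g)).prodMk (hScont g)
      · filter_upwards [h1] with v hv
        exact hSs h _ hv.2
    have h3 : Tendsto (fun v => 𝒢.mul ((e h).symm (𝒢.r ((e g).symm v))) ((e g).symm v)) (𝓝 y)
        (𝓝 (𝒢.mul h.1 g.1)) := by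
      have h4 := 𝒢.continuous_mul (h.1, g.1) (h.comp g)
      exact h4.tendsto.comp h2
    have h5 : ∀ᶠ v in 𝓝 y,
        𝒢.mul ((e h).symm (𝒢.r ((e g).symm v))) ((e g).symm v) ∈ (e (h * g)).source :=
      h3.eventually ((e (h * g)).open_source.mem_nhds (he (h * g)))
    filter_upwards [h1, h5] with v hv hv'
    have h6 := hSγ (h * g) _ hv'
    rw [𝒢.s_mul _ _ (hSs h _ hv.2), hSs g _ hv.1] at h6
    exact h6.symm
  have hd' : ∀ᶠ v in 𝓝 y, ∀ g ∈ F, ∀ h ∈ F,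
      𝒢.mul ((e h).symm (𝒢.r ((e g).symm v))) ((e g).symm v) = (e (h * g)).symm v :=
    (Set.Finite.eventually_all hFf).2 fun g hg =>
      (Set.Finite.eventually_all hFf).2 fun h hh => hd g hg h hh
  -- (e)
  have hunit : ∀ᶠ v in 𝓝 y, (e 1).symm v = 𝒢.unit v := by
    have h1 : ∀ᶠ v in 𝓝 y, 𝒢.unit v ∈ (e 1).source :=
      (𝒢.continuous_unit.tendsto y).eventually ((e 1).open_source.mem_nhds (he 1))
    filter_upwards [h1] with v hv
    have := hSγ 1 _ hv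
    rwa [𝒢.s_unit] at this
  filter_upwards [ha, hc, hc', hd', hunit] with v ha hc hc' hd hunit
  refine ⟨(fun g => 𝒢.r ((e g).symm v)) '' (F : Set (Stab 𝒢 y)), hFf.image _, ?_, ?_⟩
  · refine ⟨1, F.one_mem, ?_⟩
    show 𝒢.r ((e 1).symm v) = v
    rw [hunit, 𝒢.r_unit]
  · rintro γ hγ ⟨g, hg, hgγ⟩
    obtain ⟨h, hh, hhγ⟩ := hc g hg γ hγ hgγ.symm
    refine ⟨h * g, F.mul_mem hh hg, ?_⟩
    show 𝒢.r ((e (h * g)).symm v) = 𝒢.r γ
    rw [← hd g hg h hh, 𝒢.r_mul _ _ (hSs h _ (hc' g hg h hh))]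
    have h1 := hSγ h γ hhγ
    have hgγ' : 𝒢.r ((e g).symm v) = 𝒢.s γ := hgγ
    rw [hgγ', h1]

end boundary

section boundary

variable [T2Space G] [T2Space S] [LocallyCompactSpace G] [LocallyCompactSpace S] (h𝒢 : 𝒢.Etale)

include h𝒢

/-- Step G: every unit is contained in a finite `C`-invariant set. -/
theorem finInv_eq_univ (I : Iso tw) {C : Set G} (hC : IsCompact C)
    (hinv : ∀ γ ∈ C, 𝒢.inv γ ∈ C) (z : X) : z ∈ FinInv 𝒢 C := by
  have hTX := TopGpd.t2_units 𝒢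
  by_contra hz
  set K₀ : Set X := 𝒢.s '' C \ interior (FinInv 𝒢 C) with hK₀
  have hK₀c : IsCompact K₀ := (hC.image 𝒢.continuous_s).diff isOpen_interior
  have hK₀f : K₀.Finite := by
    have h1 : ∀ y ∈ K₀, {y} ∈ 𝓝 y := by
      intro y hy
      have h2 : IsOpen {y} := by
        by_contra hcon
        exact hy.2 (mem_interior_iff_mem_nhds.2 (finInv_mem_nhds h𝒢 hcon I hC))
      exact h2.mem_nhds rfl
    obtain ⟨t, ht, htK⟩ := hK₀c.elim_nhds_subcover (fun y => {y}) h1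
    refine t.finite_toSet.subset ?_
    intro y hy
    have := htK hy
    simp only [Set.mem_iUnion, Set.mem_singleton_iff] at this
    obtain ⟨i, hi, rfl⟩ := this
    exact hi
  have hsub : (FinInv 𝒢 C)ᶜ ⊆ K₀ := by
    intro w hw
    refine ⟨?_, fun h => hw (interior_subset h)⟩
    by_contra hcon
    apply hw
    refine ⟨{w}, Set.finite_singleton w, rfl, ?_⟩
    intro γ hγ hsγ
    exact absurd ⟨γ, hγ, hsγ⟩ hcon
  apply hz
  refine ⟨(FinInv 𝒢 C)ᶜ, hK₀f.subset hsub, hz, ?_⟩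
  intro γ hγ hsγ hrγ
  apply hsγ
  obtain ⟨c, hc, h1, h2⟩ := hrγ
  refine ⟨c, hc, ?_, h2⟩
  have := h2 (𝒢.inv γ) (hinv γ hγ) (by rwa [𝒢.s_inv])
  rwa [𝒢.r_inv] at this

end boundary

end Iso

end Pool.Agent.W657.TG
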