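import Pool.Agent.W657.TG.Main6

/-!
# The C*-algebra generated by `S - 1` is not a twisted groupoid C*-algebra
-/

set_option autoImplicit false

open Topology Filter InnerProductSpace
open scoped InnerProduct

namespace Pool.Agent.W657.TG

universe u

open WH

theorem WH.coe_zero' : ((0 : A) : H →L[ℂ] H) = 0 := rfl

theorem WH.coe_add' (a b : A) : ((a + b : A) : H →L[ℂ] H) = a + b := rfl

/-- the inclusion of the algebra, as an additive map -/
noncomputable def WH.coeHom : A →+ (H →L[ℂ] H) where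
  toFun a := (a : H →L[ℂ] H)
  map_zero' := coe_zero'
  map_add' := coe_add'

theorem WH.coe_sum {ι : Type*} (c : Finset ι) (p : ι → A) :
    ((∑ z ∈ c, p z : A) : H →L[ℂ] H) = ∑ z ∈ c, (p z : H →L[ℂ] H) :=
  map_sum coeHom p c

namespace Iso

variable {X G S : Type u} [TopologicalSpace X] [TopologicalSpace G] [TopologicalSpace S]
  {𝒢 : TopGpd X G} {tw : Twist 𝒢 S} {I : Iso tw}

/-- arrows preserve isolated units -/
theorem isOpen_range_of_isOpen (h𝒢 : 𝒢.Etale) {γ : G} (h : IsOpen {𝒢.s γ}) :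
    IsOpen {𝒢.r γ} := by
  obtain ⟨e, he, hes⟩ := h𝒢.1 γ
  have h2 : e.source ∩ 𝒢.s ⁻¹' {𝒢.s γ} = {γ} := by
    ext γ'
    constructor
    · rintro ⟨h3, h4⟩
      apply e.injOn h3 he
      rw [← hes]
      exact h4
    · rintro rfl
      exact ⟨he, rfl⟩
  have h3 : IsOpen {γ} := by
    rw [← h2]
    exact e.open_source.inter (h.preimage 𝒢.continuous_s)
  have h4 := h𝒢.2.isOpenMap _ h3
  rwa [Set.image_singleton] at h4

section boundary

variable [T2Space G] [T2Space S] [LocallyCompactSpace G] [LocallyCompactSpace S] (h𝒢 : 𝒢.Etale)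

include h𝒢

/-- Every isolated unit is contained in a finite invariant set of isolated units. -/
theorem exists_inv_isolated (I : Iso tw) {C : Set G} (hC : IsCompact C)
    (hinv : ∀ γ ∈ C, 𝒢.inv γ ∈ C) {z : X} (hz : IsOpen {z}) :
    ∃ c : Finset X, z ∈ c ∧ (∀ w ∈ c, IsOpen {w}) ∧ ∀ γ ∈ C, 𝒢.s γ ∈ c → 𝒢.r γ ∈ c := by
  classical
  obtain ⟨c, hc, h1, h2⟩ := finInv_eq_univ h𝒢 I hC hinv z
  have hc' : (c ∩ {w | IsOpen {w}}).Finite := hc.subset Set.inter_subset_left
  refine ⟨hc'.toFinset, ?_, ?_, ?_⟩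
  · rw [Set.Finite.mem_toFinset]
    exact ⟨h1, hz⟩
  · intro w hw
    rw [Set.Finite.mem_toFinset] at hw
    exact hw.2
  · intro γ hγ hs
    rw [Set.Finite.mem_toFinset] at hs ⊢
    exact ⟨h2 γ hγ hs.1, isOpen_range_of_isOpen h𝒢 hs.2⟩

omit [LocallyCompactSpace S] [LocallyCompactSpace G] [T2Space S] [T2Space G] h𝒢 in
/-- the range of the indicator of an isolated unit consists of joint eigenvectors -/
theorem indicator_mem_Eig {x : X} {a : A}
    (ha : I.IsMult a (fun y => (Set.indicator {x} (fun _ => (1 : ℂ)) y))) (ξ : H) :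
    (a : H →L[ℂ] H) ξ ∈ I.Eig x := by
  intro b d hb
  have h3 := hb.mul ha
  have h4 := ha.smul (d x)
  have h5 : (fun y => d y * Set.indicator {x} (fun _ => (1 : ℂ)) y) =
      fun y => d x * Set.indicator {x} (fun _ => (1 : ℂ)) y := by
    funext y
    by_cases hy : y = x
    · rw [hy]
    · rw [Set.indicator_of_notMem (by simpa using hy), mul_zero, mul_zero]
  rw [h5] at h3
  have h6 := h3.ext h4
  have h7 := congrArg (fun c : A => (c : H →L[ℂ] H) ξ) h6
  exact h7

/-- block diagonality of the elements of `C_c(G, Σ)` -/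
theorem section_invariant {f : S → ℂ} {b : A} (hf : tw.IsSection f)
    (hb : tw.IsRegular f (I.φ b)) {c : Finset X} (hc : ∀ w ∈ c, IsOpen {w})
    (hinv : ∀ γ ∈ tw.proj '' (tsupport f), 𝒢.s γ ∈ c → 𝒢.r γ ∈ c) {w : X} (hw : w ∈ c) {v : H}
    (hv : v ∈ I.Eig w) : (b : H →L[ℂ] H) v ∈ ⨆ z ∈ c, I.Eig z := by
  classical
  have hp : ∀ z : X, ∃ a : A, z ∈ c →
      I.IsMult a (fun y => (Set.indicator {z} (fun _ => (1 : ℂ)) y)) := by
    intro z
    by_cases hz : z ∈ c
    · obtain ⟨a, ha⟩ := exists_indicator (I := I) h𝒢 (hc z hz)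
      exact ⟨a, fun _ => ha⟩
    · exact ⟨0, fun h => absurd h hz⟩
  choose p hp using hp
  have key : (∑ z ∈ c, p z) * b * p w = b * p w := by
    apply I.inj
    apply op_ext
    intro κ
    rw [map_mul, map_mul, map_mul]
    show I.φ (∑ z ∈ c, p z) (I.φ b (I.φ (p w) (dl κ))) = I.φ b (I.φ (p w) (dl κ))
    rw [(hp w hw).apply_dl]
    by_cases hκ : 𝒢.r κ = w
    · rw [hκ, Set.indicator_of_mem (Set.mem_singleton w), one_smul]
      apply lp.ext
      funext γ
      have h1 : (I.φ (∑ z ∈ c, p z) (I.φ b (dl κ))) γ =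
          (∑ z ∈ c, Set.indicator {z} (fun _ => (1 : ℂ)) (𝒢.r γ)) * (I.φ b (dl κ)) γ := by
        rw [map_sum, sum_apply, ← inner_dl, inner_sum, Finset.sum_mul]
        refine Finset.sum_congr rfl fun z hz => ?_
        rw [inner_dl, (hp z hz).apply]
      refine h1.trans ?_
      by_cases hz0 : (I.φ b (dl κ)) γ = 0
      · rw [hz0, mul_zero]
      · have e : 𝒢.s γ = 𝒢.s κ := by
          by_contra hne
          apply hz0
          rw [hb.apply_dl, Twist.entry_of_ne _ hne]
        have h2 : 𝒢.mul γ (𝒢.inv κ) ∈ tw.proj '' (tsupport f) := by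
          rw [hb.apply_dl, Twist.entry_of_eq _ e] at hz0
          rw [← Twist.proj_mul_lift (tw := tw) e]
          exact ⟨_, subset_tsupport f hz0, rfl⟩
        have e' : 𝒢.s γ = 𝒢.r (𝒢.inv κ) := by rw [𝒢.r_inv, e]
        have h3 := hinv _ h2 (by rw [𝒢.s_mul _ _ e', 𝒢.s_inv, hκ]; exact hw)
        rw [𝒢.r_mul _ _ e'] at h3
        have h4 : ∑ z ∈ c, Set.indicator {z} (fun _ => (1 : ℂ)) (𝒢.r γ) = 1 := by
          rw [Finset.sum_eq_single (𝒢.r γ)]
          · exact Set.indicator_of_mem (Set.mem_singleton _) _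
          · intro z _ hz
            exact Set.indicator_of_notMem (by simpa using hz.symm) _
          · intro h
            exact absurd h3 h
        rw [h4, one_mul]
    · have h0 : 𝒢.r κ ∉ ({w} : Set X) := hκ
      have h00 : (Set.indicator {w} (fun _ => (1 : ℂ)) (𝒢.r κ)) • (dl κ : l2 G) = 0 := by
        rw [Set.indicator_of_notMem h0, zero_smul]
      rw [h00]
      have h01 : (I.φ b) (0 : l2 G) = 0 := ContinuousLinearMap.map_zero _
      rw [h01]
      exact ContinuousLinearMap.map_zero _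
  have h1 : (p w : H →L[ℂ] H) v = v := by
    have := hv (p w) _ (hp w hw)
    rwa [Set.indicator_of_mem (Set.mem_singleton w), one_smul] at this
  have h2 : (b : H →L[ℂ] H) v =
      ((∑ z ∈ c, p z : A) : H →L[ℂ] H) ((b : H →L[ℂ] H) v) := by
    have h3 := congrArg (fun a : A => (a : H →L[ℂ] H) v) key
    have h4 : ((∑ z ∈ c, p z : A) : H →L[ℂ] H) ((b : H →L[ℂ] H) ((p w : H →L[ℂ] H) v)) =
        (b : H →L[ℂ] H) ((p w : H →L[ℂ] H) v) := h3
    rw [h1] at h4
    exact h4.symm
  rw [h2]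
  rw [coe_sum, sum_apply]
  refine Submodule.sum_mem _ fun z hz => ?_
  exact Submodule.mem_iSup_of_mem z (Submodule.mem_iSup_of_mem hz
    (indicator_mem_Eig (hp z hz) _))

/-- Step H: there is no isomorphism. -/
theorem false (I : Iso tw) : False := by
  classical
  -- approximation of `S - 1` by an element of `C_c(G, Σ)`
  obtain ⟨T, ⟨f, hf, hreg⟩, hT⟩ := Metric.mem_closure_iff.1 (I.mem N₀) (1 / 2) (by norm_num)
  obtain ⟨b, rfl⟩ : ∃ b : A, I.φ b = T := by
    have : T ∈ Set.range I.φ := by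
      rw [I.range]
      exact Twist.mem_reduced hf hreg
    exact this
  have hb : ‖(b : H →L[ℂ] H) - N‖ < 1 / 2 := by
    rw [dist_eq_norm, ← map_sub, I.norm_φ, norm_sub_rev] at hT
    exact hT
  set R' : H →L[ℂ] H := 1 + (b : H →L[ℂ] H) with hR'
  have hRS : R' - shift = (b : H →L[ℂ] H) - N := by
    rw [hR']
    unfold N
    abel
  -- `R'` is bounded below
  have hbelow : ∀ ξ, 1 / 2 * ‖ξ‖ ≤ ‖R' ξ‖ := by
    intro ξ
    have h1 : R' ξ = shift ξ + (R' - shift) ξ := by
      rw [sub_apply]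
      abel
    have h2 : ‖(R' - shift) ξ‖ ≤ 1 / 2 * ‖ξ‖ := by
      rw [hRS]
      exact (ContinuousLinearMap.le_opNorm _ _).trans
        (mul_le_mul_of_nonneg_right hb.le (norm_nonneg _))
    have h3 : ‖shift ξ‖ ≤ ‖R' ξ‖ + ‖(R' - shift) ξ‖ := by
      have : shift ξ = R' ξ - (R' - shift) ξ := by
        rw [sub_apply]
        abel
      rw [this]
      exact norm_sub_le _ _
    rw [norm_shift] at h3
    linarith
  have hinj : Function.Injective R' := by
    rw [injective_iff_map_eq_zero]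
    intro ξ hξ
    have := hbelow ξ
    rw [hξ, norm_zero] at this
    exact norm_le_zero_iff.1 (by linarith)
  -- the compact set of arrows
  set C₀ : Set G := tw.proj '' (tsupport f) with hC₀
  have hC₀c : IsCompact C₀ := hf.hasCompactSupport.isCompact.image tw.continuous_proj
  set C : Set G := C₀ ∪ 𝒢.inv '' C₀ with hC
  have hCc : IsCompact C := hC₀c.union (hC₀c.image 𝒢.continuous_inv)
  have hCinv : ∀ g ∈ C, 𝒢.inv g ∈ C := by
    rintro g (hg | ⟨g', hg', rfl⟩)
    · exact Or.inr ⟨g, hg, rfl⟩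
    · rw [TopGpd.inv_inv]
      exact Or.inl hg'
  -- the range of `R'` contains the joint eigenspaces
  have hrange : ∀ z, ∀ v ∈ I.Eig z, v ∈ LinearMap.range (R' : H →ₗ[ℂ] H) := by
    intro z v hv
    by_cases hv0 : v = 0
    · rw [hv0]
      exact Submodule.zero_mem _
    obtain ⟨w, hw, hw1⟩ := exists_unit hv hv0
    have hz := isOpen_singleton h𝒢 hw hw1
    obtain ⟨c, h1, h2, h3⟩ := exists_inv_isolated h𝒢 I hCc hCinv hz
    set E : Submodule ℂ H := ⨆ z ∈ c, I.Eig z with hE
    have hfd : FiniteDimensional ℂ E := by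
      have : ∀ z, FiniteDimensional ℂ (I.Eig z) := fun z => finiteDimensional h𝒢 z
      rw [hE, ← Finset.sup_eq_iSup]
      exact Submodule.finiteDimensional_finset_sup c (fun z => I.Eig z)
    have hbE : ∀ ξ ∈ E, R' ξ ∈ E := by
      intro ξ hξ
      have h4 : E ≤ E.comap (R' : H →ₗ[ℂ] H) := by
        conv_lhs => rw [hE]
        refine iSup₂_le fun z hz u hu => ?_
        show R' u ∈ E
        rw [hR', add_apply]
        refine Submodule.add_mem _ ?_ ?_
        · exact Submodule.mem_iSup_of_mem z (Submodule.mem_iSup_of_mem hz hu)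
        · exact section_invariant h𝒢 hf hreg h2 (fun γ hγ => h3 γ (Or.inl hγ)) hz hu
      exact h4 hξ
    set g : E →ₗ[ℂ] E := (R' : H →ₗ[ℂ] H).restrict hbE with hg
    have hginj : Function.Injective g := by
      intro ξ η h
      apply Subtype.ext
      apply hinj
      exact congrArg Subtype.val h
    have hgsurj : Function.Surjective g := LinearMap.injective_iff_surjective.1 hginj
    have hvE : v ∈ E := Submodule.mem_iSup_of_mem z (Submodule.mem_iSup_of_mem h1 hv)
    obtain ⟨ξ, hξ⟩ := hgsurj ⟨v, hvE⟩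
    exact ⟨ξ.1, congrArg Subtype.val hξ⟩
  -- the range of `R'` is closed
  have hclosed : IsClosed (Set.range R') := by
    have h1 : AntilipschitzWith 2 R' := by
      apply ContinuousLinearMap.antilipschitz_of_bound
      intro ξ
      have := hbelow ξ
      push_cast
      linarith
    exact h1.isClosed_range R'.uniformContinuous
  have htop : LinearMap.range (R' : H →ₗ[ℂ] H) = ⊤ := by
    have h1 : IsClosed ((LinearMap.range (R' : H →ₗ[ℂ] H) : Submodule ℂ H) : Set H) := by
      have h2 : ((LinearMap.range (R' : H →ₗ[ℂ] H) : Submodule ℂ H) : Set H) = Set.range R' := rfl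
      rw [h2]
      exact hclosed
    have h2 : CompleteSpace (LinearMap.range (R' : H →ₗ[ℂ] H)) := h1.completeSpace_coe
    rw [← Submodule.orthogonal_eq_bot_iff, Submodule.eq_bot_iff]
    intro w hw
    apply eq_zero_of_orth I
    intro z v hv
    exact (Submodule.mem_orthogonal _ _).1 hw v (hrange z v hv)
  obtain ⟨ξ, hξ⟩ : (dl 0 : H) ∈ LinearMap.range (R' : H →ₗ[ℂ] H) := by
    rw [htop]
    trivial
  have hξ' : R' ξ = dl 0 := hξ
  have h1 := hbelow ξ
  rw [hξ', norm_dl] at h1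
  have h2 : (R' - shift) ξ = dl 0 - shift ξ := by rw [sub_apply, hξ']
  have h3 : inner ℂ (dl 0 : H) ((R' - shift) ξ) = 1 := by
    rw [h2, inner_sub_right, inner_dl, inner_dl, shift_zero, dl_self, sub_zero]
  have h4 : ‖inner ℂ (dl 0 : H) ((R' - shift) ξ)‖ ≤ ‖(dl 0 : H)‖ * ‖(R' - shift) ξ‖ :=
    norm_inner_le_norm _ _
  have h5 : ‖(R' - shift) ξ‖ ≤ ‖R' - shift‖ * ‖ξ‖ := ContinuousLinearMap.le_opNorm _ _
  rw [h3, norm_one, norm_dl, one_mul] at h4
  rw [hRS] at h5 h4
  have h6 : ‖ξ‖ ≤ 2 := by linarith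
  have h7 : ‖(b : H →L[ℂ] H) - N‖ * ‖ξ‖ ≤ ‖(b : H →L[ℂ] H) - N‖ * 2 :=
    mul_le_mul_of_nonneg_left h6 (norm_nonneg _)
  linarith

end boundary

end Iso

end Pool.Agent.W657.TG
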