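import Pool.Agent.W657.TG.Gpd

/-!
# The regular representation
-/

set_option autoImplicit false

open Topology Filter

namespace Pool.Agent.W657.TG

universe u

namespace Twist

variable {X G S : Type u} [TopologicalSpace X] [TopologicalSpace G] [TopologicalSpace S]
  {𝒢 : TopGpd X G} {tw : Twist 𝒢 S}

theorem proj_mul_lift {γ η : G} (h : 𝒢.s γ = 𝒢.s η) :
    tw.proj (tw.gpd.mul (tw.lift γ) (tw.gpd.inv (tw.lift η))) = 𝒢.mul γ (𝒢.inv η) := by
  rw [tw.proj_mul, tw.proj_inv, tw.proj_lift, tw.proj_lift]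
  rw [tw.gpd.r_inv, tw.s_lift, tw.s_lift, h]

theorem s_mul_lift {γ η : G} (h : 𝒢.s γ = 𝒢.s η) :
    tw.gpd.s (tw.gpd.mul (tw.lift γ) (tw.gpd.inv (tw.lift η))) = 𝒢.r η := by
  rw [tw.gpd.s_mul, tw.gpd.s_inv, tw.r_lift]
  rw [tw.gpd.r_inv, tw.s_lift, tw.s_lift, h]

theorem entry_of_ne (f : S → ℂ) {γ η : G} (h : 𝒢.s γ ≠ 𝒢.s η) : tw.entry f γ η = 0 := by
  unfold entry
  rw [if_neg h]

theorem entry_of_eq (f : S → ℂ) {γ η : G} (h : 𝒢.s γ = 𝒢.s η) :
    tw.entry f γ η = f (tw.gpd.mul (tw.lift γ) (tw.gpd.inv (tw.lift η))) := by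
  unfold entry
  rw [if_pos h]

/-- For every `f ∈ C_c(G, Σ)` the operator `λ(f)` exists. -/
theorem exists_regular [T2Space G] (h𝒢 : 𝒢.Etale) {f : S → ℂ} (hf : tw.IsSection f) :
    ∃ T, tw.IsRegular f T := by
  classical
  set C : Set G := tw.proj '' (tsupport f) with hC
  have hCc : IsCompact C := hf.hasCompactSupport.isCompact.image tw.continuous_proj
  set D : Set G := C ∪ 𝒢.inv '' C with hD
  have hDc : IsCompact D := hCc.union (hCc.image 𝒢.continuous_inv)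
  have hDinv : ∀ g ∈ D, 𝒢.inv g ∈ D := by
    rintro g (hg | ⟨g', hg', rfl⟩)
    · exact Or.inr ⟨g, hg, rfl⟩
    · rw [TopGpd.inv_inv]
      exact Or.inl hg'
  obtain ⟨N, hN⟩ := TopGpd.finite_fibre h𝒢.2 hDc
  set B' : G → Set G := fun γ => {η | 𝒢.s η = 𝒢.s γ ∧ 𝒢.mul γ (𝒢.inv η) ∈ D} with hB'
  have hmaps : ∀ γ, Set.MapsTo (fun η => 𝒢.mul γ (𝒢.inv η)) (B' γ) {g ∈ D | 𝒢.r g = 𝒢.r γ} := by
    intro γ η hη
    refine ⟨hη.2, ?_⟩
    exact 𝒢.r_mul _ _ (by rw [𝒢.r_inv, hη.1])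
  have hinj : ∀ γ, Set.InjOn (fun η => 𝒢.mul γ (𝒢.inv η)) (B' γ) := by
    intro γ η hη κ hκ h
    have h1 := TopGpd.mul_left_cancel (𝒢 := 𝒢) (by rw [𝒢.r_inv, hη.1]) (by rw [𝒢.r_inv, hκ.1]) h
    rw [← TopGpd.inv_inv (𝒢 := 𝒢) η, h1, TopGpd.inv_inv]
  have hfin : ∀ γ, (B' γ).Finite := fun γ =>
    Set.Finite.of_injOn (hmaps γ) (hinj γ) (hN (𝒢.r γ)).1
  have hcard : ∀ γ, (hfin γ).toFinset.card ≤ N := by
    intro γ
    rw [← Set.ncard_eq_toFinset_card (B' γ) (hfin γ)]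
    exact (Set.ncard_le_ncard_of_injOn _ (hmaps γ) (hinj γ) (hN (𝒢.r γ)).1).trans (hN (𝒢.r γ)).2
  have hsymm : ∀ γ η, γ ∈ (hfin η).toFinset → η ∈ (hfin γ).toFinset := by
    intro γ η h
    rw [Set.Finite.mem_toFinset] at h ⊢
    refine ⟨h.1.symm, ?_⟩
    have h2 := hDinv _ h.2
    rwa [TopGpd.mul_inv_rev (by rw [𝒢.r_inv, h.1]), TopGpd.inv_inv] at h2
  obtain ⟨b, hb⟩ := hf.hasCompactSupport.exists_bound_of_continuous hf.continuous
  have hb0 : ∀ γ η, ‖tw.entry f γ η‖ ≤ |b| := by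
    intro γ η
    unfold entry
    split_ifs
    · exact (hb _).trans (le_abs_self b)
    · rw [norm_zero]; exact abs_nonneg b
  obtain ⟨T, -, hT⟩ := exists_kernel (fun γ => (hfin γ).toFinset) hsymm N hcard
    (fun γ η => tw.entry f γ η) |b| (abs_nonneg b) hb0
  refine ⟨T, fun ξ γ => ?_⟩
  rw [hT]
  apply hasSum_sum_of_ne_finset_zero
  intro η hη
  rw [Set.Finite.mem_toFinset] at hη
  have : tw.entry f γ η = 0 := by
    by_cases h : 𝒢.s γ = 𝒢.s η
    · rw [entry_of_eq f h]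
      by_contra hne
      apply hη
      refine ⟨h.symm, Or.inl ?_⟩
      rw [← proj_mul_lift (tw := tw) h]
      exact ⟨_, subset_tsupport f hne, rfl⟩
    · exact entry_of_ne f h
  rw [this, zero_mul]

theorem IsRegular.apply_dl {f : S → ℂ} {T : l2 G →L[ℂ] l2 G} (h : tw.IsRegular f T) (γ η : G) :
    (T (dl η)) γ = tw.entry f γ η := by
  have h1 := h (dl η) γ
  have h2 : HasSum (fun κ => tw.entry f γ κ * (dl η : l2 G) κ) (tw.entry f γ η) := by
    have h3 := hasSum_single (f := fun κ => tw.entry f γ κ * (dl η : l2 G) κ) η (fun κ hκ => by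
      rw [dl_ne hκ, mul_zero])
    simpa [dl_self] using h3
  exact h1.unique h2

/-- `T` has the matrix of the continuous equivariant function `F`. -/
structure HasFun (tw : Twist 𝒢 S) (F : S → ℂ) (T : l2 G →L[ℂ] l2 G) : Prop where
  continuous : Continuous F
  equivariant : ∀ (z : Circle) (σ : S), F (tw.act z σ) = (starRingEnd ℂ) (z : ℂ) * F σ
  apply_dl : ∀ γ η, (T (dl η)) γ = tw.entry F γ η

theorem exists_phase (tw : Twist 𝒢 S) (σ : S) : ∃ z, σ = tw.act z (tw.gpd.mul (tw.lift (tw.proj σ))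
    (tw.gpd.inv (tw.lift (𝒢.unit (tw.gpd.s σ))))) := by
  apply tw.exists_act
  have h : 𝒢.s (tw.proj σ) = 𝒢.s (𝒢.unit (tw.gpd.s σ)) := by rw [tw.s_proj, 𝒢.s_unit]
  rw [proj_mul_lift h, TopGpd.inv_unit, ← tw.s_proj, 𝒢.mul_unit]

theorem norm_conj_circle (z : Circle) : ‖(starRingEnd ℂ) (z : ℂ)‖ = 1 := by
  rw [RCLike.norm_conj, Circle.norm_coe]

theorem HasFun.of_mem {T : l2 G →L[ℂ] l2 G} (hT : T ∈ tw.reduced) : ∃ F, tw.HasFun F T := by
  obtain ⟨Tn, hTn, hlim⟩ := mem_closure_iff_seq_limit.1 hT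
  choose fn hfn hreg using hTn
  choose z hz using exists_phase tw
  set F : S → ℂ := fun σ =>
    (starRingEnd ℂ) (z σ : ℂ) * (T (dl (𝒢.unit (tw.gpd.s σ)))) (tw.proj σ) with hF
  have hs : ∀ σ, 𝒢.s (tw.proj σ) = 𝒢.s (𝒢.unit (tw.gpd.s σ)) := fun σ => by
    rw [tw.s_proj, 𝒢.s_unit]
  have hfn' : ∀ n σ, fn n σ =
      (starRingEnd ℂ) (z σ : ℂ) * (Tn n (dl (𝒢.unit (tw.gpd.s σ)))) (tw.proj σ) := by
    intro n σ
    rw [(hreg n).apply_dl, entry_of_eq _ (hs σ), ← (hfn n).equivariant, ← hz σ]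
  have hdist : ∀ n σ, ‖fn n σ - F σ‖ ≤ ‖Tn n - T‖ := by
    intro n σ
    have h1 : fn n σ - F σ = (starRingEnd ℂ) (z σ : ℂ) *
        ((Tn n - T) (dl (𝒢.unit (tw.gpd.s σ)))) (tw.proj σ) := by
      rw [hfn', hF]
      simp only [sub_apply]
      show _ = _ * ((Tn n (dl (𝒢.unit (tw.gpd.s σ)))) (tw.proj σ) -
        (T (dl (𝒢.unit (tw.gpd.s σ)))) (tw.proj σ))
      ring
    rw [h1, norm_mul, norm_conj_circle, one_mul]
    exact entry_le _ _ _
  have hlim0 : Tendsto (fun n => ‖Tn n - T‖) atTop (𝓝 0) := by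
    rw [← tendsto_iff_norm_sub_tendsto_zero]
    exact hlim
  have hunif : TendstoUniformly fn F atTop := by
    rw [Metric.tendstoUniformly_iff]
    intro ε hε
    filter_upwards [hlim0.eventually (gt_mem_nhds hε)] with n hn σ
    rw [dist_comm, dist_eq_norm]
    exact (hdist n σ).trans_lt hn
  have hpt : ∀ σ, Tendsto (fun n => fn n σ) atTop (𝓝 (F σ)) := fun σ => hunif.tendsto_at σ
  refine ⟨F, ?_, ?_, ?_⟩
  · exact hunif.continuous (Frequently.of_forall fun n => (hfn n).continuous)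
  · intro w σ
    refine tendsto_nhds_unique (hpt _) ?_
    have := (hpt σ).const_mul ((starRingEnd ℂ) (w : ℂ))
    refine this.congr fun n => ?_
    rw [(hfn n).equivariant]
  · intro γ η
    have h1 : Tendsto (fun n => (Tn n (dl η)) γ) atTop (𝓝 ((T (dl η)) γ)) := by
      rw [tendsto_iff_norm_sub_tendsto_zero]
      refine squeeze_zero (fun n => norm_nonneg _) (fun n => ?_) hlim0
      have := entry_le (Tn n - T) η γ
      simpa using this
    have h2 : Tendsto (fun n => tw.entry (fn n) γ η) atTop (𝓝 (tw.entry F γ η)) := by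
      by_cases h : 𝒢.s γ = 𝒢.s η
      · simp only [entry_of_eq _ h]
        exact hpt _
      · simp only [entry_of_ne _ h]
        exact tendsto_const_nhds
    refine tendsto_nhds_unique h1 (h2.congr fun n => ?_)
    rw [(hreg n).apply_dl]

namespace HasFun

variable {F : S → ℂ} {T : l2 G →L[ℂ] l2 G}

theorem apply_ne (h : tw.HasFun F T) {γ η : G} (hne : 𝒢.s γ ≠ 𝒢.s η) : (T (dl η)) γ = 0 := by
  rw [h.apply_dl, entry_of_ne _ hne]

theorem dl_eq_zero_iff (h : tw.HasFun F T) (η : G) :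
    T (dl η) = 0 ↔ ∀ σ, tw.gpd.s σ = 𝒢.r η → F σ = 0 := by
  constructor
  · intro h0 σ hσ
    have e : 𝒢.s (tw.proj σ) = 𝒢.r η := by rw [tw.s_proj, hσ]
    have e1 : 𝒢.s (𝒢.mul (tw.proj σ) η) = 𝒢.s η := 𝒢.s_mul _ _ e
    have h1 := h.apply_dl (𝒢.mul (tw.proj σ) η) η
    rw [h0, entry_of_eq _ e1] at h1
    have h2 : tw.proj σ = tw.proj (tw.gpd.mul (tw.lift (𝒢.mul (tw.proj σ) η))
        (tw.gpd.inv (tw.lift η))) := by
      rw [proj_mul_lift e1, TopGpd.mul_inv_cancel_right e]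
    obtain ⟨z, hz⟩ := tw.exists_act h2
    rw [hz, h.equivariant, ← h1]
    simp
  · intro H
    apply lp.ext
    funext γ
    rw [h.apply_dl]
    by_cases e : 𝒢.s γ = 𝒢.s η
    · rw [entry_of_eq _ e, H _ (s_mul_lift e)]
      rfl
    · rw [entry_of_ne _ e]
      rfl

theorem dl_eq_zero_iff' (h : tw.HasFun F T) (η : G) :
    T (dl η) = 0 ↔ T (dl (𝒢.unit (𝒢.r η))) = 0 := by
  rw [h.dl_eq_zero_iff, h.dl_eq_zero_iff, 𝒢.r_unit]

theorem diag (h : tw.HasFun F T) (x : X) :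
    (T (dl (𝒢.unit x))) (𝒢.unit x) = F (tw.gpd.unit x) := by
  rw [h.apply_dl, entry_of_eq _ rfl, tw.gpd.mul_inv, tw.r_lift, 𝒢.r_unit]

end HasFun

theorem mem_reduced {f : S → ℂ} {T : l2 G →L[ℂ] l2 G} (hf : tw.IsSection f)
    (hT : tw.IsRegular f T) : T ∈ tw.reduced :=
  subset_closure ⟨f, hf, hT⟩

/-! ## Multiplication operators -/

section mult

open Classical in
/-- the function on `Σ` given by a function on the unit space -/
noncomputable def ofUnits (tw : Twist 𝒢 S) (d : X → ℂ) : S → ℂ :=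
  Function.extend tw.incl (fun p => (starRingEnd ℂ) (p.2 : ℂ) * d p.1) 0

theorem ofUnits_incl (d : X → ℂ) (p : X × Circle) :
    tw.ofUnits d (tw.incl p) = (starRingEnd ℂ) (p.2 : ℂ) * d p.1 :=
  tw.isEmbedding_incl.injective.extend_apply _ _ _

theorem ofUnits_of_notMem (d : X → ℂ) {σ : S} (h : σ ∉ Set.range tw.incl) :
    tw.ofUnits d σ = 0 := by
  unfold ofUnits
  rw [Function.extend_apply']
  · rfl
  · exact h

theorem isOpen_range_incl (h𝒢 : 𝒢.Etale) : IsOpen (Set.range tw.incl) := by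
  have : Set.range tw.incl = tw.proj ⁻¹' (Set.range 𝒢.unit) := by
    ext σ
    exact (tw.ker_proj σ).symm
  rw [this]
  exact (TopGpd.isOpen_units h𝒢).preimage tw.continuous_proj

theorem isClosed_range_incl [T2Space G] : IsClosed (Set.range tw.incl) := by
  have : Set.range tw.incl = tw.proj ⁻¹' (Set.range 𝒢.unit) := by
    ext σ
    exact (tw.ker_proj σ).symm
  rw [this]
  exact (TopGpd.isClosed_units).preimage tw.continuous_proj

theorem isSection_ofUnits [T2Space G] [T2Space S] (h𝒢 : 𝒢.Etale) {d : X → ℂ} (hd : Continuous d)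
    (hdc : HasCompactSupport d) : tw.IsSection (tw.ofUnits d) := by
  refine ⟨?_, ?_, ?_⟩
  · rw [continuous_iff_continuousAt]
    intro σ
    by_cases h : σ ∈ Set.range tw.incl
    · obtain ⟨p, rfl⟩ := h
      have ho : IsOpenEmbedding tw.incl := ⟨tw.isEmbedding_incl, isOpen_range_incl h𝒢⟩
      rw [← ho.continuousAt_iff]
      have : tw.ofUnits d ∘ tw.incl = fun p => (starRingEnd ℂ) (p.2 : ℂ) * d p.1 := by
        funext p
        exact ofUnits_incl d p
      rw [this]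
      apply Continuous.continuousAt
      have h1 : Continuous fun p : X × Circle => ((p.2 : Circle) : ℂ) :=
        by fun_prop
      exact (Complex.continuous_conj.comp h1).mul (hd.comp continuous_fst)
    · have h1 : (Set.range tw.incl)ᶜ ∈ 𝓝 σ := (isClosed_range_incl).isOpen_compl.mem_nhds h
      have h2 : tw.ofUnits d =ᶠ[𝓝 σ] fun _ => 0 := by
        filter_upwards [h1] with τ hτ
        exact ofUnits_of_notMem d hτ
      exact continuousAt_const.congr h2.symm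
  · refine HasCompactSupport.intro (K := tw.incl '' (tsupport d ×ˢ Set.univ)) ?_ ?_
    · exact (hdc.isCompact.prod isCompact_univ).image tw.isEmbedding_incl.continuous
    · intro σ hσ
      by_cases h : σ ∈ Set.range tw.incl
      · obtain ⟨p, rfl⟩ := h
        rw [ofUnits_incl]
        by_cases hp : p.1 ∈ tsupport d
        · exact absurd ⟨p, ⟨hp, trivial⟩, rfl⟩ hσ
        · rw [image_eq_zero_of_notMem_tsupport hp, mul_zero]
      · exact ofUnits_of_notMem d h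
  · intro z σ
    by_cases h : σ ∈ Set.range tw.incl
    · obtain ⟨⟨x, w⟩, rfl⟩ := h
      have h1 : tw.act z (tw.incl (x, w)) = tw.incl (x, z * w) := by
        rw [incl_eq_act, incl_eq_act, act_mul]
      rw [h1, ofUnits_incl, ofUnits_incl]
      simp only [Circle.coe_mul, map_mul]
      ring
    · have h1 : tw.act z σ ∉ Set.range tw.incl := by
        rw [← tw.ker_proj, tw.proj_act, tw.ker_proj]
        exact h
      rw [ofUnits_of_notMem d h, ofUnits_of_notMem d h1, mul_zero]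

theorem entry_ofUnits (d : X → ℂ) (γ : G) : tw.entry (tw.ofUnits d) γ γ = d (𝒢.r γ) := by
  rw [entry_of_eq _ rfl, tw.gpd.mul_inv, tw.r_lift, ← tw.incl_one, ofUnits_incl]
  simp

theorem entry_ofUnits_ne (d : X → ℂ) {γ η : G} (h : γ ≠ η) :
    tw.entry (tw.ofUnits d) γ η = 0 := by
  by_cases e : 𝒢.s γ = 𝒢.s η
  · rw [entry_of_eq _ e]
    apply ofUnits_of_notMem
    rw [← tw.ker_proj, proj_mul_lift e]
    rintro ⟨x, hx⟩
    apply h
    have e1 : 𝒢.s γ = 𝒢.r (𝒢.inv η) := by rw [𝒢.r_inv, e]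
    have h1 : 𝒢.mul (𝒢.mul γ (𝒢.inv η)) η = γ := TopGpd.inv_mul_cancel_right e
    have h2 : x = 𝒢.r η := by
      have := congrArg 𝒢.s hx
      rw [𝒢.s_unit, 𝒢.s_mul _ _ e1, 𝒢.s_inv] at this
      exact this
    rw [← hx, h2, 𝒢.unit_mul] at h1
    exact h1.symm
  · exact entry_of_ne _ e

theorem isRegular_ofUnits {d : X → ℂ} {T : l2 G →L[ℂ] l2 G}
    (hT : ∀ ξ γ, (T ξ) γ = d (𝒢.r γ) * ξ γ) : tw.IsRegular (tw.ofUnits d) T := by
  intro ξ γ
  have h := hasSum_single (f := fun η => tw.entry (tw.ofUnits d) γ η * ξ η) γ (fun η hη => by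
    rw [entry_ofUnits_ne d hη.symm, zero_mul])
  rw [hT]
  simpa [entry_ofUnits] using h

/-- Multiplication by `d ∘ r`, for `d ∈ C_c(G⁰)`, lies in the reduced C*-algebra. -/
theorem exists_mult [T2Space G] [T2Space S] (h𝒢 : 𝒢.Etale) {d : X → ℂ} (hd : Continuous d)
    (hdc : HasCompactSupport d) :
    ∃ T ∈ tw.reduced, ∀ ξ γ, (T ξ) γ = d (𝒢.r γ) * ξ γ := by
  obtain ⟨b, hb⟩ := hdc.exists_bound_of_continuous hd
  obtain ⟨T, -, hT⟩ := exists_diag (fun γ : G => d (𝒢.r γ)) |b| (abs_nonneg b)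
    (fun γ => (hb _).trans (le_abs_self b))
  exact ⟨T, mem_reduced (isSection_ofUnits h𝒢 hd hdc) (isRegular_ofUnits hT), hT⟩

end mult

end Twist

end Pool.Agent.W657.TG
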